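import Pool.Agent.W_58hard_h42.Std

/-!
# MP_58cc3c_co, hardness: the frame

Points are pairs `(c, p)`: `c` is the number of the cell and `p` the position in the cell. Even
cells `2 i` are the blocks, odd cells `2 i + 1` contain at most one point (linker). `a`, `b` are the
one-line notations of `α` (length `m`) and `β` (length `n`).

The block `0` is `α`, the blocks `1` and `2` are `β`, the block `i ≥ 2` consists of the first
`n + 2 - i` entries of `β`; the last block has the number `n + 1` and one point.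
-/

namespace Pool.Agent.W_58hard_h42

/-- Horizontal slot of a cell. -/
def sx (c : ℕ) : ℕ := if c % 2 = 0 then c else c + 2

/-- Vertical slot of a cell. -/
def sy (c : ℕ) : ℕ := if c % 2 = 0 then c + 1 else c - 1

/-- `u` is to the left of `v`. -/
def lf (u v : ℕ × ℕ) : Prop := sx u.1 < sx v.1 ∨ (u.1 = v.1 ∧ u.2 < v.2)

/-- `u` is below `v`. -/
def bl (a b : ℕ → ℕ) (u v : ℕ × ℕ) : Prop :=
  sy u.1 < sy v.1 ∨ (u.1 = v.1 ∧ ((u.1 = 0 ∧ a u.2 < a v.2) ∨ (u.1 ≠ 0 ∧ b u.2 < b v.2)))

/-- The number of points in the cell `c` of `π`. -/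
def szP (m n c : ℕ) : ℕ :=
  if c % 2 = 1 then (if c ≤ 2 * n + 1 then 1 else 0)
  else if c = 0 then m else if c = 2 then n else n + 2 - c / 2

/-- The number of points in the cell `c` of `σ`. -/
def szS (m n c : ℕ) : ℕ :=
  if c % 2 = 1 then (if c < 2 * n then 1 else 0)
  else if c = 0 then m else if c = 2 then n else n + 1 - c / 2

/-- The points of `π`. -/
def ptP (m n : ℕ) : Finset (ℕ × ℕ) :=
  (Finset.range (2 * n + 3) ×ˢ Finset.range (m + n + 1)).filter fun u => u.2 < szP m n u.1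

/-- The points of `σ`. -/
def ptS (m n : ℕ) : Finset (ℕ × ℕ) :=
  (Finset.range (2 * n + 3) ×ˢ Finset.range (m + n + 1)).filter fun u => u.2 < szS m n u.1

/-- The points of `π` which are not in `σ`. -/
def ptD (m n : ℕ) : Finset (ℕ × ℕ) := ptP m n \ ptS m n

theorem mem_ptP {m n : ℕ} (u : ℕ × ℕ) : u ∈ ptP m n ↔ u.2 < szP m n u.1 := by
  unfold ptP szP
  rw [Finset.mem_filter, Finset.mem_product, Finset.mem_range, Finset.mem_range]
  constructor
  · exact fun h => h.2
  · intro h
    refine ⟨?_, h⟩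
    split_ifs at h <;> constructor <;> omega

theorem mem_ptS {m n : ℕ} (u : ℕ × ℕ) : u ∈ ptS m n ↔ u.2 < szS m n u.1 := by
  unfold ptS szS
  rw [Finset.mem_filter, Finset.mem_product, Finset.mem_range, Finset.mem_range]
  constructor
  · exact fun h => h.2
  · intro h
    refine ⟨?_, h⟩
    split_ifs at h <;> constructor <;> omega

theorem ptS_sub {m n : ℕ} : ptS m n ⊆ ptP m n := by
  intro u
  rw [mem_ptP, mem_ptS]
  unfold szP szS
  split_ifs <;> omega

/-- The points of `D`: the last points of the blocks `2, …, n + 1` and the last linker. -/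
theorem mem_ptD {m n : ℕ} (hn : 1 ≤ n) (u : ℕ × ℕ) : u ∈ ptD m n ↔
    (∃ i, 2 ≤ i ∧ i ≤ n + 1 ∧ u = (2 * i, n + 1 - i)) ∨ u = (2 * n + 1, 0) := by
  obtain ⟨c, p⟩ := u
  unfold ptD
  rw [Finset.mem_sdiff, mem_ptP, mem_ptS]
  unfold szP szS
  constructor
  · intro h
    rcases Nat.mod_two_eq_zero_or_one c with hc | hc
    · left
      refine ⟨c / 2, ?_⟩
      rw [Prod.mk.injEq]
      simp only at h
      split_ifs at h <;> omega
    · right
      rw [Prod.mk.injEq]
      simp only at h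
      split_ifs at h <;> omega
  · rintro (⟨i, h1, h2, h⟩ | h)
    · rw [Prod.mk.injEq] at h
      obtain ⟨rfl, rfl⟩ := h
      simp only
      split_ifs <;> omega
    · rw [Prod.mk.injEq] at h
      obtain ⟨rfl, rfl⟩ := h
      simp only
      split_ifs <;> omega

theorem card_ptD {m n : ℕ} (hn : 1 ≤ n) : (ptD m n).card = n + 1 := by
  classical
  have h : ptD m n = insert (2 * n + 1, 0)
      ((Finset.Icc 2 (n + 1)).image fun i => (2 * i, n + 1 - i)) := by
    ext u
    rw [mem_ptD hn, Finset.mem_insert, Finset.mem_image]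
    constructor
    · rintro (⟨i, h1, h2, h3⟩ | h3)
      · exact Or.inr ⟨i, Finset.mem_Icc.2 ⟨h1, h2⟩, h3.symm⟩
      · exact Or.inl h3
    · rintro (h3 | ⟨i, h1, h3⟩)
      · exact Or.inr h3
      · rw [Finset.mem_Icc] at h1
        exact Or.inl ⟨i, h1.1, h1.2, h3.symm⟩
  rw [h, Finset.card_insert_of_notMem, Finset.card_image_of_injective, Nat.card_Icc]
  · omega
  · intro i j hij
    have := congrArg Prod.fst hij
    simp only at this
    omega
  · rw [Finset.mem_image]
    rintro ⟨i, -, h3⟩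
    have := congrArg Prod.fst h3
    simp only at this
    omega

/-! ### The two orders -/

/-- `a` is injective on the numbers less than `m`. -/
def InjB (m : ℕ) (a : ℕ → ℕ) : Prop := ∀ i < m, ∀ j < m, a i = a j → i = j

theorem sto_lf (m n : ℕ) : STO (ptP m n) lf := by
  refine ⟨?_, ?_, ?_⟩
  · intro u _
    unfold lf
    omega
  · intro u _ v _ w _
    unfold lf sx
    split_ifs <;> omega
  · rintro ⟨c, p⟩ _ ⟨c', p'⟩ _ h
    have h' : c = c' → p ≠ p' := by
      rintro rfl rfl
      exact h rfl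
    unfold lf sx
    simp only
    split_ifs <;> omega

theorem sto_bl {m n : ℕ} {a b : ℕ → ℕ} (ha : InjB m a) (hb : InjB n b) :
    STO (ptP m n) (bl a b) := by
  refine ⟨?_, ?_, ?_⟩
  · intro u _
    unfold bl
    omega
  · intro u _ v _ w _
    unfold bl sy
    split_ifs <;> omega
  · rintro ⟨c, p⟩ hu ⟨c', p'⟩ hv h
    rw [mem_ptP] at hu hv
    simp only at hu hv
    by_cases hc : c = c'
    · subst hc
      have hp : p ≠ p' := by
        rintro rfl
        exact h rfl
      by_cases h0 : c = 0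
      · subst h0
        have hu' : p < m := by simpa [szP] using hu
        have hv' : p' < m := by simpa [szP] using hv
        have h1 : a p ≠ a p' := fun he => hp (ha p hu' p' hv' he)
        rcases lt_or_gt_of_ne h1 with h2 | h2
        · exact Or.inl (Or.inr ⟨rfl, Or.inl ⟨rfl, h2⟩⟩)
        · exact Or.inr (Or.inr ⟨rfl, Or.inl ⟨rfl, h2⟩⟩)
      · have hn : szP m n c ≤ n ∨ szP m n c ≤ 1 := by
          unfold szP
          split_ifs <;> omega
        rcases hn with hn | hn
        · have h1 : b p ≠ b p' := fun he => hp (hb p (by omega) p' (by omega) he)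
          rcases lt_or_gt_of_ne h1 with h2 | h2
          · exact Or.inl (Or.inr ⟨rfl, Or.inr ⟨h0, h2⟩⟩)
          · exact Or.inr (Or.inr ⟨rfl, Or.inr ⟨h0, h2⟩⟩)
        · omega
    · unfold bl sy
      simp only
      split_ifs <;> omega

/-- Points of cells of distance at least 2. -/
theorem far {a b : ℕ → ℕ} {u v : ℕ × ℕ} (h : u.1 + 2 ≤ v.1) : lf u v ∧ bl a b u v := by
  unfold lf bl sx sy
  split_ifs <;> omega

/-- Points of adjacent cells are inverted. -/
theorem near {a b : ℕ → ℕ} {u v : ℕ × ℕ} (h : v.1 = u.1 + 1) :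
    (lf u v ∧ bl a b v u) ∨ (lf v u ∧ bl a b u v) := by
  unfold lf bl sx sy
  split_ifs <;> omega

/-- For points in different cells the orders depend on the cells only. -/
theorem cell_only {a b : ℕ → ℕ} {u v u' v' : ℕ × ℕ} (h : u.1 ≠ v.1) (hu : u'.1 = u.1)
    (hv : v'.1 = v.1) : (lf u v ↔ lf u' v') ∧ (bl a b u v ↔ bl a b u' v') := by
  unfold lf bl
  rw [hu, hv]
  omega

/-- `e` preserves and reflects the two orders on `S`. -/
def Emb (a b : ℕ → ℕ) (S : Finset (ℕ × ℕ)) (e : ℕ × ℕ → ℕ × ℕ) : Prop :=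
  ∀ u ∈ S, ∀ v ∈ S, (lf u v ↔ lf (e u) (e v)) ∧ (bl a b u v ↔ bl a b (e u) (e v))

theorem Emb.mono {a b : ℕ → ℕ} {S T : Finset (ℕ × ℕ)} {e : ℕ × ℕ → ℕ × ℕ} (h : Emb a b S e)
    (hT : T ⊆ S) : Emb a b T e := fun u hu v hv => h u (hT hu) v (hT hv)

theorem Emb.inj {m n : ℕ} {a b : ℕ → ℕ} {S : Finset (ℕ × ℕ)} {e : ℕ × ℕ → ℕ × ℕ}
    (h : Emb a b S e) (hS : S ⊆ ptP m n) {u v : ℕ × ℕ} (hu : u ∈ S) (hv : v ∈ S)
    (huv : e u = e v) : u = v := by
  by_contra hne
  have h1 : ∀ w : ℕ × ℕ, ¬ lf w w := by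
    intro w
    unfold lf
    omega
  rcases (sto_lf m n).tot u (hS hu) v (hS hv) hne with h2 | h2
  · have h3 := (h u hu v hv).1.1 h2
    rw [huv] at h3
    exact h1 _ h3
  · have h3 := (h v hv u hu).1.1 h2
    rw [huv] at h3
    exact h1 _ h3

/-! ### The permutations -/

/-- The permutation of a set of points of `π`. -/
noncomputable def pm {m n : ℕ} {a b : ℕ → ℕ} (ha : InjB m a) (hb : InjB n b)
    {S : Finset (ℕ × ℕ)} (hS : S ⊆ ptP m n) : Pool.Agent.W_58cc_h2.FPerm :=
  std ((sto_lf m n).mono hS) ((sto_bl ha hb).mono hS)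

/-- The word `a 0, …, a (m - 1)` is contained in the word `b 0, …, b (n - 1)`. -/
def Sub (m n : ℕ) (a b : ℕ → ℕ) : Prop :=
  ∃ f : ℕ → ℕ, (∀ i < m, f i < n) ∧
    ∀ i < m, ∀ j < m, (i < j ↔ f i < f j) ∧ (a i < a j ↔ b (f i) < b (f j))

end Pool.Agent.W_58hard_h42
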