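import Pool.Agent.W_58hard_h42.Pts
import Pool.Agent.W_58hard_h42.Frame

/-!
# MP_58cc3c_co, hardness: the frame as a list of points
-/

namespace Pool.Agent.W_58hard_h42

open Pool.Agent.W_58cc_h2

/-- The list as a function. -/
def fn (A : List ℕ) (i : ℕ) : ℕ := (A[i]?).getD 0

/-- A point of the block `i`. -/
def bp (A B : List ℕ) (i p : ℕ) : P4 :=
  ((2 * i, p, 0, 0), (2 * i + 1, if i = 0 then fn A p else fn B p, 0, 0))

/-- The linker `i`. -/
def lp (i : ℕ) : P4 := ((2 * i + 3, 0, 0, 0), (2 * i, 0, 0, 0))

/-- The points of `π`. -/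
def fP (A B : List ℕ) : List P4 :=
  ((List.range (B.length + 2)).flatMap fun i => (List.range (if i = 0 then A.length else
    if i = 1 then B.length else B.length + 2 - i)).map fun p => bp A B i p) ++
  (List.range (B.length + 1)).map fun i => lp i

/-- The points of `σ`. -/
def fS (A B : List ℕ) : List P4 :=
  ((List.range (B.length + 1)).flatMap fun i => (List.range (if i = 0 then A.length else
    if i = 1 then B.length else B.length + 1 - i)).map fun p => bp A B i p) ++
  (List.range B.length).map fun i => lp i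

/-- Isomorphic sets of points have the same permutation. -/
theorem std_congr {V W : Type} [Nonempty W] {r q : V → V → Prop} {r' q' : W → W → Prop}
    {S : Finset V} {T : Finset W} (hr : STO S r) (hq : STO S q) (hr' : STO T r')
    (hq' : STO T q') (g : V → W) (hg : ∀ v ∈ S, g v ∈ T) (hsurj : ∀ w ∈ T, ∃ v ∈ S, g v = w)
    (h : ∀ u ∈ S, ∀ v ∈ S, (r u v ↔ r' (g u) (g v)) ∧ (q u v ↔ q' (g u) (g v))) :
    std hr hq = std hr' hq' := by
  classical
  refine Std_eq_of_patLE ((std_le_iff hr hq hr' hq').2 ⟨g, hg, h⟩) ?_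
  show T.card ≤ S.card
  refine le_trans (Finset.card_le_card (t := S.image g) ?_) Finset.card_image_le
  intro w hw
  obtain ⟨v, hv, rfl⟩ := hsurj w hw
  exact Finset.mem_image_of_mem g hv

/-- The point of the list with the number `p` in the cell `c`. -/
private def gm (A B : List ℕ) (v : ℕ × ℕ) : P4 :=
  if v.1 % 2 = 0 then bp A B (v.1 / 2) v.2 else lp (v.1 / 2)

private theorem gm_fst (A B : List ℕ) (v : ℕ × ℕ) :
    (gm A B v).1 = (sx v.1, if v.1 % 2 = 0 then v.2 else 0, 0, 0) := by
  unfold gm sx
  by_cases h : v.1 % 2 = 0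
  · rw [if_pos h, if_pos h, if_pos h]
    unfold bp
    have h2 : 2 * (v.1 / 2) = v.1 := by omega
    rw [h2]
  · rw [if_neg h, if_neg h, if_neg h]
    unfold lp
    have h2 : 2 * (v.1 / 2) + 3 = v.1 + 2 := by omega
    rw [h2]

private theorem gm_snd (A B : List ℕ) (v : ℕ × ℕ) :
    (gm A B v).2 = (sy v.1, if v.1 % 2 = 0 then (if v.1 = 0 then fn A v.2 else fn B v.2) else 0,
      0, 0) := by
  unfold gm sy
  by_cases h : v.1 % 2 = 0
  · rw [if_pos h, if_pos h, if_pos h]
    unfold bp
    have h2 : 2 * (v.1 / 2) = v.1 := by omega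
    have h3 : v.1 / 2 = 0 ↔ v.1 = 0 := by omega
    rw [h2]
    by_cases h4 : v.1 = 0
    · rw [if_pos (h3.2 h4), if_pos h4]
    · rw [if_neg (fun h5 => h4 (h3.1 h5)), if_neg h4]
  · rw [if_neg h, if_neg h, if_neg h]
    unfold lp
    have h2 : 2 * (v.1 / 2) = v.1 - 1 := by omega
    rw [h2]

private theorem odd_zero {m n : ℕ} {v : ℕ × ℕ} (hv : v ∈ ptP m n) (h : v.1 % 2 ≠ 0) :
    v.2 = 0 := by
  rw [mem_ptP] at hv
  unfold szP at hv
  rw [if_pos (by omega)] at hv
  split_ifs at hv <;> omega

private theorem ol_gm {A B : List ℕ} (ha : InjB A.length (fn A)) (hb : InjB B.length (fn B))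
    {S : Finset (ℕ × ℕ)} (hS : S ⊆ ptP A.length B.length) (L : List P4)
    (hL : ∀ w, w ∈ L ↔ ∃ v ∈ S, gm A B v = w) : ol L = oneLine (pm ha hb hS) := by
  have hx : STO L.toFinset lx := by
    refine sto_lx fun u hu v hv huv => ?_
    rw [List.mem_toFinset, hL] at hu hv
    obtain ⟨u', hu', rfl⟩ := hu
    obtain ⟨v', hv', rfl⟩ := hv
    rw [gm_fst, gm_fst, Prod.mk.injEq, Prod.mk.injEq] at huv
    have h1 := odd_zero (hS hu')
    have h2 := odd_zero (hS hv')
    have h3 : u' = v' := by
      obtain ⟨h4, h5, -⟩ := huv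
      unfold sx at h4
      apply Prod.ext <;> split_ifs at h4 h5 <;> omega
    rw [h3]
  have hy : STO L.toFinset ly := by
    refine sto_ly fun u hu v hv huv => ?_
    rw [List.mem_toFinset, hL] at hu hv
    obtain ⟨u', hu', rfl⟩ := hu
    obtain ⟨v', hv', rfl⟩ := hv
    rw [gm_snd, gm_snd, Prod.mk.injEq, Prod.mk.injEq] at huv
    have h1 := odd_zero (hS hu')
    have h2 := odd_zero (hS hv')
    have h3 : u' = v' := by
      obtain ⟨h4, h5, -⟩ := huv
      have h6 : u'.1 = v'.1 := by
        unfold sy at h4
        split_ifs at h4 <;> omega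
      refine Prod.ext h6 ?_
      rw [← h6] at h5
      by_cases h7 : u'.1 % 2 = 0
      · rw [if_pos h7, if_pos h7] at h5
        have h8 := (mem_ptP _).1 (hS hu')
        have h9 := (mem_ptP _).1 (hS hv')
        rw [← h6] at h9
        unfold szP at h8 h9
        rw [if_neg (by omega)] at h8 h9
        by_cases h10 : u'.1 = 0
        · rw [if_pos h10, if_pos h10] at h5
          rw [if_pos h10] at h8 h9
          exact ha _ h8 _ h9 h5
        · rw [if_neg h10, if_neg h10] at h5
          rw [if_neg h10] at h8 h9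
          refine hb _ ?_ _ ?_ h5
          · split_ifs at h8 <;> omega
          · split_ifs at h9 <;> omega
      · rw [h1 h7, h2 (by rwa [← h6])]
    rw [h3]
  rw [ol_eq L hx hy]
  congr 1
  refine (std_congr _ _ hx hy (gm A B) (fun v hv => ?_) (fun w hw => ?_) (fun u hu v hv => ?_)).symm
  · rw [List.mem_toFinset, hL]
    exact ⟨v, hv, rfl⟩
  · rw [List.mem_toFinset, hL] at hw
    exact hw
  · have h1 := odd_zero (hS hu)
    have h2 := odd_zero (hS hv)
    constructor
    · unfold lf lx
      rw [lt4_iff, gm_fst, gm_fst]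
      simp only
      unfold sx
      split_ifs <;> omega
    · unfold bl ly
      rw [lt4_iff, gm_snd, gm_snd]
      simp only
      by_cases h3 : u.1 = v.1
      · rw [← h3] at h2 ⊢
        by_cases h4 : u.1 % 2 = 0
        · rw [if_pos h4, if_pos h4]
          by_cases h5 : u.1 = 0
          · rw [if_pos h5, if_pos h5]
            omega
          · rw [if_neg h5, if_neg h5]
            omega
        · rw [if_neg h4, if_neg h4, h1 h4, h2 h4]
          omega
      · have h6 : sy u.1 ≠ sy v.1 := by
          unfold sy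
          split_ifs <;> omega
        omega

theorem ol_fP {A B : List ℕ} (ha : InjB A.length (fn A)) (hb : InjB B.length (fn B)) :
    ol (fP A B) = oneLine (pm ha hb (Finset.Subset.refl (ptP A.length B.length))) := by
  refine ol_gm ha hb _ _ fun w => ?_
  unfold fP
  rw [List.mem_append, List.mem_flatMap, List.mem_map]
  constructor
  · rintro (⟨i, hi, hw⟩ | ⟨i, hi, rfl⟩)
    · rw [List.mem_range] at hi
      obtain ⟨p, hp, rfl⟩ := List.mem_map.1 hw
      rw [List.mem_range] at hp
      refine ⟨(2 * i, p), ?_, ?_⟩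
      · rw [mem_ptP]
        unfold szP
        simp only
        split_ifs at hp ⊢ <;> omega
      · unfold gm
        have h1 : 2 * i % 2 = 0 := by omega
        have h2 : 2 * i / 2 = i := by omega
        simp only [h1, h2, if_true]
    · rw [List.mem_range] at hi
      refine ⟨(2 * i + 1, 0), ?_, ?_⟩
      · rw [mem_ptP]
        unfold szP
        simp only
        split_ifs <;> omega
      · unfold gm
        have h1 : (2 * i + 1) % 2 ≠ 0 := by omega
        have h2 : (2 * i + 1) / 2 = i := by omega
        simp only [h1, h2, if_false]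
  · rintro ⟨v, hv, rfl⟩
    rw [mem_ptP] at hv
    unfold szP at hv
    by_cases h : v.1 % 2 = 0
    · left
      refine ⟨v.1 / 2, ?_, ?_⟩
      · rw [List.mem_range]
        split_ifs at hv <;> omega
      · unfold gm
        rw [if_pos h]
        refine List.mem_map.2 ⟨v.2, ?_, rfl⟩
        rw [List.mem_range]
        split_ifs at hv ⊢ <;> omega
    · right
      refine ⟨v.1 / 2, ?_, ?_⟩
      · rw [List.mem_range]
        split_ifs at hv <;> omega
      · unfold gm
        rw [if_neg h]

theorem ol_fS {A B : List ℕ} (ha : InjB A.length (fn A)) (hb : InjB B.length (fn B))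
    (hn : 1 ≤ B.length) :
    ol (fS A B) = oneLine (pm ha hb (ptS_sub (m := A.length) (n := B.length))) := by
  refine ol_gm ha hb _ _ fun w => ?_
  unfold fS
  rw [List.mem_append, List.mem_flatMap, List.mem_map]
  constructor
  · rintro (⟨i, hi, hw⟩ | ⟨i, hi, rfl⟩)
    · rw [List.mem_range] at hi
      obtain ⟨p, hp, rfl⟩ := List.mem_map.1 hw
      rw [List.mem_range] at hp
      refine ⟨(2 * i, p), ?_, ?_⟩
      · rw [mem_ptS]
        unfold szS
        simp only
        split_ifs at hp ⊢ <;> omega
      · unfold gm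
        have h1 : 2 * i % 2 = 0 := by omega
        have h2 : 2 * i / 2 = i := by omega
        simp only [h1, h2, if_true]
    · rw [List.mem_range] at hi
      refine ⟨(2 * i + 1, 0), ?_, ?_⟩
      · rw [mem_ptS]
        unfold szS
        simp only
        split_ifs <;> omega
      · unfold gm
        have h1 : (2 * i + 1) % 2 ≠ 0 := by omega
        have h2 : (2 * i + 1) / 2 = i := by omega
        simp only [h1, h2, if_false]
  · rintro ⟨v, hv, rfl⟩
    rw [mem_ptS] at hv
    unfold szS at hv
    by_cases h : v.1 % 2 = 0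
    · left
      refine ⟨v.1 / 2, ?_, ?_⟩
      · rw [List.mem_range]
        split_ifs at hv <;> omega
      · unfold gm
        rw [if_pos h]
        refine List.mem_map.2 ⟨v.2, ?_, rfl⟩
        rw [List.mem_range]
        split_ifs at hv ⊢ <;> omega
    · right
      refine ⟨v.1 / 2, ?_, ?_⟩
      · rw [List.mem_range]
        split_ifs at hv <;> omega
      · unfold gm
        rw [if_neg h]

end Pool.Agent.W_58hard_h42
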