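import Pool.Agent.W_58hard_h42.Conv

/-!
# MP_58cc3c_co, hardness: one-line notations as functions
-/

namespace Pool.Agent.W_58hard_h42

open Pool.Agent.W_58cc_h2

theorem ConvB_len (t : FPerm) : (oneLine t).length = t.n := by
  unfold oneLine
  exact List.length_ofFn

theorem ConvB_fn (t : FPerm) {i : ℕ} (h : i < t.n) : fn (oneLine t) i = (t.p ⟨i, h⟩ : ℕ) := by
  unfold fn oneLine
  rw [List.getElem?_ofFn, dif_pos h]
  rfl

theorem injB_oneLine (t : FPerm) : InjB (oneLine t).length (fn (oneLine t)) := by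
  intro i hi j hj hij
  rw [ConvB_len] at hi hj
  rw [ConvB_fn t hi, ConvB_fn t hj] at hij
  have h := t.p.injective (Fin.ext hij)
  exact congrArg Fin.val h

theorem patLE_iff_sub (s t : FPerm) : PatLE s t ↔
    Sub (oneLine s).length (oneLine t).length (fn (oneLine s)) (fn (oneLine t)) := by
  rw [ConvB_len, ConvB_len]
  constructor
  · rintro ⟨f, hf, h⟩
    have key : ∀ i (hi : i < s.n), (fun i => if h : i < s.n then (f ⟨i, h⟩ : ℕ) else 0) i =
        (f ⟨i, hi⟩ : ℕ) := fun i hi => dif_pos hi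
    refine ⟨fun i => if h : i < s.n then (f ⟨i, h⟩ : ℕ) else 0, fun i hi => ?_,
      fun i hi j hj => ?_⟩
    · rw [key i hi]
      exact (f ⟨i, hi⟩).2
    · rw [key i hi, key j hj, ConvB_fn s hi, ConvB_fn s hj, ConvB_fn t (f ⟨i, hi⟩).2,
        ConvB_fn t (f ⟨j, hj⟩).2]
      constructor
      · exact (hf.lt_iff_lt (a := (⟨i, hi⟩ : Fin s.n)) (b := ⟨j, hj⟩)).symm
      · exact h ⟨i, hi⟩ ⟨j, hj⟩
  · rintro ⟨f, hf, h⟩
    refine ⟨fun i => ⟨f i, hf i i.2⟩, fun i j hij => ?_, fun i j => ?_⟩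
    · exact (h i i.2 j j.2).1.1 hij
    · have h2 := (h i i.2 j j.2).2
      rw [ConvB_fn s i.2, ConvB_fn s j.2, ConvB_fn t (hf i i.2), ConvB_fn t (hf j j.2)] at h2
      exact h2

end Pool.Agent.W_58hard_h42
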