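import Pool.Agent.W_58ccg_h2.GDefs

/-!
# MP_58cc3c_co, hardness: definitions of the final statement
-/

namespace Pool.Agent.W_58hard_h42

open Pool.Agent.W_58cc_h2

/-- The interval from `s` to `t` is isomorphic to the lattice of the subsets of a set with `r`
elements. -/
def IsBoolean (s t : FPerm) (r : ℕ) : Prop :=
  ∃ Φ : Finset (Fin r) → FPerm, (∀ G H, PatLE (Φ G) (Φ H) ↔ G ⊆ H) ∧
    ∀ x, (PatLE s x ∧ PatLE x t) ↔ ∃ G, Φ G = x

/-- The one-line notation. -/
def oneLine (t : FPerm) : List ℕ := List.ofFn fun i => (t.p i : ℕ)

/-- The code of a natural number as a bit string (unary). -/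
def codeNat : ℕ → List Bool
  | 0 => [false]
  | n + 1 => true :: false :: codeNat n

/-- The code of a list of natural numbers as a bit string. -/
def codeList : List ℕ → List Bool
  | [] => [false]
  | a :: l => true :: (codeNat a ++ codeList l)

/-- The code of a pair of permutations as a bit string: the codes of the one-line notations. -/
def code (c : FPerm × FPerm) : List Bool :=
  true :: (codeList (oneLine c.1) ++ codeList (oneLine c.2))

end Pool.Agent.W_58hard_h42
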