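import Pool.Agent.W_58hard_h42.Frame

/-!
# MP_58cc3c_co, hardness: rigidity of the frame (Lemma 1)
-/

namespace Pool.Agent.W_58hard_h42

/-- The arithmetic part: a sequence with small steps which does not come back. -/
theorem FrameA_arith {N : ℕ} (hN : 3 ≤ N) (c : ℕ → ℕ)
    (hA : ∀ i, i + 1 ≤ N → c i ≤ c (i + 1) + 1 ∧ c (i + 1) ≤ c i + 1)
    (hB : ∀ i j, i + 2 ≤ j → j ≤ N → c j = c i ∨ c i + 2 ≤ c j) :
    (∀ j ≤ N, c j = c 0) ∨ ∀ j ≤ N, c j = c 0 + j := by
  have h2 : ∀ i, i + 2 ≤ N → c (i + 2) = c i + 2 ∨ (c (i + 2) = c i ∧ c (i + 1) = c i) := by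
    intro i hi
    have a1 := hA i (by omega)
    have a2 := hA (i + 1) (by omega)
    have b1 := hB i (i + 2) (by omega) hi
    rw [show i + 1 + 1 = i + 2 from rfl] at a2
    rcases Nat.lt_or_ge (i + 2) N with h3 | h3
    · have a3 := hA (i + 2) (by omega)
      have b2 := hB i (i + 3) (by omega) (by omega)
      have b3 := hB (i + 1) (i + 3) (by omega) (by omega)
      rw [show i + 2 + 1 = i + 3 from rfl] at a3
      omega
    · obtain ⟨k, rfl⟩ : ∃ k, i = k + 1 := ⟨i - 1, by omega⟩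
      have a3 := hA k (by omega)
      have b2 := hB k (k + 1 + 2) (by omega) (by omega)
      have b3 := hB k (k + 1 + 1) (by omega) (by omega)
      omega
  have h3 : ∀ j, j + 1 ≤ N → (c 1 = c 0 ∧ c j = c 0 ∧ c (j + 1) = c 0) ∨
      (c 1 = c 0 + 1 ∧ c j = c 0 + j ∧ c (j + 1) = c 0 + (j + 1)) := by
    intro j
    induction j with
    | zero =>
      intro _
      have a1 : c 0 ≤ c 1 + 1 ∧ c 1 ≤ c 0 + 1 := hA 0 (by omega)
      have b1 : c 2 = c 0 + 2 ∨ (c 2 = c 0 ∧ c 1 = c 0) := h2 0 (by omega)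
      have a2 : c 1 ≤ c 2 + 1 ∧ c 2 ≤ c 1 + 1 := hA 1 (by omega)
      show (c 1 = c 0 ∧ c 0 = c 0 ∧ c 1 = c 0) ∨ (c 1 = c 0 + 1 ∧ c 0 = c 0 + 0 ∧ c 1 = c 0 + 1)
      omega
    | succ j ih =>
      intro hj
      have i1 := ih (by omega)
      have b1 := h2 j (by omega)
      have g : j + 1 + 1 = j + 2 := rfl
      rw [g]
      rcases i1 with ⟨i1, i2, i3⟩ | ⟨i1, i2, i3⟩
      · left
        rcases b1 with b1 | b1
        · exfalso
          have a2 : c (j + 1) ≤ c (j + 2) + 1 ∧ c (j + 2) ≤ c (j + 1) + 1 := hA (j + 1) (by omega)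
          omega
        · exact ⟨i1, i3, by omega⟩
      · right
        rcases b1 with b1 | b1
        · exact ⟨i1, i3, by omega⟩
        · omega
  rcases h3 0 (by omega) with h4 | h4
  · left
    intro j hj
    rcases Nat.eq_zero_or_pos j with rfl | hj0
    · rfl
    · obtain ⟨k, rfl⟩ : ∃ k, j = k + 1 := ⟨j - 1, by omega⟩
      have := h3 k hj
      omega
  · right
    intro j hj
    rcases Nat.eq_zero_or_pos j with rfl | hj0
    · rfl
    · obtain ⟨k, rfl⟩ : ∃ k, j = k + 1 := ⟨j - 1, by omega⟩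
      have := h3 k hj
      omega

theorem FrameA_lf_asymm {u v : ℕ × ℕ} (h : lf u v) : ¬ lf v u := by
  unfold lf sx at h ⊢
  split_ifs at h ⊢ <;> omega

theorem FrameA_bl_asymm {a b : ℕ → ℕ} {u v : ℕ × ℕ} (h : bl a b u v) : ¬ bl a b v u := by
  unfold bl sy at h ⊢
  split_ifs at h ⊢ <;> omega

theorem FrameA_zero_mem {m n : ℕ} (h2m : 2 ≤ m) (h2n : 2 ≤ n) {j : ℕ} (hj : j ≤ 2 * n) :
    ((j, 0) : ℕ × ℕ) ∈ ptS m n := by
  rw [mem_ptS]
  unfold szS
  simp only
  split_ifs <;> omega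

theorem FrameA_sz_le {m n : ℕ} (h2n : 2 ≤ n) (hmn : m ≤ 2 * n) (c : ℕ) :
    szP m n c ≤ 2 * n := by
  unfold szP
  split_ifs <;> omega

/-- The cells of the images on a path. -/
theorem FrameA_path {m n : ℕ} {a b : ℕ → ℕ} (h2m : 2 ≤ m) (h2n : 2 ≤ n) (hmn : m ≤ 2 * n)
    {S : Finset (ℕ × ℕ)} (hS : S ⊆ ptP m n) (hSS : ptS m n ⊆ S) {e : ℕ × ℕ → ℕ × ℕ}
    (he : Emb a b S e) (hm : ∀ u ∈ S, e u ∈ ptP m n) {u : ℕ × ℕ} (hu : u ∈ S)
    (hu2 : u.1 ≤ 2 * n) :
    (e u).1 + 1 = u.1 + (e (1, 0)).1 ∧ 1 ≤ (e (1, 0)).1 ∧ (e (1, 0)).1 ≤ 3 := by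
  let v : ℕ → ℕ × ℕ := fun j => if j = u.1 then u else (j, 0)
  have hv1 : ∀ j, (v j).1 = j := by
    intro j
    by_cases h : j = u.1
    · simp only [v, if_pos h]
      exact h.symm
    · simp only [v, if_neg h]
  have hvS : ∀ j ≤ 2 * n, v j ∈ S := by
    intro j hj
    by_cases h : j = u.1
    · simp only [v, if_pos h]
      exact hu
    · simp only [v, if_neg h]
      exact hSS (FrameA_zero_mem h2m h2n hj)
  have hA : ∀ i, i + 1 ≤ 2 * n →
      (e (v i)).1 ≤ (e (v (i + 1))).1 + 1 ∧ (e (v (i + 1))).1 ≤ (e (v i)).1 + 1 := by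
    intro i hi
    have s1 := hvS i (by omega)
    have s2 := hvS (i + 1) hi
    have e1 := he _ s1 _ s2
    have e2 := he _ s2 _ s1
    have n1 := near (a := a) (b := b) (u := v i) (v := v (i + 1)) (by rw [hv1, hv1])
    constructor
    · by_contra hc
      have f1 := far (a := a) (b := b) (u := e (v (i + 1))) (v := e (v i)) (by omega)
      rcases n1 with n1 | n1
      · exact FrameA_lf_asymm (e1.1.1 n1.1) f1.1
      · exact FrameA_bl_asymm (e1.2.1 n1.2) f1.2
    · by_contra hc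
      have f1 := far (a := a) (b := b) (u := e (v i)) (v := e (v (i + 1))) (by omega)
      rcases n1 with n1 | n1
      · exact FrameA_bl_asymm (e2.2.1 n1.2) f1.2
      · exact FrameA_lf_asymm (e2.1.1 n1.1) f1.1
  have hB : ∀ i j, i + 2 ≤ j → j ≤ 2 * n →
      (e (v j)).1 = (e (v i)).1 ∨ (e (v i)).1 + 2 ≤ (e (v j)).1 := by
    intro i j hij hj
    have s1 := hvS i (by omega)
    have s2 := hvS j hj
    have e1 := he _ s1 _ s2
    have f1 := far (a := a) (b := b) (u := v i) (v := v j) (by rw [hv1, hv1]; exact hij)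
    have g1 := e1.1.1 f1.1
    have g2 := e1.2.1 f1.2
    by_contra hc
    have hc3 : (e (v j)).1 = (e (v i)).1 + 1 ∨ (e (v i)).1 = (e (v j)).1 + 1 ∨
        (e (v j)).1 + 2 ≤ (e (v i)).1 := by omega
    rcases hc3 with h | h | h
    · rcases near (a := a) (b := b) h with n1 | n1
      · exact FrameA_bl_asymm g2 n1.2
      · exact FrameA_lf_asymm g1 n1.1
    · rcases near (a := a) (b := b) h with n1 | n1
      · exact FrameA_lf_asymm g1 n1.1
      · exact FrameA_bl_asymm g2 n1.2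
    · exact FrameA_lf_asymm g1 (far (a := a) (b := b) h).1
  have hP : ∀ j ≤ 2 * n, (e (v j)).2 < szP m n (e (v j)).1 :=
    fun j hj => (mem_ptP _).1 (hm _ (hvS j hj))
  rcases FrameA_arith (N := 2 * n) (by omega) (fun j => (e (v j)).1) hA hB with h | h
  · exfalso
    have hlt : ∀ j ≤ 2 * n, (e (v j)).2 < 2 * n :=
      fun j hj => lt_of_lt_of_le (hP j hj) (FrameA_sz_le h2n hmn _)
    have hcard : (Finset.range (2 * n)).card < (Finset.range (2 * n + 1)).card := by
      rw [Finset.card_range, Finset.card_range]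
      omega
    obtain ⟨i, hi, j, hj, hij, hee⟩ := Finset.exists_ne_map_eq_of_card_lt_of_maps_to hcard
      (f := fun j => (e (v j)).2) (by
        intro j hj
        rw [Finset.mem_coe, Finset.mem_range] at hj ⊢
        exact hlt j (by omega))
    rw [Finset.mem_range] at hi hj
    have h1 := h i (by omega)
    have h2 := h j (by omega)
    have h3 : e (v i) = e (v j) := Prod.ext (h1.trans h2.symm) hee
    have h4 := he.inj hS (hvS i (by omega)) (hvS j (by omega)) h3
    apply hij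
    rw [← hv1 i, ← hv1 j, h4]
  · have hu1 : v u.1 = u := by
      simp only [v, if_true]
    have h10 : v 1 = (1, 0) := by
      by_cases h1 : 1 = u.1
      · simp only [v, if_pos h1]
        have h2 := (mem_ptP u).1 (hS hu)
        rw [← h1] at h2
        have h3 : u.2 = 0 := by
          unfold szP at h2
          split_ifs at h2 <;> omega
        exact Prod.ext h1.symm h3
      · simp only [v, if_neg h1]
    have h1 := h u.1 hu2
    have h2 := h 1 (by omega)
    have h3 := h (2 * n) le_rfl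
    have h4 := hP (2 * n) le_rfl
    simp only [hu1, h10] at h1 h2 h3
    have h5 : (e (v (2 * n))).1 ≤ 2 * n + 2 := by
      unfold szP at h4
      split_ifs at h4 <;> omega
    omega

/-- An embedding of a set `S` of points which contains `σ` into `π` moves all cells `≤ 2 n` by `0`
or by `2`.

Proof. For every point `u ∈ S` with `u.1 ≤ 2 n` there is a path `v 0, …, v (2 n)`, `v j` in the
cell `j`, `v (u.1) = u`, the others `(j, 0) ∈ σ`. Let `c j` be the cell of `e (v j)`. By `far` and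
`near` (used in the source and, contrapositively, in the target): `|c i - c (i + 1)| ≤ 1`, and
`c i ≤ c j`, `c j ≠ c i + 1` for `i + 2 ≤ j`. So `c (i + 2) = c i + 2` (and `c (i + 1) = c i + 1`)
or `c (i + 2) = c i`; in the second case, using `i + 3` or `i - 1`, `c (i + 1) = c i` and then all
`c j` are equal; impossible, because the `2 n + 1` different points `e (v j)` do not fit in one
cell. So `c j = c 0 + j`, `c 0 ≤ 2`, and `c 0` is independent of the path (`c 1` is the cell of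
`e (1, 0)`). `c 0 = 1` is impossible: `(0, 0)` and `(0, 1)` would both go to `(1, 0)`. -/
theorem rigid {m n : ℕ} {a b : ℕ → ℕ} (h2m : 2 ≤ m) (h2n : 2 ≤ n) (hmn : m ≤ 2 * n)
    {S : Finset (ℕ × ℕ)} (hS : S ⊆ ptP m n) (hSS : ptS m n ⊆ S) {e : ℕ × ℕ → ℕ × ℕ}
    (he : Emb a b S e) (hm : ∀ u ∈ S, e u ∈ ptP m n) :
    ∃ s, (s = 0 ∨ s = 2) ∧ ∀ u ∈ S, u.1 ≤ 2 * n → (e u).1 = u.1 + s := by
  have h0 : ((0, 0) : ℕ × ℕ) ∈ S := hSS (FrameA_zero_mem h2m h2n (by omega))
  have h1 : ((0, 1) : ℕ × ℕ) ∈ S := by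
    refine hSS ((mem_ptS _).2 ?_)
    show 1 < szS m n 0
    have h : szS m n 0 = m := by simp [szS]
    omega
  have p0 := FrameA_path h2m h2n hmn hS hSS he hm h0 (by simp)
  have p1 := FrameA_path h2m h2n hmn hS hSS he hm h1 (by simp)
  simp only at p0 p1
  refine ⟨(e (1, 0)).1 - 1, ?_, ?_⟩
  · have hne : (e (0, 0)).1 ≠ 1 := by
      intro hc
      have hc1 : (e (0, 1)).1 = 1 := by omega
      have q0 := (mem_ptP _).1 (hm _ h0)
      have q1 := (mem_ptP _).1 (hm _ h1)
      rw [hc] at q0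
      rw [hc1] at q1
      have r0 : (e (0, 0)).2 = 0 := by
        unfold szP at q0
        split_ifs at q0 <;> omega
      have r1 : (e (0, 1)).2 = 0 := by
        unfold szP at q1
        split_ifs at q1 <;> omega
      have h2 : e (0, 0) = e (0, 1) := Prod.ext (hc.trans hc1.symm) (r0.trans r1.symm)
      have h3 := he.inj hS h0 h1 h2
      simp at h3
    omega
  · intro u hu hu2
    have := FrameA_path h2m h2n hmn hS hSS he hm hu hu2
    omega

end Pool.Agent.W_58hard_h42
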