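import Pool.Agent.W_58hard_h42.FrameA

/-!
# MP_58cc3c_co, hardness: embeddings of type 2 (Lemma 2)
-/

namespace Pool.Agent.W_58hard_h42

/-- Lemma 2: the image of an embedding of `σ` of type 2 contains `D`. (Count: the `n + 1 - i`
points of the cell `2 i`, `i ≥ 2`, resp. `n` points for `i = 1`, go to the cell `2 i + 2`, which
has the same number of points.) -/
theorem type2_covers {m n : ℕ} {a b : ℕ → ℕ} (h2n : 2 ≤ n) {e : ℕ × ℕ → ℕ × ℕ}
    (he : Emb a b (ptS m n) e) (hm : ∀ u ∈ ptS m n, e u ∈ ptP m n)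
    (hs : ∀ u ∈ ptS m n, (e u).1 = u.1 + 2) {x : ℕ × ℕ} (hx : x ∈ ptD m n) :
    ∃ u ∈ ptS m n, e u = x := by
  classical
  rcases (mem_ptD (by omega) x).1 hx with ⟨i, h1, h2, rfl⟩ | rfl
  · -- the cell `2 (i - 1)` goes onto the cell `2 i`
    have hsz : ∀ p, ((2 * (i - 1), p) : ℕ × ℕ) ∈ ptS m n ↔ p < n + 2 - i := by
      intro p
      rw [mem_ptS]
      unfold szS
      simp only
      split_ifs <;> omega
    have hcell : ∀ p < n + 2 - i, (e (2 * (i - 1), p)).1 = 2 * i := by
      intro p hp
      have h := hs _ ((hsz p).2 hp)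
      simp only at h
      omega
    have hlt : ∀ p < n + 2 - i, (e (2 * (i - 1), p)).2 < n + 2 - i := by
      intro p hp
      have h := (mem_ptP _).1 (hm _ ((hsz p).2 hp))
      rw [hcell p hp] at h
      unfold szP at h
      split_ifs at h <;> omega
    have hsurj := Finset.surjOn_of_injOn_of_card_le
      (s := Finset.range (n + 2 - i)) (t := Finset.range (n + 2 - i))
      (fun p => (e (2 * (i - 1), p)).2)
      (by
        intro p hp
        rw [Finset.mem_coe, Finset.mem_range] at hp ⊢
        exact hlt p hp)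
      (by
        intro p hp q hq hpq
        rw [Finset.mem_coe, Finset.mem_range] at hp hq
        have h3 : e (2 * (i - 1), p) = e (2 * (i - 1), q) :=
          Prod.ext ((hcell p hp).trans (hcell q hq).symm) hpq
        have h4 := he.inj ptS_sub ((hsz p).2 hp) ((hsz q).2 hq) h3
        exact congrArg Prod.snd h4)
      le_rfl
    have hmem : n + 1 - i ∈ ((Finset.range (n + 2 - i) : Finset ℕ) : Set ℕ) := by
      rw [Finset.mem_coe, Finset.mem_range]
      omega
    obtain ⟨p, hp, hpe⟩ := hsurj hmem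
    rw [Finset.mem_coe, Finset.mem_range] at hp
    exact ⟨(2 * (i - 1), p), (hsz p).2 hp, Prod.ext (hcell p hp) hpe⟩
  · have hu : ((2 * n - 1, 0) : ℕ × ℕ) ∈ ptS m n := by
      rw [mem_ptS]
      unfold szS
      simp only
      split_ifs <;> omega
    have h1 := hs _ hu
    have h2 := (mem_ptP _).1 (hm _ hu)
    simp only at h1
    have h3 : (e (2 * n - 1, 0)).1 = 2 * n + 1 := by omega
    rw [h3] at h2
    have h4 : (e (2 * n - 1, 0)).2 = 0 := by
      unfold szP at h2
      split_ifs at h2 <;> omega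
    exact ⟨_, hu, Prod.ext h3 h4⟩

/-- An embedding of `σ` of type 2 gives an embedding of `α` in `β`. -/
theorem type2_sub {m n : ℕ} {a b : ℕ → ℕ} (h2n : 2 ≤ n) {e : ℕ × ℕ → ℕ × ℕ}
    (he : Emb a b (ptS m n) e) (hm : ∀ u ∈ ptS m n, e u ∈ ptP m n)
    (hs : ∀ u ∈ ptS m n, (e u).1 = u.1 + 2) : Sub m n a b := by
  have hmem : ∀ i < m, ((0, i) : ℕ × ℕ) ∈ ptS m n := by
    intro i hi
    rw [mem_ptS]
    unfold szS
    simpa using hi
  have hc : ∀ i < m, (e (0, i)).1 = 2 := by
    intro i hi
    have h := hs _ (hmem i hi)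
    simpa using h
  refine ⟨fun i => (e (0, i)).2, ?_, ?_⟩
  · intro i hi
    have h := (mem_ptP _).1 (hm _ (hmem i hi))
    rw [hc i hi] at h
    unfold szP at h
    simpa using h
  · intro i hi j hj
    have h := he _ (hmem i hi) _ (hmem j hj)
    have h1 := hc i hi
    have h2 := hc j hj
    simp only [lf, bl, h1, h2] at h
    refine ⟨?_, ?_⟩
    · have := h.1
      simp only [lt_self_iff_false, false_or, true_and] at this
      exact this
    · have := h.2
      simp only [lt_self_iff_false, false_or, true_and, ne_eq, not_true_eq_false, false_and,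
        or_false, OfNat.ofNat_ne_zero, not_false_eq_true] at this
      exact this

/-- An embedding of `α` in `β` gives an embedding of `σ` of type 2: `(0, p)` goes to `(2, f p)`
and `(c, p)` to `(c + 2, p)` for `c ≥ 1`. -/
theorem exists_type2 {m n : ℕ} {a b : ℕ → ℕ} (h2n : 2 ≤ n) (h : Sub m n a b) :
    ∃ e : ℕ × ℕ → ℕ × ℕ, Emb a b (ptS m n) e ∧ (∀ u ∈ ptS m n, e u ∈ ptP m n) ∧
      ∀ u ∈ ptS m n, (e u).1 = u.1 + 2 := by
  obtain ⟨f, hf, hfe⟩ := h
  have hz : ∀ p : ℕ, ((0, p) : ℕ × ℕ) ∈ ptS m n → p < m := by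
    intro p hp
    rw [mem_ptS] at hp
    unfold szS at hp
    simpa using hp
  let e : ℕ × ℕ → ℕ × ℕ := fun u => if u.1 = 0 then (2, f u.2) else (u.1 + 2, u.2)
  have e0 : ∀ p, e (0, p) = (2, f p) := fun p => rfl
  have e1 : ∀ c p, c ≠ 0 → e (c, p) = (c + 2, p) := fun c p hc => if_neg hc
  refine ⟨e, ?_, ?_, ?_⟩
  · rintro ⟨c, p⟩ hu ⟨c', p'⟩ hv
    by_cases h0 : c = 0
    · subst h0
      have hp := hz p hu
      by_cases h0' : c' = 0
      · subst h0'
        have hp' := hz p' hv
        have h1 := hfe p hp p' hp'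
        rw [e0, e0]
        simp only [lf, bl]
        constructor
        · simp only [lt_self_iff_false, false_or, true_and]
          exact h1.1
        · simp only [lt_self_iff_false, false_or, true_and, ne_eq, not_true_eq_false, false_and,
            or_false, OfNat.ofNat_ne_zero, not_false_eq_true]
          exact h1.2
      · rw [e0, e1 c' p' h0']
        simp only [lf, bl, sx, sy]
        split_ifs <;> omega
    · by_cases h0' : c' = 0
      · subst h0'
        rw [e0, e1 c p h0]
        simp only [lf, bl, sx, sy]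
        split_ifs <;> omega
      · have g0 : 1 ≤ c := Nat.one_le_iff_ne_zero.2 h0
        have g1 : 1 ≤ c' := Nat.one_le_iff_ne_zero.2 h0'
        clear h0 h0'
        rw [e1 c p (by omega), e1 c' p' (by omega)]
        simp only [lf, bl, sx, sy]
        split_ifs <;> simp only [false_and, false_or] <;> omega
  · rintro ⟨c, p⟩ hu
    by_cases h0 : c = 0
    · subst h0
      have hp := hf p (hz p hu)
      rw [e0, mem_ptP]
      unfold szP
      simpa using hp
    · have g0 : 1 ≤ c := Nat.one_le_iff_ne_zero.2 h0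
      rw [e1 c p h0]
      rw [mem_ptS] at hu
      rw [mem_ptP]
      clear h0
      unfold szS at hu
      unfold szP
      simp only at hu ⊢
      split_ifs at hu ⊢ <;> first | omega | contradiction
  · rintro ⟨c, p⟩ hu
    by_cases h0 : c = 0
    · subst h0
      rw [e0]
    · rw [e1 c p h0]

end Pool.Agent.W_58hard_h42
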