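import Pool.Agent.W_58hard_h42.FrameA

/-!
# MP_58cc3c_co, hardness: sets of points which contain an embedding of type 0 (Lemma 4)
-/

namespace Pool.Agent.W_58hard_h42

private theorem szS_le {m n c : ℕ} : szS m n c ≤ szP m n c := by
  unfold szP szS
  split_ifs <;> omega

private theorem szP_le {m n c : ℕ} : szP m n c ≤ szS m n c + 1 := by
  unfold szP szS
  split_ifs <;> omega

open Classical in
private theorem fib_card {m n : ℕ} {S G : Finset (ℕ × ℕ)} (hS : S ⊆ ptP m n)
    (hG : ∀ u, u ∈ G ↔ u ∈ ptP m n ∧ (u ∈ ptS m n ∨ ∀ p < szP m n u.1, (u.1, p) ∈ S)) (c : ℕ) :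
    (S.filter fun u => u.1 = c).card ≤ (G.filter fun u => u.1 = c).card := by
  by_cases hf : ∀ p < szP m n c, (c, p) ∈ S
  · refine Finset.card_le_card ?_
    intro u hu
    rw [Finset.mem_filter] at hu ⊢
    refine ⟨(hG u).2 ⟨hS hu.1, Or.inr ?_⟩, hu.2⟩
    rw [hu.2]
    exact hf
  · push Not at hf
    obtain ⟨p0, hp0, hp1⟩ := hf
    have h1 : (S.filter fun u => u.1 = c) ⊆
        ((Finset.range (szP m n c)).erase p0).image fun p => (c, p) := by
      intro u hu
      rw [Finset.mem_filter] at hu
      rw [Finset.mem_image]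
      refine ⟨u.2, ?_, ?_⟩
      · rw [Finset.mem_erase, Finset.mem_range]
        have h2 := (mem_ptP u).1 (hS hu.1)
        rw [hu.2] at h2
        refine ⟨?_, h2⟩
        intro h3
        apply hp1
        have h4 : u = (c, p0) := Prod.ext hu.2 h3
        rw [← h4]
        exact hu.1
      · exact Prod.ext hu.2.symm rfl
    have h2 : ((Finset.range (szS m n c)).image fun p => ((c, p) : ℕ × ℕ)) ⊆
        G.filter fun u => u.1 = c := by
      intro u hu
      rw [Finset.mem_image] at hu
      obtain ⟨p, hp, rfl⟩ := hu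
      rw [Finset.mem_range] at hp
      rw [Finset.mem_filter]
      have h3 : ((c, p) : ℕ × ℕ) ∈ ptS m n := (mem_ptS _).2 hp
      exact ⟨(hG _).2 ⟨ptS_sub h3, Or.inl h3⟩, rfl⟩
    have h3 := Finset.card_le_card h1
    have h4 := Finset.card_le_card h2
    have h5 : (((Finset.range (szP m n c)).erase p0).image fun p => ((c, p) : ℕ × ℕ)).card ≤
        szP m n c - 1 := by
      refine Finset.card_image_le.trans ?_
      rw [Finset.card_erase_of_mem (Finset.mem_range.2 hp0), Finset.card_range]
    have h6 : ((Finset.range (szS m n c)).image fun p => ((c, p) : ℕ × ℕ)).card = szS m n c := by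
      rw [Finset.card_image_of_injective, Finset.card_range]
      intro x y hxy
      exact (Prod.mk.inj hxy).2
    have h7 := szP_le (m := m) (n := n) (c := c)
    omega

/-- Lemma 4. If an embedding of `σ` of type 0 has its image in `S`, then `S` gives the same
permutation as a set `G` between `σ` and `π`.

Proof. `G = σ ∪ {x ∈ D | the cell of x is contained in S}` (`D` has one point in each of the cells
`4, 6, …, 2 n, 2 n + 1, 2 n + 2`). Let `h u = u` if the cell of `u` (in `π`) is contained in `S`,
and `h u = e u` otherwise. `h` is an embedding of `G` in `S` (for points of different cells use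
`cell_only`) and `|S| ≤ |G|`, since `h` is onto `S`: if a cell is not contained in `S`, then the
part of `S` in it has at most as many points as the cell of `σ`, and `e` is injective. Now
`std_le_iff` and `eq_of_patLE`. -/
theorem lem4 {m n : ℕ} {a b : ℕ → ℕ} (ha : InjB m a) (hb : InjB n b) (h2n : 2 ≤ n)
    {S : Finset (ℕ × ℕ)} (hS : S ⊆ ptP m n) {e : ℕ × ℕ → ℕ × ℕ}
    (he : Emb a b (ptS m n) e) (hm : ∀ u ∈ ptS m n, e u ∈ S)
    (h0 : ∀ u ∈ ptS m n, (e u).1 = u.1) :
    ∃ (G : Finset (ℕ × ℕ)) (_ : ptS m n ⊆ G) (hG : G ⊆ ptP m n), pm ha hb hS = pm ha hb hG := by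
  classical
  let full : ℕ → Prop := fun c => ∀ p < szP m n c, (c, p) ∈ S
  let G : Finset (ℕ × ℕ) := (ptP m n).filter fun u => u ∈ ptS m n ∨ full u.1
  have hGm : ∀ u, u ∈ G ↔ u ∈ ptP m n ∧ (u ∈ ptS m n ∨ ∀ p < szP m n u.1, (u.1, p) ∈ S) :=
    fun u => Finset.mem_filter
  have hG : G ⊆ ptP m n := Finset.filter_subset _ _
  have hSG : ptS m n ⊆ G := fun u hu => (hGm u).2 ⟨ptS_sub hu, Or.inl hu⟩
  have hcard : S.card ≤ G.card := by
    have e1 : ∀ T : Finset (ℕ × ℕ), T ⊆ ptP m n →
        T.card = ∑ c ∈ Finset.range (2 * n + 3), (T.filter fun u => u.1 = c).card := by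
      intro T hT
      refine Finset.card_eq_sum_card_fiberwise ?_
      intro u hu
      have h1 := hT hu
      unfold ptP at h1
      rw [Finset.mem_filter, Finset.mem_product] at h1
      exact h1.1.1
    rw [e1 S hS, e1 G hG]
    exact Finset.sum_le_sum fun c _ => fib_card hS hGm c
  let h : ℕ × ℕ → ℕ × ℕ := fun u => if full u.1 then u else e u
  have hh1 : ∀ u ∈ G, h u ∈ S := by
    intro u hu
    have h1 := (hGm u).1 hu
    by_cases hf : full u.1
    · simp only [h, if_pos hf]
      have h2 := hf u.2 ((mem_ptP u).1 h1.1)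
      exact h2
    · simp only [h, if_neg hf]
      rcases h1.2 with h2 | h2
      · exact hm u h2
      · exact absurd h2 hf
  have hh2 : ∀ u ∈ G, (h u).1 = u.1 := by
    intro u hu
    have h1 := (hGm u).1 hu
    by_cases hf : full u.1
    · simp only [h, if_pos hf]
    · simp only [h, if_neg hf]
      rcases h1.2 with h2 | h2
      · exact h0 u h2
      · exact absurd h2 hf
  have hle : Pool.Agent.W_58cc_h2.PatLE (pm ha hb hG) (pm ha hb hS) := by
    unfold pm
    rw [std_le_iff]
    refine ⟨h, hh1, ?_⟩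
    intro u hu v hv
    by_cases huv : u.1 = v.1
    · have h1 := (hGm u).1 hu
      have h2 := (hGm v).1 hv
      by_cases hf : full u.1
      · have hf' : full v.1 := huv ▸ hf
        simp [h, if_pos hf, if_pos hf']
      · have hf' : ¬ full v.1 := huv ▸ hf
        simp only [h, if_neg hf, if_neg hf']
        have h3 : u ∈ ptS m n := h1.2.resolve_right hf
        have h4 : v ∈ ptS m n := h2.2.resolve_right hf'
        exact he u h3 v h4
    · exact cell_only huv (hh2 u hu) (hh2 v hv)
  exact ⟨G, hSG, hG, (eq_of_patLE hle hcard).symm⟩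

end Pool.Agent.W_58hard_h42
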