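import Pool.Agent.W_58hard_h42.FrameA

/-!
# MP_58cc3c_co, hardness: embeddings of `σ` and one more point (Lemma 3)
-/

namespace Pool.Agent.W_58hard_h42

theorem fl_mono {a b : ℕ → ℕ} {u v : ℕ × ℕ} (h1 : lf u v) (h2 : bl a b u v) :
    u.1 = v.1 ∨ u.1 + 2 ≤ v.1 := by
  unfold lf sx at h1
  unfold bl sy at h2
  split_ifs at h1 h2 <;> omega

theorem fl_inv {a b : ℕ → ℕ} {u v : ℕ × ℕ} (h1 : lf u v) (h2 : bl a b v u) :
    u.1 ≤ v.1 + 1 ∧ v.1 ≤ u.1 + 1 := by
  unfold lf sx at h1
  unfold bl sy at h2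
  split_ifs at h1 h2 <;> omega

/-- Lemma 3: an embedding of `σ` together with a point `x` of `D` has type 0 on `σ` and its image
contains `x`.

Proof. `rigid`. If `x = (2 i, n + 1 - i)`, `2 ≤ i ≤ n`: type 2 is impossible, since the `n + 2 - i`
points of the cell `2 i` do not fit in the cell `2 i + 2`; for type 0 they fill the cell `2 i`.
If `x = (2 n + 1, 0)`: `x` is inverted with `(2 n, 0)` and after `(2 n - 1, 0)` in both orders;
`e x` is different from `e (2 n - 1, 0)`, which is the only point of its cell; so the cell of `e x`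
is that of `e (2 n, 0)` plus 1. If `x = (2 n + 2, 0)`: `x` is after `(2 n, 0)` and `(2 n - 1, 0)` in
both orders, so the cell of `e x` is at least that of `e (2 n, 0)` plus 2. -/
theorem lem3 {m n : ℕ} {a b : ℕ → ℕ} (h2m : 2 ≤ m) (h2n : 2 ≤ n) (hmn : m ≤ 2 * n)
    {x : ℕ × ℕ} (hx : x ∈ ptD m n) {e : ℕ × ℕ → ℕ × ℕ} (he : Emb a b (insert x (ptS m n)) e)
    (hm : ∀ u ∈ insert x (ptS m n), e u ∈ ptP m n) :
    (∀ u ∈ ptS m n, (e u).1 = u.1) ∧ ∃ u ∈ insert x (ptS m n), e u = x := by
  rw [mem_ptD (by omega)] at hx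
  have hS : insert x (ptS m n) ⊆ ptP m n := by
    intro u hu
    rcases Finset.mem_insert.1 hu with rfl | hu
    · exact (Finset.mem_sdiff.1 ((mem_ptD (by omega) _).2 hx)).1
    · exact ptS_sub hu
  obtain ⟨s, hs, hr⟩ := rigid h2m h2n hmn hS (Finset.subset_insert _ _) he hm
  have hc : ∀ u ∈ ptS m n, u.1 ≤ 2 * n := by
    intro u hu
    rw [mem_ptS] at hu
    unfold szS at hu
    split_ifs at hu <;> omega
  have hin : ∀ u ∈ ptS m n, u ∈ insert x (ptS m n) := fun u hu => Finset.mem_insert_of_mem hu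
  have hxx : x ∈ insert x (ptS m n) := Finset.mem_insert_self _ _
  have hsx : s = 0 → (∃ u ∈ insert x (ptS m n), e u = x) →
      (∀ u ∈ ptS m n, (e u).1 = u.1) ∧ ∃ u ∈ insert x (ptS m n), e u = x := by
    intro h0 h1
    refine ⟨fun u hu => ?_, h1⟩
    have h2 := hr u (hin u hu) (hc u hu)
    omega
  have huS : ((2 * n, 0) : ℕ × ℕ) ∈ ptS m n := by
    rw [mem_ptS]
    unfold szS
    simp only
    split_ifs <;> omega
  have hvS : ((2 * n - 1, 0) : ℕ × ℕ) ∈ ptS m n := by
    rw [mem_ptS]
    unfold szS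
    simp only
    split_ifs <;> omega
  have heu := hr _ (hin _ huS) (hc _ huS)
  have hev := hr _ (hin _ hvS) (hc _ hvS)
  have hPu := hm _ (hin _ huS)
  have hPv := hm _ (hin _ hvS)
  have hPx := hm _ hxx
  simp only at heu hev
  have hone : ∀ w w' : ℕ × ℕ, w ∈ ptP m n → w' ∈ ptP m n → w.1 = w'.1 →
      (w.1 % 2 = 1 ∨ w.1 = 2 * n + 2) → w = w' := by
    intro w w' hw hw' h1 h2
    rw [mem_ptP] at hw hw'
    unfold szP at hw hw'
    refine Prod.ext h1 ?_
    split_ifs at hw hw' <;> omega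
  have hle : ∀ w ∈ ptP m n, w.1 ≤ 2 * n + 2 := by
    intro w hw
    rw [mem_ptP] at hw
    unfold szP at hw
    split_ifs at hw <;> omega
  have hneu : x ≠ (2 * n, 0) → e x ≠ e (2 * n, 0) := fun h h' =>
    h (he.inj hS hxx (hin _ huS) h')
  have hnev : x ≠ (2 * n - 1, 0) → e x ≠ e (2 * n - 1, 0) := fun h h' =>
    h (he.inj hS hxx (hin _ hvS) h')
  have hx3 : x = (2 * n + 2, 0) ∨ (∃ i, 2 ≤ i ∧ i ≤ n ∧ x = (2 * i, n + 1 - i)) ∨
      x = (2 * n + 1, 0) := by
    rcases hx with ⟨i, hi, hi', h⟩ | h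
    · by_cases hin1 : i = n + 1
      · left
        rw [h]
        refine Prod.ext ?_ ?_ <;> simp only <;> omega
      · right
        left
        exact ⟨i, hi, by omega, h⟩
    · right
      right
      exact h
  clear hx
  rcases hx3 with rfl | ⟨i, hi, hi', rfl⟩ | rfl
  · -- the last block
    · have _h0 := huS
      have hne1 := hneu (by intro h; rw [Prod.mk.injEq] at h; omega)
      have hne2 := hnev (by intro h; rw [Prod.mk.injEq] at h; omega)
      obtain ⟨h1, h2⟩ := far (a := a) (b := b)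
        (show ((2 * n, 0) : ℕ × ℕ).1 + 2 ≤ ((2 * n + 2, 0) : ℕ × ℕ).1 by simp)
      obtain ⟨h3, h4⟩ := far (a := a) (b := b)
        (show ((2 * n - 1, 0) : ℕ × ℕ).1 + 2 ≤ ((2 * n + 2, 0) : ℕ × ℕ).1 by simp only; omega)
      have h5 := fl_mono ((he _ (hin _ huS) _ hxx).1.1 h1) ((he _ (hin _ huS) _ hxx).2.1 h2)
      have h6 := fl_mono ((he _ (hin _ hvS) _ hxx).1.1 h3) ((he _ (hin _ hvS) _ hxx).2.1 h4)
      have h7 := hle _ hPx
      rcases hs with hs | hs
      · refine hsx hs ⟨_, hxx, ?_⟩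
        have h8 : (e (2 * n + 2, 0)).1 = 2 * n + 2 := by
          omega
        refine hone _ _ hPx (hS hxx) h8 (Or.inr h8)
      · exfalso
        have h8 : (e (2 * n + 2, 0)).1 = 2 * n + 2 := by
          omega
        exact hne1 (hone _ _ hPx hPu (by omega) (Or.inr h8))
  · -- a block
    · have hmem : ∀ p < n + 2 - i, ((2 * i, p) : ℕ × ℕ) ∈
          insert ((2 * i, n + 1 - i) : ℕ × ℕ) (ptS m n) := by
        intro p hp
        by_cases hpi : p = n + 1 - i
        · rw [hpi]
          exact hxx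
        · refine hin _ ?_
          rw [mem_ptS]
          unfold szS
          simp only
          split_ifs <;> omega
      have hcell : ∀ p < n + 2 - i, (e (2 * i, p)).1 = 2 * i + s := by
        intro p hp
        exact hr _ (hmem p hp) (by simp only; omega)
      have hinj : Set.InjOn (fun p => (e (2 * i, p)).2) (Finset.range (n + 2 - i)) := by
        intro p hp q hq hpq
        rw [Finset.mem_coe, Finset.mem_range] at hp hq
        have h1 : ((2 * i, p) : ℕ × ℕ) = (2 * i, q) :=
          he.inj hS (hmem p hp) (hmem q hq)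
            (Prod.ext ((hcell p hp).trans (hcell q hq).symm) hpq)
        rw [Prod.mk.injEq] at h1
        exact h1.2
      have hsz : ∀ p < n + 2 - i, (e (2 * i, p)).2 < n + 2 - i - s / 2 := by
        intro p hp
        have h1 := hm _ (hmem p hp)
        rw [mem_ptP, hcell p hp] at h1
        have h2 : szP m n (2 * i + s) = n + 2 - i - s / 2 := by
          unfold szP
          rw [if_neg (by omega), if_neg (by omega), if_neg (by omega)]
          omega
        rw [h2] at h1
        exact h1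
      rcases hs with hs | hs
      · refine hsx hs ?_
        have h1 := Finset.surjOn_of_injOn_of_card_le (s := Finset.range (n + 2 - i))
          (t := Finset.range (n + 2 - i)) (fun p => (e (2 * i, p)).2) (by
            intro p hp
            rw [Finset.mem_coe, Finset.mem_range] at hp ⊢
            have h2 := hsz p hp
            simp only
            omega) hinj le_rfl
        obtain ⟨p, hp, hpe⟩ := h1 (show n + 1 - i ∈ ((Finset.range (n + 2 - i) : Finset ℕ) :
          Set ℕ) by
            rw [Finset.mem_coe, Finset.mem_range]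
            omega)
        rw [Finset.mem_coe, Finset.mem_range] at hp
        refine ⟨(2 * i, p), hmem p hp, Prod.ext ?_ hpe⟩
        have h2 := hcell p hp
        simp only
        omega
      · exfalso
        have h1 := Finset.card_le_card_of_injOn (s := Finset.range (n + 2 - i))
          (t := Finset.range (n + 1 - i)) (fun p => (e (2 * i, p)).2) (by
            intro p hp
            rw [Finset.mem_coe, Finset.mem_range] at hp ⊢
            have h2 := hsz p hp
            simp only
            omega) hinj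
        rw [Finset.card_range, Finset.card_range] at h1
        omega
  · -- the last linker
    have hne1 := hneu (by intro h; rw [Prod.mk.injEq] at h; omega)
    have hne2 := hnev (by intro h; rw [Prod.mk.injEq] at h; omega)
    have h1 : (lf (2 * n, 0) (2 * n + 1, 0) ∧ bl a b (2 * n + 1, 0) (2 * n, 0)) ∨
        (lf (2 * n + 1, 0) (2 * n, 0) ∧ bl a b (2 * n, 0) (2 * n + 1, 0)) :=
      near (a := a) (b := b) (by simp)
    obtain ⟨h3, h4⟩ := far (a := a) (b := b)
      (show ((2 * n - 1, 0) : ℕ × ℕ).1 + 2 ≤ ((2 * n + 1, 0) : ℕ × ℕ).1 by simp only; omega)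
    have h6 := fl_mono ((he _ (hin _ hvS) _ hxx).1.1 h3) ((he _ (hin _ hvS) _ hxx).2.1 h4)
    have h7 := hle _ hPx
    have h5 : (e (2 * n, 0)).1 ≤ (e (2 * n + 1, 0)).1 + 1 ∧
        (e (2 * n + 1, 0)).1 ≤ (e (2 * n, 0)).1 + 1 := by
      rcases h1 with ⟨h1, h2⟩ | ⟨h1, h2⟩
      · exact fl_inv ((he _ (hin _ huS) _ hxx).1.1 h1) ((he _ hxx _ (hin _ huS)).2.1 h2)
      · exact (fl_inv ((he _ hxx _ (hin _ huS)).1.1 h1)
          ((he _ (hin _ huS) _ hxx).2.1 h2)).symm
    have h9 : (e (2 * n + 1, 0)).1 % 2 = 1 → (e (2 * n + 1, 0)).1 ≠ (e (2 * n - 1, 0)).1 :=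
      fun h h' => hne2 (hone _ _ hPx hPv h' (Or.inl h))
    have h10 : (e (2 * n + 1, 0)).1 = 2 * n + 2 → (e (2 * n + 1, 0)).1 ≠ (e (2 * n, 0)).1 :=
      fun h h' => hne1 (hone _ _ hPx hPu h' (Or.inr h))
    rcases hs with hs | hs
    · refine hsx hs ⟨_, hxx, ?_⟩
      have h8 : (e (2 * n + 1, 0)).1 = 2 * n + 1 := by
        omega
      exact hone _ _ hPx (hS hxx) h8 (Or.inl (by omega))
    · exfalso
      omega

end Pool.Agent.W_58hard_h42
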