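import Pool.Agent.W_58hard_h42.Std
import Pool.Agent.W_58cc_h2.AbsB
import Pool.Agent.W_58cc_h2.Glue
import Pool.Agent.W_58ccg_h2.GNegA

/-!
# MP_58cc3c_co, hardness: Boolean lattices are shellable
-/

namespace Pool.Agent.W_58hard_h42

open Pool.Agent.W_58cc_h2

/-- The greatest element of a chain of finsets containing `T`. -/
theorem LatA_top {α : Type*} [DecidableEq α] (T : Finset α) (C : Finset (Finset α))
    (hC : H58.Chn (fun G H : Finset α => G ⊂ H) C) :
    ∃ z, (z = T ∨ z ∈ C) ∧ ∀ c ∈ C, c ⊆ z := by
  rcases C.eq_empty_or_nonempty with h | h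
  · exact ⟨T, Or.inl rfl, by simp [h]⟩
  · obtain ⟨z, hz, hmax⟩ := Finset.exists_max_image C Finset.card h
    refine ⟨z, Or.inr hz, fun c hc => ?_⟩
    by_cases hcz : c = z
    · rw [hcz]
    · rcases hC c hc z hz hcz with h1 | h1
      · exact h1.1
      · have h2 := Finset.card_lt_card h1
        have h3 := hmax c hc
        omega

/-- Open intervals of finsets are shellable. -/
theorem LatA_interval {α : Type*} [DecidableEq α] (m : ℕ) : ∀ T S : Finset α, T ⊆ S →
    S.card = T.card + m + 1 →
    H58.Sh (fun G H : Finset α => G ⊂ H) m {a | T ⊂ a ∧ a ⊂ S} := by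
  induction m using Nat.strong_induction_on with
  | _ m ih =>
  intro T S hTS hcard
  have hirr : ∀ a : Finset α, ¬ a ⊂ a := fun a h => (Finset.ssubset_iff_subset_ne.1 h).2 rfl
  have htr : ∀ a b c : Finset α, a ⊂ b → b ⊂ c → a ⊂ c := fun a b c h1 h2 => h1.trans h2
  rcases Nat.eq_zero_or_pos m with hm | hm
  · subst hm
    have : {a : Finset α | T ⊂ a ∧ a ⊂ S} = ∅ := by
      rw [Set.eq_empty_iff_forall_notMem]
      rintro a ⟨h1, h2⟩
      have h3 := Finset.card_lt_card h1
      have h4 := Finset.card_lt_card h2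
      omega
    rw [this]
    exact H58.sh_empty _
  · obtain ⟨i, hiS, hiT⟩ : ∃ i ∈ S, i ∉ T := by
      by_contra hcon
      push Not at hcon
      have := Finset.card_le_card hcon
      omega
    have hup : ∀ x : Finset α, T ⊆ x → x ⊆ S → i ∉ x → ∀ k, S.card = x.card + k + 1 → k ≤ m →
        H58.Sh (fun G H : Finset α => G ⊂ H) k {a | insert i x ⊆ a ∧ a ⊂ S} := by
      intro x hTx hxS hix k hk hkm
      rcases Nat.eq_zero_or_pos k with hk0 | hk0
      · subst hk0
        have : {a : Finset α | insert i x ⊆ a ∧ a ⊂ S} = ∅ := by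
          rw [Set.eq_empty_iff_forall_notMem]
          rintro a ⟨h1, h2⟩
          have h3 := Finset.card_le_card h1
          have h4 := Finset.card_lt_card h2
          rw [Finset.card_insert_of_notMem hix] at h3
          omega
        rw [this]
        exact H58.sh_empty _
      · have h1 := ih (k - 1) (by omega) (insert i x) S
          (Finset.insert_subset hiS hxS)
          (by rw [Finset.card_insert_of_notMem hix]; omega)
        have h2 := H58.sh_cone (insert i x) (fun h => hirr _ h.1) (fun q hq => Or.inl hq.1) h1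
        have h3 : insert (insert i x) {a : Finset α | insert i x ⊂ a ∧ a ⊂ S} =
            {a : Finset α | insert i x ⊆ a ∧ a ⊂ S} := by
          ext a
          constructor
          · rintro (rfl | ⟨h4, h5⟩)
            · refine ⟨subset_rfl, ?_⟩
              rw [Finset.ssubset_iff_subset_ne]
              refine ⟨Finset.insert_subset hiS hxS, fun he => ?_⟩
              have := congrArg Finset.card he
              rw [Finset.card_insert_of_notMem hix] at this
              omega
            · exact ⟨h4.1, h5⟩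
          · rintro ⟨h4, h5⟩
            by_cases he : a = insert i x
            · exact Or.inl he
            · exact Or.inr ⟨Finset.ssubset_iff_subset_ne.2 ⟨h4, fun h => he h.symm⟩, h5⟩
        rw [h3, show k - 1 + 1 = k by omega] at h2
        exact h2
    have hfin : {a : Finset α | T ⊂ a ∧ a ⊂ S}.Finite := by
      apply (S.powerset).finite_toSet.subset
      rintro a ⟨-, h2⟩
      simp only [Finset.coe_powerset, Set.mem_preimage, Set.mem_powerset_iff, Finset.coe_subset]
      exact h2.1
    have hA : H58.Sh (fun G H : Finset α => G ⊂ H) m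
        {a | insert i T ⊆ a ∧ a ⊂ S} := hup T subset_rfl hTS hiT m hcard le_rfl
    refine H58.sh_rel hirr htr (A := {a | insert i T ⊆ a ∧ a ⊂ S})
      (fun x => x.card - T.card - 1) (fun x => S.card - x.card - 1) hfin ?_ hA ?_ ?_ ?_ ?_
    · rintro a ⟨h1, h2⟩
      refine ⟨?_, h2⟩
      rw [Finset.ssubset_iff_subset_ne]
      refine ⟨(Finset.subset_insert _ _).trans h1, fun he => hiT ?_⟩
      rw [he]
      exact h1 (Finset.mem_insert_self _ _)
    · rintro x ⟨h1, h2⟩ -
      have h3 := Finset.card_lt_card h1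
      have h4 := Finset.card_lt_card h2
      omega
    · rintro x ⟨h1, h2⟩ -
      have h3 := Finset.card_lt_card h1
      have h4 := Finset.card_lt_card h2
      have h5 := ih (x.card - T.card - 1) (by omega) T x h1.1 (by omega)
      have h6 : {q : Finset α | q ∈ {a : Finset α | T ⊂ a ∧ a ⊂ S} ∧ q ⊂ x} =
          {a : Finset α | T ⊂ a ∧ a ⊂ x} := by
        ext a
        constructor
        · rintro ⟨⟨h7, -⟩, h8⟩
          exact ⟨h7, h8⟩
        · rintro ⟨h7, h8⟩
          exact ⟨⟨h7, h8.trans h2⟩, h8⟩
      rw [h6]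
      exact h5
    · rintro x ⟨h1, h2⟩ hxA
      have h3 := Finset.card_lt_card h1
      have h4 := Finset.card_lt_card h2
      have hix : i ∉ x := fun h => hxA ⟨Finset.insert_subset h h1.1, h2⟩
      have h5 := hup x h1.1 h2.1 hix (S.card - x.card - 1) (by omega) (by omega)
      have h6 : {a : Finset α | a ∈ {a : Finset α | insert i T ⊆ a ∧ a ⊂ S} ∧ x ⊂ a} =
          {a : Finset α | insert i x ⊆ a ∧ a ⊂ S} := by
        ext a
        constructor
        · rintro ⟨⟨h7, h8⟩, h9⟩
          exact ⟨Finset.insert_subset (h7 (Finset.mem_insert_self _ _)) h9.1, h8⟩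
        · rintro ⟨h7, h8⟩
          refine ⟨⟨(Finset.insert_subset_insert _ h1.1).trans h7, h8⟩, ?_⟩
          rw [Finset.ssubset_iff_subset_ne]
          refine ⟨(Finset.subset_insert _ _).trans h7, fun he => hix ?_⟩
          rw [he]
          exact h7 (Finset.mem_insert_self _ _)
      rw [h6]
      exact h5
    · rintro x ⟨h1, h2⟩ hxA C1 C2 hC1 hC2
      have hix : i ∉ x := fun h => hxA ⟨Finset.insert_subset h h1.1, h2⟩
      obtain ⟨z, hz, hzm⟩ := LatA_top T C1 hC1.2.1
      have hzx : z ⊂ x := by
        rcases hz with rfl | hz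
        · exact h1
        · exact (hC1.1 z hz).2
      have hTz : T ⊆ z := by
        rcases hz with rfl | hz
        · exact subset_rfl
        · exact (hC1.1 z hz).1.1.1
      have hiz : i ∉ z := fun h => hix (hzx.1 h)
      refine ⟨insert i z, ⟨Finset.insert_subset_insert _ hTz, ?_⟩, ?_, ?_⟩
      · rw [Finset.ssubset_iff_subset_ne]
        refine ⟨Finset.insert_subset hiS (hzx.1.trans h2.1), fun he => ?_⟩
        have h3 := congrArg Finset.card he
        rw [Finset.card_insert_of_notMem hiz] at h3
        have h4 := Finset.card_lt_card hzx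
        have h5 := Finset.card_lt_card h2
        omega
      · intro c hc
        show c ⊂ insert i z
        rw [Finset.ssubset_iff_subset_ne]
        refine ⟨(hzm c hc).trans (Finset.subset_insert _ _), fun he => ?_⟩
        exact hiz (hzm c hc (by rw [he]; exact Finset.mem_insert_self _ _))
      · intro c hc
        show insert i z ⊂ c
        have h3 := hC2.1 c hc
        have h4 : insert i x ⊆ c := Finset.insert_subset (h3.1.1 (Finset.mem_insert_self _ _)) h3.2.1
        rw [Finset.ssubset_iff_subset_ne]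
        refine ⟨(Finset.insert_subset_insert _ hzx.1).trans h4, fun he => ?_⟩
        have h5 := Finset.card_le_card h4
        rw [← he, Finset.card_insert_of_notMem hiz, Finset.card_insert_of_notMem hix] at h5
        have h6 := Finset.card_lt_card hzx
        omega

/-- The proper part of a Boolean lattice is shellable.

One possible proof: induction on the number of elements with `H58.sh_rel` and `H58.sh_cone`
(`W_58cc_h2/AbsB.lean`, `AbsA.lean`), for all intervals of finsets: `A` = the sets which contain a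
fixed point `i`; it is a cone over a smaller interval; for `x ∉ A` the part below `x` is a smaller
Boolean lattice, the part of `A` above `x` has the smallest element `insert i x`; `y = insert i z`
where `z` is the greatest element of the chain below `x`. Or order the maximal chains
lexicographically (`H58.sh_of_linear`). -/
theorem sh_finset (r : ℕ) : ∃ d, H58.Sh (fun G H : Finset (Fin r) => G ⊂ H) d
    {G | G ≠ ∅ ∧ G ≠ Finset.univ} := by
  rcases r with _ | r
  · refine ⟨0, ?_⟩
    have : {G : Finset (Fin 0) | G ≠ ∅ ∧ G ≠ Finset.univ} = ∅ := by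
      rw [Set.eq_empty_iff_forall_notMem]
      rintro G ⟨h1, -⟩
      exact h1 (Finset.eq_empty_of_isEmpty G)
    rw [this]
    exact H58.sh_empty _
  · refine ⟨r, ?_⟩
    have h1 := LatA_interval (α := Fin (r + 1)) r ∅ Finset.univ (Finset.subset_univ _)
      (by simp)
    have h2 : {a : Finset (Fin (r + 1)) | ∅ ⊂ a ∧ a ⊂ Finset.univ} =
        {G : Finset (Fin (r + 1)) | G ≠ ∅ ∧ G ≠ Finset.univ} := by
      ext a
      simp only [Set.mem_ofPred_eq, Finset.ssubset_iff_subset_ne, Finset.empty_subset, true_and,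
        Finset.subset_univ]
      constructor
      · rintro ⟨h3, h4⟩
        exact ⟨fun h => h3 h.symm, h4⟩
      · rintro ⟨h3, h4⟩
        exact ⟨fun h => h3 h.symm, h4⟩
    rw [h2] at h1
    exact h1

/-- Use `shellable_of_sh` (`W_58cc_h2/Bridge.lean`), `sh_iff_H58` (`Glue.lean`) and
`H58.sh_image`. -/
theorem shellable_of_isBoolean {s t : FPerm} {r : ℕ} (h : IsBoolean s t r) :
    Shellable (Delta s t) := by
  obtain ⟨Φ, hΦ, hI⟩ := h
  have hanti : ∀ x y, PatLE x y → PatLE y x → x = y := fun x y h1 h2 =>
    eq_of_patLE h1 (patLE_n h2)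
  have hinj : ∀ G H, Φ G = Φ H → G = H := by
    intro G H hGH
    apply subset_antisymm
    · rw [← hΦ, hGH]; exact patLE_refl' _
    · rw [← hΦ, hGH]; exact patLE_refl' _
  have h0 := (hI (Φ ∅)).2 ⟨∅, rfl⟩
  have h1 := (hI (Φ Finset.univ)).2 ⟨Finset.univ, rfl⟩
  have hst : PatLE s t := patLE_trans h0.1 h0.2
  have hs : Φ ∅ = s := by
    obtain ⟨G, hG⟩ := (hI s).1 ⟨patLE_refl' _, hst⟩
    refine hanti _ _ ?_ h0.1
    rw [← hG, hΦ]
    exact Finset.empty_subset _
  have ht : Φ Finset.univ = t := by
    obtain ⟨G, hG⟩ := (hI t).1 ⟨hst, patLE_refl' _⟩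
    refine hanti _ _ h1.2 ?_
    rw [← hG, hΦ]
    exact Finset.subset_univ _
  have hint : Interior s t = Φ '' {G | G ≠ ∅ ∧ G ≠ Finset.univ} := by
    ext x
    constructor
    · rintro ⟨h2, h3, h4, h5⟩
      obtain ⟨G, rfl⟩ := (hI x).1 ⟨h2, h3⟩
      refine ⟨G, ⟨fun h => h4 (by rw [h, hs]), fun h => h5 (by rw [h, ht])⟩, rfl⟩
    · rintro ⟨G, ⟨h2, h3⟩, rfl⟩
      have h4 := (hI (Φ G)).2 ⟨G, rfl⟩
      refine ⟨h4.1, h4.2, fun h => h2 (hinj _ _ (by rw [h, hs])),
        fun h => h3 (hinj _ _ (by rw [h, ht]))⟩
  obtain ⟨d, hd⟩ := sh_finset r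
  have hd2 := H58.sh_image (s := slt PatLE) Φ (fun a _ b _ hab => hinj a b hab) (by
    intro a _ b _
    unfold slt
    rw [hΦ, Finset.ssubset_iff_subset_ne]
    exact and_congr_right fun _ => ⟨fun h1 h2 => h1 (hinj _ _ h2), fun h1 h2 => h1 (by rw [h2])⟩)
    hd
  rw [← hint] at hd2
  have hD : Delta s t = chainCx PatLE (Interior s t) := rfl
  rw [hD]
  exact shellable_of_sh patLE_refl (sh_iff_H58.1 hd2)

end Pool.Agent.W_58hard_h42
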