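import Pool.Agent.W_58hard_h42.FrameB
import Pool.Agent.W_58hard_h42.FrameL
import Pool.Agent.W_58hard_h42.FrameC
import Pool.Agent.W_58hard_h42.LatA

/-!
# MP_58cc3c_co, hardness: the theorem on the frame
-/

namespace Pool.Agent.W_58hard_h42

open Pool.Agent.W_58cc_h2

theorem FrameD_le_iff {m n : ℕ} {a b : ℕ → ℕ} (ha : InjB m a) (hb : InjB n b)
    {S T : Finset (ℕ × ℕ)} (hS : S ⊆ ptP m n) (hT : T ⊆ ptP m n) :
    PatLE (pm ha hb hS) (pm ha hb hT) ↔ ∃ g : ℕ × ℕ → ℕ × ℕ, (∀ v ∈ S, g v ∈ T) ∧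
      Emb a b S g :=
  std_le_iff _ _ _ _

theorem FrameD_mono {m n : ℕ} {a b : ℕ → ℕ} (ha : InjB m a) (hb : InjB n b)
    {S T : Finset (ℕ × ℕ)} (hS : S ⊆ ptP m n) (hT : T ⊆ ptP m n) (h : S ⊆ T) :
    PatLE (pm ha hb hS) (pm ha hb hT) :=
  (FrameD_le_iff ha hb hS hT).2 ⟨id, fun _ hv => h hv, fun _ _ _ _ => ⟨Iff.rfl, Iff.rfl⟩⟩

theorem FrameD_sub {m n : ℕ} {a b : ℕ → ℕ} (ha : InjB m a) (hb : InjB n b)
    {S : Finset (ℕ × ℕ)} (hS : S ⊆ ptP m n) {t : FPerm} (ht : PatLE t (pm ha hb hS)) :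
    ∃ (T : Finset (ℕ × ℕ)) (_ : T ⊆ S) (hT : T ⊆ ptP m n), t = pm ha hb hT := by
  obtain ⟨T, hT, h⟩ := exists_sub _ _ ht
  exact ⟨T, hT, hT.trans hS, h⟩

theorem FrameD_n {m n : ℕ} {a b : ℕ → ℕ} (ha : InjB m a) (hb : InjB n b)
    {S : Finset (ℕ × ℕ)} (hS : S ⊆ ptP m n) : (pm ha hb hS).n = S.card := rfl

theorem FrameD_cell {m n : ℕ} (h2n : 2 ≤ n) {u : ℕ × ℕ} (hu : u ∈ ptS m n) : u.1 ≤ 2 * n := by
  rw [mem_ptS] at hu
  unfold szS at hu
  split_ifs at hu <;> omega

theorem FrameD_card {m n : ℕ} (hn : 1 ≤ n) : (ptP m n).card = (ptS m n).card + (n + 1) := by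
  have h1 := Finset.card_sdiff_add_card_eq_card (ptS_sub (m := m) (n := n))
  have h2 : (ptP m n \ ptS m n).card = n + 1 := card_ptD hn
  omega

/-- A point of `G` outside of `σ`. -/
theorem FrameD_pt {m n : ℕ} {G : Finset (ℕ × ℕ)} (hG : G ⊆ ptP m n) {x : ℕ × ℕ} (hx : x ∈ G)
    (hxS : x ∉ ptS m n) : x ∈ ptD m n :=
  Finset.mem_sdiff.2 ⟨hG hx, hxS⟩

section

variable {m n : ℕ} {a b : ℕ → ℕ} (ha : InjB m a) (hb : InjB n b) (h2m : 2 ≤ m) (h2n : 2 ≤ n)
  (hmn : m ≤ 2 * n)

include h2m h2n hmn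

theorem FrameD_ord {G H : Finset (ℕ × ℕ)} (hG : G ⊆ ptP m n) (hH : H ⊆ ptP m n)
    (hSG : ptS m n ⊆ G) (hSH : ptS m n ⊆ H) :
    PatLE (pm ha hb hG) (pm ha hb hH) ↔ G ⊆ H := by
  refine ⟨fun h x hx => ?_, FrameD_mono ha hb hG hH⟩
  by_cases hxS : x ∈ ptS m n
  · exact hSH hxS
  · obtain ⟨g, hg, he⟩ := (FrameD_le_iff ha hb hG hH).1 h
    have hsub : insert x (ptS m n) ⊆ G := Finset.insert_subset hx hSG
    obtain ⟨-, u, hu, hux⟩ := lem3 h2m h2n hmn (FrameD_pt hG hx hxS) (he.mono hsub)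
      (fun u hu => hH (hg u (hsub hu)))
    rw [← hux]
    exact hg u (hsub hu)

/-- An embedding of `σ` has type 0 or 2. -/
theorem FrameD_type {e : ℕ × ℕ → ℕ × ℕ} (he : Emb a b (ptS m n) e)
    (hm : ∀ u ∈ ptS m n, e u ∈ ptP m n) :
    (∀ u ∈ ptS m n, (e u).1 = u.1) ∨ ∀ u ∈ ptS m n, (e u).1 = u.1 + 2 := by
  obtain ⟨s, hs, hr⟩ := rigid h2m h2n hmn ptS_sub (Finset.Subset.refl _) he hm
  rcases hs with rfl | rfl
  · exact Or.inl fun u hu => hr u hu (FrameD_cell h2n hu)
  · exact Or.inr fun u hu => hr u hu (FrameD_cell h2n hu)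

/-- If the word `a` is not contained in the word `b` then the interval from `σ` to `π` is a
Boolean lattice. -/
theorem frame_bool (h : ¬ Sub m n a b) :
    IsBoolean (pm ha hb (ptS_sub (m := m) (n := n))) (pm ha hb (Finset.Subset.refl (ptP m n)))
      (n + 1) := by
  classical
  let E : {x // x ∈ ptD m n} ≃ Fin (n + 1) := Finset.equivFinOfCardEq (card_ptD (by omega))
  let I : Finset (Fin (n + 1)) → Finset (ℕ × ℕ) := fun F =>
    ptS m n ∪ F.image fun i => (E.symm i).1
  have hD : ∀ i, (E.symm i).1 ∈ ptP m n ∧ (E.symm i).1 ∉ ptS m n := fun i =>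
    Finset.mem_sdiff.1 (E.symm i).2
  have hIP : ∀ F, I F ⊆ ptP m n := by
    intro F x hx
    rcases Finset.mem_union.1 hx with hx | hx
    · exact ptS_sub hx
    · obtain ⟨i, -, rfl⟩ := Finset.mem_image.1 hx
      exact (hD i).1
  have hIS : ∀ F, ptS m n ⊆ I F := fun F => Finset.subset_union_left
  have hmem : ∀ F i, (E.symm i).1 ∈ I F ↔ i ∈ F := by
    intro F i
    constructor
    · intro hx
      rcases Finset.mem_union.1 hx with hx | hx
      · exact absurd hx (hD i).2
      · obtain ⟨j, hj, hji⟩ := Finset.mem_image.1 hx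
        have h1 := E.symm.injective (Subtype.ext hji)
        rw [← h1]
        exact hj
    · intro hi
      exact Finset.mem_union_right _ (Finset.mem_image.2 ⟨i, hi, rfl⟩)
  refine ⟨fun F => pm ha hb (hIP F), fun F F' => ?_, fun x => ?_⟩
  · rw [FrameD_ord ha hb h2m h2n hmn (hIP F) (hIP F') (hIS F) (hIS F')]
    constructor
    · intro h1 i hi
      exact (hmem F' i).1 (h1 ((hmem F i).2 hi))
    · intro h1
      exact Finset.union_subset_union_right (Finset.image_subset_image h1)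
  · constructor
    · rintro ⟨h1, h2⟩
      obtain ⟨T, -, hT, rfl⟩ := FrameD_sub ha hb _ h2
      obtain ⟨e, hm, he⟩ := (FrameD_le_iff ha hb _ _).1 h1
      rcases FrameD_type h2m h2n hmn he (fun u hu => hT (hm u hu)) with h3 | h3
      · obtain ⟨G, hSG, hG, hTG⟩ := lem4 ha hb h2n hT he hm h3
        have hFG : I (Finset.univ.filter fun i => (E.symm i).1 ∈ G) = G := by
          ext y
          constructor
          · intro hy
            rcases Finset.mem_union.1 hy with hy | hy
            · exact hSG hy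
            · obtain ⟨i, hi, rfl⟩ := Finset.mem_image.1 hy
              exact (Finset.mem_filter.1 hi).2
          · intro hy
            by_cases hyS : y ∈ ptS m n
            · exact Finset.mem_union_left _ hyS
            · have hyD := FrameD_pt hG hy hyS
              have h4 : (E.symm (E ⟨y, hyD⟩)).1 = y := by
                rw [Equiv.symm_apply_apply]
              refine Finset.mem_union_right _ (Finset.mem_image.2 ⟨E ⟨y, hyD⟩, ?_, h4⟩)
              rw [Finset.mem_filter, h4]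
              exact ⟨Finset.mem_univ _, hy⟩
        refine ⟨Finset.univ.filter fun i => (E.symm i).1 ∈ G, ?_⟩
        show pm ha hb (hIP _) = pm ha hb hT
        rw [hTG]
        congr 1
      · exact absurd (type2_sub h2n he (fun u hu => hT (hm u hu)) h3) h
    · rintro ⟨F, rfl⟩
      exact ⟨FrameD_mono ha hb _ _ (hIS F), FrameD_mono ha hb _ _ (hIP F)⟩

/-- If the word `a` is contained in the word `b` then the interior of the interval from `σ` to `π`
is disconnected. -/
theorem frame_disc (h : Sub m n a b) :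
    Disconnected (pm ha hb (ptS_sub (m := m) (n := n)))
      (pm ha hb (Finset.Subset.refl (ptP m n))) := by
  classical
  have hcard := FrameD_card (m := m) (n := n) (by omega)
  have hne : ∀ {T : Finset (ℕ × ℕ)} (hT : T ⊆ ptP m n), T.card = (ptS m n).card + 1 →
      PatLE (pm ha hb (ptS_sub (m := m) (n := n))) (pm ha hb hT) →
      pm ha hb hT ∈ Interior (pm ha hb (ptS_sub (m := m) (n := n)))
        (pm ha hb (Finset.Subset.refl (ptP m n))) := by
    intro T hT hc h1
    refine ⟨h1, FrameD_mono ha hb _ _ hT, fun h2 => ?_, fun h2 => ?_⟩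
    · have h3 := congrArg FPerm.n h2
      rw [FrameD_n, FrameD_n] at h3
      omega
    · have h3 := congrArg FPerm.n h2
      rw [FrameD_n, FrameD_n] at h3
      omega
  refine ⟨fun x => ∃ (G : Finset (ℕ × ℕ)) (_ : ptS m n ⊆ G) (hG : G ⊆ ptP m n),
    x = pm ha hb hG, ?_, ?_, ?_⟩
  · -- an element of the first colour
    have h1 : ((2 * n + 1, 0) : ℕ × ℕ) ∈ ptD m n := (mem_ptD (by omega) _).2 (Or.inr rfl)
    have h2 := Finset.mem_sdiff.1 h1
    have hG : insert ((2 * n + 1, 0) : ℕ × ℕ) (ptS m n) ⊆ ptP m n :=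
      Finset.insert_subset h2.1 ptS_sub
    refine ⟨pm ha hb hG, hne hG ?_ ?_, _, Finset.subset_insert _ _, hG, rfl⟩
    · rw [Finset.card_insert_of_notMem h2.2]
    · exact FrameD_mono ha hb _ _ (Finset.subset_insert _ _)
  · -- an element of the second colour
    obtain ⟨e, he, hm, hs⟩ := exists_type2 h2n h
    have hsz : szS m n 0 = m := by
      unfold szS
      simp
    have h00 : ((0, 0) : ℕ × ℕ) ∈ ptS m n := by
      rw [mem_ptS]
      show 0 < szS m n 0
      omega
    have h01 : ((0, 1) : ℕ × ℕ) ∈ ptS m n := by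
      rw [mem_ptS]
      show 1 < szS m n 0
      omega
    have hnot : ((0, 0) : ℕ × ℕ) ∉ (ptS m n).image e := by
      intro h1
      obtain ⟨u, hu, hu2⟩ := Finset.mem_image.1 h1
      have h3 := hs u hu
      rw [hu2] at h3
      simp only at h3
      omega
    have hT : insert ((0, 0) : ℕ × ℕ) ((ptS m n).image e) ⊆ ptP m n := by
      refine Finset.insert_subset (ptS_sub h00) ?_
      intro y hy
      obtain ⟨u, hu, rfl⟩ := Finset.mem_image.1 hy
      exact hm u hu
    have hc : (insert ((0, 0) : ℕ × ℕ) ((ptS m n).image e)).card = (ptS m n).card + 1 := by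
      rw [Finset.card_insert_of_notMem hnot, Finset.card_image_of_injOn]
      intro u hu v hv huv
      exact he.inj ptS_sub hu hv huv
    refine ⟨pm ha hb hT, hne hT hc ?_, ?_⟩
    · refine (FrameD_le_iff ha hb _ _).2 ⟨e, fun v hv => ?_, he⟩
      exact Finset.mem_insert_of_mem (Finset.mem_image_of_mem e hv)
    · rintro ⟨G, hSG, hG, hTG⟩
      have hGc : G.card = (ptS m n).card + 1 := by
        have h3 := congrArg FPerm.n hTG
        rw [FrameD_n, FrameD_n] at h3
        omega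
      obtain ⟨x, hx, hxS⟩ : ∃ x ∈ G, x ∉ ptS m n := by
        by_contra hcon
        push Not at hcon
        have := Finset.card_le_card (show G ⊆ ptS m n from hcon)
        omega
      have h4 : PatLE (pm ha hb hG) (pm ha hb hT) := by
        rw [hTG]
        exact patLE_refl' _
      obtain ⟨g, hg, hge⟩ := (FrameD_le_iff ha hb hG hT).1 h4
      have hsub : insert x (ptS m n) ⊆ G := Finset.insert_subset hx hSG
      obtain ⟨h5, -⟩ := lem3 h2m h2n hmn (FrameD_pt hG hx hxS) (hge.mono hsub)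
        (fun u hu => hT (hg u (hsub hu)))
      have h6 : ∀ u ∈ ptS m n, u.1 = 0 → g u = (0, 0) := by
        intro u hu hu0
        rcases Finset.mem_insert.1 (hg u (hSG hu)) with h7 | h7
        · exact h7
        · obtain ⟨v, hv, hv2⟩ := Finset.mem_image.1 h7
          have h8 := hs v hv
          have h9 := h5 u hu
          rw [hv2] at h8
          omega
      have h7 := hge.inj hG (hSG h00) (hSG h01)
        ((h6 _ h00 rfl).trans (h6 _ h01 rfl).symm)
      rw [Prod.mk.injEq] at h7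
      omega
  · -- comparable elements have the same colour
    rintro x ⟨hx1, hx2, hx3, hx4⟩ y ⟨hy1, hy2, hy3, hy4⟩ hxy
    constructor
    · rintro ⟨G, hSG, hG, rfl⟩
      obtain ⟨x, hx, hxS⟩ : ∃ x ∈ G, x ∉ ptS m n := by
        by_contra hcon
        push Not at hcon
        have h1 : G = ptS m n := Finset.Subset.antisymm hcon hSG
        subst h1
        exact hx3 rfl
      obtain ⟨T, -, hT, rfl⟩ := FrameD_sub ha hb _ hy2
      obtain ⟨g, hg, hge⟩ := (FrameD_le_iff ha hb hG hT).1 hxy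
      have hsub : insert x (ptS m n) ⊆ G := Finset.insert_subset hx hSG
      obtain ⟨h5, -⟩ := lem3 h2m h2n hmn (FrameD_pt hG hx hxS) (hge.mono hsub)
        (fun u hu => hT (hg u (hsub hu)))
      exact lem4 ha hb h2n hT (hge.mono hSG) (fun u hu => hg u (hSG hu)) h5
    · rintro ⟨G, hSG, hG, rfl⟩
      obtain ⟨T, hTG, hT, rfl⟩ := FrameD_sub ha hb _ hxy
      obtain ⟨e, hm, he⟩ := (FrameD_le_iff ha hb _ _).1 hx1
      rcases FrameD_type h2m h2n hmn he (fun u hu => hT (hm u hu)) with h3 | h3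
      · exact lem4 ha hb h2n hT he hm h3
      · exfalso
        have h4 : G = ptP m n := by
          refine Finset.Subset.antisymm hG fun y hy => ?_
          by_cases hyS : y ∈ ptS m n
          · exact hSG hyS
          · obtain ⟨u, hu, rfl⟩ := type2_covers h2n he (fun u hu => hT (hm u hu)) h3
              (Finset.mem_sdiff.2 ⟨hy, hyS⟩)
            exact hTG (hm u hu)
        subst h4
        exact hy4 rfl

end

theorem frame_le {m n : ℕ} {a b : ℕ → ℕ} (ha : InjB m a) (hb : InjB n b) :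
    PatLE (pm ha hb (ptS_sub (m := m) (n := n))) (pm ha hb (Finset.Subset.refl (ptP m n))) :=
  FrameD_mono ha hb _ _ ptS_sub

theorem frame_n {m n : ℕ} {a b : ℕ → ℕ} (ha : InjB m a) (hb : InjB n b) (hn : 1 ≤ n) :
    (pm ha hb (Finset.Subset.refl (ptP m n))).n =
      (pm ha hb (ptS_sub (m := m) (n := n))).n + (n + 1) :=
  FrameD_card hn

end Pool.Agent.W_58hard_h42
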