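import Pool.Agent.W_58hard_h42.Std
import Pool.Agent.W_58cc_h2.AbsB
import Pool.Agent.W_58cc_h2.Glue
import Pool.Agent.W_58ccg_h2.GNegA

/-!
# MP_58cc3c_co, hardness: disconnected intervals are not shellable
-/

namespace Pool.Agent.W_58hard_h42

open Pool.Agent.W_58cc_h2

/-- One can delete a point and stay above a given smaller pattern. -/
theorem exists_cover {x y : FPerm} (h : PatLE x y) (hn : x.n < y.n) :
    ∃ z, PatLE x z ∧ PatLE z y ∧ z.n + 1 = y.n := by
  classical
  obtain ⟨a, ha⟩ : ∃ a : ℕ → ℕ, ∀ i : Fin y.n, a i = y.p i :=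
    ⟨fun i => if hi : i < y.n then y.p ⟨i, hi⟩ else 0, fun i => by simp⟩
  have h1 : STO (Finset.range y.n) fun i j => i < j :=
    ⟨fun u _ => lt_irrefl u, fun u _ v _ w _ => lt_trans, fun u _ v _ h => lt_or_gt_of_ne h⟩
  have h2 : STO (Finset.range y.n) fun i j => a i < a j := by
    refine ⟨fun u _ => lt_irrefl _, fun u _ v _ w _ => lt_trans, fun u hu v hv h => ?_⟩
    apply lt_or_gt_of_ne
    intro he
    have e1 := ha ⟨u, Finset.mem_range.1 hu⟩
    have e2 := ha ⟨v, Finset.mem_range.1 hv⟩
    simp only at e1 e2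
    have e3 : y.p ⟨u, Finset.mem_range.1 hu⟩ = y.p ⟨v, Finset.mem_range.1 hv⟩ := by
      apply Fin.ext
      rw [← e1, ← e2, he]
    exact h (congrArg Fin.val (y.p.injective e3))
  have hy := eq_std y a ha h1 h2
  have h' : PatLE x (std h1 h2) := by rw [← hy]; exact h
  obtain ⟨T, hT, hxT⟩ := exists_sub h1 h2 h'
  have hTn : T.card = x.n := by rw [hxT]; rfl
  obtain ⟨i, hi, hiT⟩ : ∃ i ∈ Finset.range y.n, i ∉ T := by
    by_contra hcon
    push Not at hcon
    have := Finset.card_le_card (show Finset.range y.n ⊆ T from hcon)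
    rw [Finset.card_range] at this
    omega
  have hS : (Finset.range y.n).erase i ⊆ Finset.range y.n := Finset.erase_subset _ _
  refine ⟨std (h1.mono hS) (h2.mono hS), ?_, ?_, ?_⟩
  · rw [hxT, std_le_iff]
    refine ⟨id, fun v hv => ?_, fun u _ v _ => ⟨Iff.rfl, Iff.rfl⟩⟩
    refine Finset.mem_erase.2 ⟨?_, hT hv⟩
    rintro rfl
    exact hiT hv
  · have h3 : PatLE (std (h1.mono hS) (h2.mono hS)) (std h1 h2) := by
      rw [std_le_iff]
      exact ⟨id, fun v hv => hS hv, fun u _ v _ => ⟨Iff.rfl, Iff.rfl⟩⟩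
    rw [← hy] at h3
    exact h3
  · rw [std_n, Finset.card_erase_of_mem hi, Finset.card_range]
    have := Finset.mem_range.1 hi
    omega

/-- There are finitely many permutations of bounded length. -/
theorem finite_n_le (N : ℕ) : {x : FPerm | x.n ≤ N}.Finite := by
  have h : (Set.range fun q : (m : Fin (N + 1)) × Equiv.Perm (Fin m) =>
      (⟨q.1, q.2⟩ : FPerm)).Finite := Set.finite_range _
  apply h.subset
  rintro ⟨n, p⟩ hx
  exact ⟨⟨⟨n, Nat.lt_succ_of_le hx⟩, p⟩, rfl⟩

theorem finite_interior (s t : FPerm) : (Interior s t).Finite :=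
  (finite_n_le t.n).subset fun _ hx => patLE_n hx.2.1

/-- A disconnected interval of rank at least 3 is not shellable. (Use `sh_of_shellable`,
`sh_iff_H58` and `H58.colour_const'` with the empty chain `D`; the facets have at least two
elements by `exists_cover`.) -/
theorem not_shellable_of_disconnected {s t : FPerm} (hn : s.n + 3 ≤ t.n)
    (h : Disconnected s t) : ¬ Shellable (Delta s t) := by
  classical
  intro hsh
  obtain ⟨C, ⟨a, ha, hCa⟩, ⟨b, hb, hCb⟩, hC⟩ := h
  obtain ⟨d, hd⟩ := sh_of_shellable (le := PatLE) patLE_refl' (finite_interior s t) hsh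
  have hd' : H58.Sh (slt PatLE) d (Interior s t) := sh_iff_H58.2 hd
  have hst : PatLE s t := patLE_trans ha.1 ha.2.1
  obtain ⟨z, hz1, hz2, hz3⟩ := exists_cover hst (by omega)
  obtain ⟨w, hw1, hw2, hw3⟩ := exists_cover hz1 (by omega)
  have hzI : z ∈ Interior s t := by
    refine ⟨hz1, hz2, ?_, ?_⟩
    · intro he; rw [he] at hz3; omega
    · intro he; rw [he] at hz3; omega
  have hwI : w ∈ Interior s t := by
    refine ⟨hw1, patLE_trans hw2 hz2, ?_, ?_⟩
    · intro he; rw [he] at hw3; omega
    · intro he; rw [he] at hw3; omega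
  have hwz : w ≠ z := by
    intro he; rw [he] at hw3; omega
  have hd2 : 2 ≤ d := by
    have := H58.sh_card_le hd' {w, z} (by
      intro u hu
      simp only [Finset.mem_insert, Finset.mem_singleton] at hu
      rcases hu with rfl | rfl
      · exact hwI
      · exact hzI) (by
      intro u hu v hv huv
      simp only [Finset.mem_insert, Finset.mem_singleton] at hu hv
      rcases hu with rfl | rfl <;> rcases hv with rfl | rfl
      · exact absurd rfl huv
      · exact Or.inl ⟨hw2, huv⟩
      · exact Or.inr ⟨hw2, huv.symm⟩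
      · exact absurd rfl huv)
    rwa [Finset.card_pair hwz] at this
  obtain ⟨F, haF, hF⟩ := hd'.2.1 {a} (by simpa using ha) (by
    intro u hu v hv huv
    simp only [Finset.mem_singleton] at hu hv
    exact absurd (hu.trans hv.symm) huv)
  obtain ⟨G, hbG, hG⟩ := hd'.2.1 {b} (by simpa using hb) (by
    intro u hu v hv huv
    simp only [Finset.mem_singleton] at hu hv
    exact absurd (hu.trans hv.symm) huv)
  have key := H58.colour_const' hd' ∅ (by simpa using hd2) C (by
    intro F hF _ u hu _ v hv _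
    by_cases huv : u = v
    · rw [huv]
    · rcases hF.2.1 u hu v hv huv with h1 | h1
      · exact hC u (hF.1 u hu) v (hF.1 v hv) h1.1
      · exact (hC v (hF.1 v hv) u (hF.1 u hu) h1.1).symm)
    F G hF hG (by simp) (by simp) a b (haF (by simp)) (by simp) (hbG (by simp)) (by simp)
  exact hCb (key.1 hCa)

end Pool.Agent.W_58hard_h42
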