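import Pool.Agent.W_58hard_h42.Sat
import Pool.Agent.W_58hard_h42.Conv
import Pool.Agent.PolyTimeCL.CookLevin

/-!
# MP_58cc3c_co, hardness: the reduction is computable in polynomial time
-/

set_option autoImplicit false

namespace Pool.Agent.W_58hard_h42

open Pool.Agent.W_58cc_h2 Pool.Agent.PolyTime

section

variable {α : Type*} [TEnc α]

theorem pf_lt4 {f g : α → C4} (hf : PF f) (hg : PF g) : PF (fun x => lt4 (f x) (g x)) := by
  unfold lt4
  have f1 := PF.fst' hf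
  have f2 := PF.fst' (PF.snd' hf)
  have f3 := PF.fst' (PF.snd' (PF.snd' hf))
  have f4 := PF.snd' (PF.snd' (PF.snd' hf))
  have g1 := PF.fst' hg
  have g2 := PF.fst' (PF.snd' hg)
  have g3 := PF.fst' (PF.snd' (PF.snd' hg))
  have g4 := PF.snd' (PF.snd' (PF.snd' hg))
  exact (PF.lt f1 g1).or ((PF.eq f1 g1).and ((PF.lt f2 g2).or ((PF.eq f2 g2).and
    ((PF.lt f3 g3).or ((PF.eq f3 g3).and (PF.lt f4 g4))))))

theorem pf_rk1 {L : α → List P4} {v : α → P4} (hL : PF L) (hv : PF v) :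
    PF (fun x => rkL lt4 Prod.fst (L x) (v x)) := by
  unfold rkL
  exact PF.length (PF.filter (pf_lt4 (PF.fst' PF.snd) (PF.fst' (hv.comp PF.fst))) hL)

theorem pf_rk2 {L : α → List P4} {v : α → P4} (hL : PF L) (hv : PF v) :
    PF (fun x => rkL lt4 Prod.snd (L x) (v x)) := by
  unfold rkL
  exact PF.length (PF.filter (pf_lt4 (PF.snd' PF.snd) (PF.snd' (hv.comp PF.fst))) hL)

theorem pf_ol {f : α → List P4} (hf : PF f) : PF (fun x => ol (f x)) := by
  unfold ol
  have hd := PF.dedup hf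
  refine PF.map ?_ (PF.range (PF.length hd))
  refine pf_rk2 (hd.comp PF.fst) (PF.optionGetD (PF.head? (PF.filter ?_ (hd.comp PF.fst))) (PF.const _))
  exact PF.eq (pf_rk1 (hd.comp (PF.fst.comp PF.fst)) PF.snd) (PF.snd.comp PF.fst)

theorem pf_mk {a b c d a' b' c' d' : α → ℕ} (ha : PF a) (hb : PF b) (hc : PF c) (hd : PF d)
    (ha' : PF a') (hb' : PF b') (hc' : PF c') (hd' : PF d') :
    PF (fun x => (((a x, b x, c x, d x), (a' x, b' x, c' x, d' x)) : P4)) :=
  PF.pair (ha.pair (hb.pair (hc.pair hd))) (ha'.pair (hb'.pair (hc'.pair hd')))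

theorem pf_dbl {a : α → ℕ} (ha : PF a) : PF (fun x => 2 * a x) := PF.mul (PF.const 2) ha

theorem pf_gd {m K c k i : α → ℕ} (hm : PF m) (hK : PF K) (hc : PF c) (hk : PF k) (hi : PF i) :
    PF (fun x => gd (m x) (K x) (c x) (k x) (i x)) := by
  unfold gd
  have h1 := PF.succ (pf_dbl hc)
  have h2 := PF.mul hi (PF.succ hm)
  exact pf_mk h1 hk h2 (PF.const 0) h1 (PF.sub hK hk) h2 (PF.const 0)

theorem pf_ed {K c k d l : α → ℕ} (hK : PF K) (hc : PF c) (hk : PF k) (hd : PF d) (hl : PF l) :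
    PF (fun x => ed (K x) (c x) (k x) (d x) (l x)) := by
  unfold ed
  exact pf_mk (PF.succ (pf_dbl hd)) hl (PF.add (PF.const 1) hc) hk
    (PF.succ (pf_dbl hc)) (PF.sub hK hk) (PF.add (PF.const 1) hd) hl

theorem pf_cl {f : α → CNF ℕ} {c : α → ℕ} (hf : PF f) (hc : PF c) : PF (fun x => cl (f x) (c x)) :=
  PF.optionGetD (PF.getElem? hf hc) (PF.const [])

theorem pf_len {f : α → CNF ℕ} {c : α → ℕ} (hf : PF f) (hc : PF c) : PF (fun x => len (f x) (c x)) :=
  PF.length (pf_cl hf hc)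

theorem pf_lit {f : α → CNF ℕ} {c k : α → ℕ} (hf : PF f) (hc : PF c) (hk : PF k) :
    PF (fun x => lit (f x) (c x) (k x)) :=
  PF.optionGetD (PF.getElem? (pf_cl hf hc) hk) (PF.const (0, false))

theorem pf_cmp {f : α → CNF ℕ} {c k d l : α → ℕ} (hf : PF f) (hc : PF c) (hk : PF k) (hd : PF d) (hl : PF l) :
    PF (fun x => cmp (f x) (c x) (k x) (d x) (l x)) := by
  unfold cmp
  have h1 := pf_lit hf hc hk
  have h2 := pf_lit hf hd hl
  exact (PF.not (PF.eq (PF.fst' h1) (PF.fst' h2))).or (PF.eq (PF.snd' h1) (PF.snd' h2))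

theorem pf_KK {f : α → CNF ℕ} (hf : PF f) : PF (fun x => KK (f x)) := PF.length (PF.flatten hf)

theorem pf_rs {m j i : α → ℕ} (hm : PF m) (hj : PF j) (hi : PF i) : PF (fun x => rs (m x) (j x) (i x)) := by
  unfold rs
  exact pf_mk (pf_dbl hj) hi (PF.const 0) (PF.const 0)
    (PF.sub (PF.succ (PF.mul (PF.const 3) hm)) hj) hi (PF.const 0) (PF.const 0)

theorem pf_rt {m j i : α → ℕ} (hm : PF m) (hj : PF j) (hi : PF i) : PF (fun x => rt (m x) (j x) (i x)) := by
  unfold rt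
  exact pf_mk (PF.sub (PF.succ (PF.mul (PF.const 3) hm)) hj) hi (PF.const 0) (PF.const 0)
    (pf_dbl hj) hi (PF.const 0) (PF.const 0)

theorem pf_runs {m M : α → ℕ} (hm : PF m) (hM : PF M) : PF (fun x => runs (m x) (M x)) := by
  unfold runs
  refine PF.flatMap (PF.flatMap ?_ (PF.range (hM.comp PF.fst))) (PF.range (PF.succ hm))
  have h1 : PF (fun p : (α × ℕ) × ℕ => m p.1.1) := hm.comp (PF.fst.comp PF.fst)
  have h2 : PF (fun p : (α × ℕ) × ℕ => p.1.2) := PF.snd.comp PF.fst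
  have h3 : PF (fun p : (α × ℕ) × ℕ => p.2) := PF.snd
  exact PF.cons (pf_rs h1 h2 h3) (PF.cons (pf_rt h1 h2 h3) (PF.const []))

theorem pf_mainP {m : α → ℕ} (hm : PF m) : PF (fun x => mainP (m x)) := by
  unfold mainP
  refine PF.append (PF.flatMap ?_ (PF.range hm)) (PF.flatMap (PF.flatMap ?_ (PF.range (hm.comp PF.fst)))
    (PF.range hm))
  · have h1 : PF (fun p : α × ℕ => m p.1) := hm.comp PF.fst
    exact PF.cons (pf_gd h1 (PF.const 0) PF.snd (PF.const 0) (PF.const 0))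
      (PF.cons (pf_gd h1 (PF.const 0) PF.snd (PF.const 0) (PF.const 1)) (PF.const []))
  · have h2 : PF (fun p : (α × ℕ) × ℕ => p.1.2) := PF.snd.comp PF.fst
    have h3 : PF (fun p : (α × ℕ) × ℕ => p.2) := PF.snd
    refine PF.ite (p := fun p : (α × ℕ) × ℕ => decide (p.1.2 < p.2) = true) (PF.decide_bool (PF.lt h2 h3))
      (PF.cons (pf_ed (PF.const 0) h2 (PF.const 0) h3 (PF.const 0)) (PF.const [])) (PF.const [])

theorem pf_mainT {f : α → CNF ℕ} (hf : PF f) : PF (fun x => mainT (f x)) := by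
  unfold mainT
  refine PF.append (PF.flatMap (PF.flatMap ?_ (PF.range (pf_len (hf.comp PF.fst) PF.snd))) (PF.range (PF.length hf)))
    (PF.flatMap (PF.flatMap (PF.flatMap (PF.flatMap ?_ (PF.range ?_)) (PF.range ?_))
      (PF.range (PF.length (hf.comp PF.fst)))) (PF.range (PF.length hf)))
  · have h1 : PF (fun p : (α × ℕ) × ℕ => f p.1.1) := hf.comp (PF.fst.comp PF.fst)
    have h2 : PF (fun p : (α × ℕ) × ℕ => p.1.2) := PF.snd.comp PF.fst
    have h3 : PF (fun p : (α × ℕ) × ℕ => p.2) := PF.snd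
    exact PF.cons (pf_gd (PF.length h1) (pf_KK h1) h2 h3 (PF.const 0))
      (PF.cons (pf_gd (PF.length h1) (pf_KK h1) h2 h3 (PF.const 1)) (PF.const []))
  · have h1 : PF (fun p : (((α × ℕ) × ℕ) × ℕ) × ℕ => f p.1.1.1.1) :=
      hf.comp (PF.fst.comp (PF.fst.comp (PF.fst.comp PF.fst)))
    have h2 : PF (fun p : (((α × ℕ) × ℕ) × ℕ) × ℕ => p.1.1.1.2) := PF.snd.comp (PF.fst.comp (PF.fst.comp PF.fst))
    have h3 : PF (fun p : (((α × ℕ) × ℕ) × ℕ) × ℕ => p.1.1.2) := PF.snd.comp (PF.fst.comp PF.fst)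
    have h4 : PF (fun p : (((α × ℕ) × ℕ) × ℕ) × ℕ => p.1.2) := PF.snd.comp PF.fst
    have h5 : PF (fun p : (((α × ℕ) × ℕ) × ℕ) × ℕ => p.2) := PF.snd
    refine PF.ite (p := fun p : (((α × ℕ) × ℕ) × ℕ) × ℕ =>
      (decide (p.1.1.1.2 < p.1.1.2) && cmp (f p.1.1.1.1) p.1.1.1.2 p.1.2 p.1.1.2 p.2) = true)
      (PF.decide_bool ((PF.lt h2 h3).and (pf_cmp h1 h2 h4 h3 h5))) (PF.cons (pf_ed (pf_KK h1) h2 h4 h3 h5)
      (PF.const [])) (PF.const [])
  · exact pf_len (hf.comp (PF.fst.comp (PF.fst.comp PF.fst))) (PF.snd.comp PF.fst)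
  · exact pf_len (hf.comp (PF.fst.comp PF.fst)) (PF.snd.comp PF.fst)

theorem pf_MM {f : α → CNF ℕ} (hf : PF f) : PF (fun x => MM (f x)) :=
  PF.succ (PF.add (PF.length (pf_mainT hf)) (PF.length (pf_mainP (PF.length hf))))

theorem pf_patt {f : α → CNF ℕ} (hf : PF f) : PF (fun x => patt (f x)) :=
  PF.append (pf_mainP (PF.length hf)) (pf_runs (PF.length hf) (pf_MM hf))

theorem pf_text {f : α → CNF ℕ} (hf : PF f) : PF (fun x => text (f x)) :=
  PF.append (pf_mainT hf) (pf_runs (PF.length hf) (pf_MM hf))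

theorem pf_fn {A : α → List ℕ} {i : α → ℕ} (hA : PF A) (hi : PF i) : PF (fun x => fn (A x) (i x)) :=
  PF.optionGetD (PF.getElem? hA hi) (PF.const 0)

theorem pf_bp {A B : α → List ℕ} {i p : α → ℕ} (hA : PF A) (hB : PF B) (hi : PF i) (hp : PF p) :
    PF (fun x => bp (A x) (B x) (i x) (p x)) := by
  unfold bp
  exact pf_mk (pf_dbl hi) hp (PF.const 0) (PF.const 0) (PF.succ (pf_dbl hi))
    (PF.ite (p := fun x => i x = 0) (PF.eq hi (PF.const 0)) (pf_fn hA hp) (pf_fn hB hp)) (PF.const 0) (PF.const 0)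

theorem pf_lp {i : α → ℕ} (hi : PF i) : PF (fun x => lp (i x)) := by
  unfold lp
  exact pf_mk (PF.add (pf_dbl hi) (PF.const 3)) (PF.const 0) (PF.const 0) (PF.const 0)
    (pf_dbl hi) (PF.const 0) (PF.const 0) (PF.const 0)

theorem pf_blk {A B : α → List ℕ} {N : α → ℕ} (hA : PF A) (hB : PF B) (hN : PF N) :
    PF (fun x => (List.range (N x)).flatMap fun i => (List.range (if i = 0 then (A x).length else
      if i = 1 then (B x).length else N x - i)).map fun p => bp (A x) (B x) i p) := by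
  refine PF.flatMap (PF.map ?_ (PF.range ?_)) (PF.range hN)
  · exact pf_bp (hA.comp (PF.fst.comp PF.fst)) (hB.comp (PF.fst.comp PF.fst)) (PF.snd.comp PF.fst) PF.snd
  · exact PF.ite (p := fun x : α × ℕ => x.2 = 0) (PF.eq PF.snd (PF.const 0)) (PF.length (hA.comp PF.fst))
      (PF.ite (p := fun x : α × ℕ => x.2 = 1) (PF.eq PF.snd (PF.const 1)) (PF.length (hB.comp PF.fst))
        (PF.sub (hN.comp PF.fst) PF.snd))

theorem pf_fP {f g : α → List ℕ} (hf : PF f) (hg : PF g) : PF (fun x => fP (f x) (g x)) := by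
  unfold fP
  exact PF.append (pf_blk hf hg (PF.add (PF.length hg) (PF.const 2)))
    (PF.map (pf_lp PF.snd) (PF.range (PF.succ (PF.length hg))))

theorem pf_fS {f g : α → List ℕ} (hf : PF f) (hg : PF g) : PF (fun x => fS (f x) (g x)) := by
  unfold fS
  exact PF.append (pf_blk hf hg (PF.succ (PF.length hg))) (PF.map (pf_lp PF.snd) (PF.range (PF.length hg)))

end

/-! ### Codes -/

theorem codeNat_eq (n : ℕ) : codeNat n = (TEnc.enc n).enc := by
  induction n with
  | zero => rfl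
  | succ n ih => rw [codeNat, ih]; rfl

theorem codeList_eq (l : List ℕ) : codeList l = (TEnc.enc l).enc := by
  induction l with
  | nil => rfl
  | cons a l ih => rw [codeList, ih, codeNat_eq]; rfl

theorem code_eq (c : FPerm × FPerm) : code c = bits (oneLine c.1, oneLine c.2) := by
  unfold code
  rw [codeList_eq, codeList_eq]
  rfl

theorem code_injective : Function.Injective code := by
  intro I J h
  rw [code_eq, code_eq] at h
  have h1 := TEnc.inj (T.enc_injective h)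
  rw [Prod.mk.injEq] at h1
  exact Prod.ext (oneLine_injective h1.1) (oneLine_injective h1.2)

end Pool.Agent.W_58hard_h42
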