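import Pool.Agent.W_58hard_h42.Sat

/-!
# MP_58cc3c_co, hardness: different points have different coordinates; number of points
-/

namespace Pool.Agent.W_58hard_h42

open Pool.Agent.W_58cc_h2 Pool.Agent.PolyTime

/-- All points. -/
private def SatIA (m K : ℕ) (u : P4) : Prop :=
  (∃ c k i, c < m ∧ k ≤ K ∧ i < 2 ∧ u = gd m K c k i) ∨
    (∃ c k d l, c < d ∧ d < m ∧ k ≤ K ∧ u = ed K c k d l) ∨
    (∃ j i, j ≤ m ∧ u = rs m j i) ∨ (∃ j i, j ≤ m ∧ u = rt m j i)

private theorem SatI_inj {m K : ℕ} {u v : P4} (hu : SatIA m K u) (hv : SatIA m K v) :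
    (u.1 = v.1 → u = v) ∧ (u.2 = v.2 → u = v) := by
  rcases hu with ⟨c, k, i, h1, h2, h3, rfl⟩ | ⟨c, k, d, l, h1, h2, h3, rfl⟩ | ⟨j, i, h1, rfl⟩ |
      ⟨j, i, h1, rfl⟩ <;>
    rcases hv with ⟨c', k', i', g1, g2, g3, rfl⟩ | ⟨c', k', d', l', g1, g2, g3, rfl⟩ |
      ⟨j', i', g1, rfl⟩ | ⟨j', i', g1, rfl⟩ <;>
    simp only [gd, ed, rs, rt, Prod.mk.injEq, and_true] <;>
    (try interval_cases i) <;> (try interval_cases i') <;>
    refine ⟨fun h => ?_, fun h => ?_⟩ <;> omega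

private theorem SatI_text {φ : CNF ℕ} {u : P4} (hu : u ∈ (text φ).toFinset) :
    SatIA φ.length (KK φ) u := by
  rw [List.mem_toFinset, text, List.mem_append, mem_mainT, mem_runs] at hu
  rcases hu with (⟨c, k, i, h1, h2, h3, h4⟩ | ⟨c, k, d, l, h1, h2, h3, _, _, h4⟩) |
      ⟨j, i, h1, _, h2 | h2⟩
  · exact Or.inl ⟨c, k, i, h1, h2.le.trans (len_le_KK φ h1), h3, h4⟩
  · exact Or.inr (Or.inl ⟨c, k, d, l, h1, h2, h3.le.trans (len_le_KK φ (h1.trans h2)), h4⟩)
  · exact Or.inr (Or.inr (Or.inl ⟨j, i, h1, h2⟩))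
  · exact Or.inr (Or.inr (Or.inr ⟨j, i, h1, h2⟩))

private theorem SatI_patt {φ : CNF ℕ} {u : P4} (hu : u ∈ (patt φ).toFinset) :
    SatIA φ.length 0 u := by
  rw [List.mem_toFinset, patt, List.mem_append, mem_mainP, mem_runs] at hu
  rcases hu with (⟨c, i, h1, h3, h4⟩ | ⟨c, d, h1, h2, h4⟩) | ⟨j, i, h1, _, h2 | h2⟩
  · exact Or.inl ⟨c, 0, i, h1, le_rfl, h3, h4⟩
  · exact Or.inr (Or.inl ⟨c, 0, d, 0, h1, h2, le_rfl, h4⟩)
  · exact Or.inr (Or.inr (Or.inl ⟨j, i, h1, h2⟩))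
  · exact Or.inr (Or.inr (Or.inr ⟨j, i, h1, h2⟩))

theorem text_inj (φ : CNF ℕ) : ∀ u ∈ (text φ).toFinset, ∀ v ∈ (text φ).toFinset,
    (u.1 = v.1 → u = v) ∧ (u.2 = v.2 → u = v) :=
  fun _ hu _ hv => SatI_inj (SatI_text hu) (SatI_text hv)

theorem patt_inj (φ : CNF ℕ) : ∀ u ∈ (patt φ).toFinset, ∀ v ∈ (patt φ).toFinset,
    (u.1 = v.1 → u = v) ∧ (u.2 = v.2 → u = v) :=
  fun _ hu _ hv => SatI_inj (SatI_patt hu) (SatI_patt hv)

private theorem SatI_two {φ : CNF ℕ} {S : Finset P4}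
    (h : ∀ u, u ∈ runs φ.length (MM φ) → u ∈ S) : 2 ≤ S.card := by
  have hM : 0 < MM φ := by unfold MM; omega
  have h1 : rs φ.length 0 0 ∈ S := h _ (mem_runs.2 ⟨0, 0, Nat.zero_le _, hM, Or.inl rfl⟩)
  have h2 : rt φ.length 0 0 ∈ S := h _ (mem_runs.2 ⟨0, 0, Nat.zero_le _, hM, Or.inr rfl⟩)
  have h3 : rs φ.length 0 0 ≠ rt φ.length 0 0 := by
    simp only [rs, rt, ne_eq, Prod.mk.injEq]
    omega
  exact Finset.one_lt_card.2 ⟨_, h1, _, h2, h3⟩

theorem card_text (φ : CNF ℕ) : 2 ≤ (text φ).toFinset.card := by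
  refine SatI_two (φ := φ) fun u hu => ?_
  rw [List.mem_toFinset, text, List.mem_append]
  exact Or.inr hu

theorem card_patt (φ : CNF ℕ) : 2 ≤ (patt φ).toFinset.card ∧
    (patt φ).toFinset.card ≤ 2 * (text φ).toFinset.card := by
  refine ⟨?_, ?_⟩
  · refine SatI_two (φ := φ) fun u hu => ?_
    rw [List.mem_toFinset, patt, List.mem_append]
    exact Or.inr hu
  · have h1 : (mainP φ.length).toFinset.card ≤ (mainP φ.length).length :=
      List.toFinset_card_le _
    have h2 : (runs φ.length (MM φ)).toFinset.card ≤ (text φ).toFinset.card := by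
      refine Finset.card_le_card fun u hu => ?_
      rw [List.mem_toFinset] at hu ⊢
      rw [text, List.mem_append]
      exact Or.inr hu
    have h3 : MM φ ≤ (text φ).toFinset.card := by
      have h4 : ((Finset.range (MM φ)).image fun i => rs φ.length 0 i) ⊆ (text φ).toFinset := by
        intro u hu
        rw [Finset.mem_image] at hu
        obtain ⟨i, hi, rfl⟩ := hu
        rw [List.mem_toFinset, text, List.mem_append]
        exact Or.inr (mem_runs.2 ⟨0, i, Nat.zero_le _, Finset.mem_range.1 hi, Or.inl rfl⟩)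
      have h5 := Finset.card_le_card h4
      rwa [Finset.card_image_of_injective, Finset.card_range] at h5
      intro a b hab
      simp only [rs, Prod.mk.injEq] at hab
      omega
    have h6 : (mainP φ.length).length ≤ MM φ := by unfold MM; omega
    have h7 : (patt φ).toFinset.card ≤
        (mainP φ.length).toFinset.card + (runs φ.length (MM φ)).toFinset.card := by
      rw [patt, List.toFinset_append]
      exact Finset.card_union_le _ _
    omega

end Pool.Agent.W_58hard_h42
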