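import Pool.Agent.W_58hard_h42.SatB
import Pool.Agent.W_58hard_h42.SatI
import Pool.Agent.W_58hard_h42.FrameD
import Pool.Agent.W_58hard_h42.LatB
import Pool.Agent.W_58hard_h42.Poly
import Pool.Agent.W_58hard_h42.ConvB

/-!
# MP_58cc3c_co, hardness: the final theorem
-/

set_option autoImplicit false

namespace Pool.Agent.W_58hard_h42

open Turing Computability Pool.Agent.W_58cc_h2 Pool.Agent.PolyTime

/-- The pattern of a formula. -/
noncomputable def pa (φ : CNF ℕ) : FPerm :=
  std (sto_lx fun u hu v hv => (patt_inj φ u hu v hv).1)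
    (sto_ly fun u hu v hv => (patt_inj φ u hu v hv).2)

/-- The text of a formula. -/
noncomputable def te (φ : CNF ℕ) : FPerm :=
  std (sto_lx fun u hu v hv => (text_inj φ u hu v hv).1)
    (sto_ly fun u hu v hv => (text_inj φ u hu v hv).2)

theorem sat_iff_le (φ : CNF ℕ) : φ.Sat ↔ PatLE (pa φ) (te φ) := by
  unfold pa te
  rw [std_le_iff]
  exact ⟨fun h => emb_of_sat h, fun ⟨g, hg⟩ => sat_of_emb (g := g) hg⟩

theorem oneLine_pa (φ : CNF ℕ) : oneLine (pa φ) = ol (patt φ) := (ol_eq _ _ _).symm

theorem oneLine_te (φ : CNF ℕ) : oneLine (te φ) = ol (text φ) := (ol_eq _ _ _).symm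

/-- The pair of permutations of a pair of one-line notations. -/
noncomputable def pair (s t : FPerm) : FPerm × FPerm :=
  (pm (injB_oneLine s) (injB_oneLine t)
      (ptS_sub (m := (oneLine s).length) (n := (oneLine t).length)),
    pm (injB_oneLine s) (injB_oneLine t)
      (Finset.Subset.refl (ptP (oneLine s).length (oneLine t).length)))

/-- **Theorem (A).** For permutations `s`, `t` with at least two entries, `s` at most twice as long
as `t`, the two permutations `σ ≤ π` of `pair s t` have lengths which differ by `|t| + 1`; if `s`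
is not contained in `t` then `[σ, π]` is a Boolean lattice, otherwise its interior is
disconnected. -/
theorem pair_spec (s t : FPerm) (hs : 2 ≤ s.n) (ht : 2 ≤ t.n) (hst : s.n ≤ 2 * t.n) :
    PatLE (pair s t).1 (pair s t).2 ∧ (pair s t).2.n = (pair s t).1.n + (t.n + 1) ∧
    (¬ PatLE s t → IsBoolean (pair s t).1 (pair s t).2 (t.n + 1)) ∧
    (PatLE s t → Disconnected (pair s t).1 (pair s t).2) := by
  have h1 := length_oneLine s
  have h2 := length_oneLine t
  refine ⟨frame_le (injB_oneLine s) (injB_oneLine t), ?_, ?_, ?_⟩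
  · have h3 : (pair s t).2.n = (pair s t).1.n + ((oneLine t).length + 1) :=
      frame_n (injB_oneLine s) (injB_oneLine t) (by omega)
    omega
  · intro h
    rw [patLE_iff_sub] at h
    have h3 : IsBoolean (pair s t).1 (pair s t).2 ((oneLine t).length + 1) :=
      frame_bool (injB_oneLine s) (injB_oneLine t) (by omega) (by omega) (by omega) h
    rwa [h2] at h3
  · intro h
    rw [patLE_iff_sub] at h
    exact frame_disc (injB_oneLine s) (injB_oneLine t) (by omega) (by omega) (by omega) h

/-- The final theorem. -/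
theorem final :
    Function.Injective code ∧
    ∀ L : Set (List Bool), InNP L →
      ∃ f : List Bool → FPerm × FPerm,
        Nonempty (TM2ComputableInPolyTime (fun x : List Bool => x) code f) ∧
        ∀ x, PatLE (f x).1 (f x).2 ∧ (f x).1.n + 3 ≤ (f x).2.n ∧
          (x ∉ L → IsBoolean (f x).1 (f x).2 ((f x).2.n - (f x).1.n)) ∧
          (x ∈ L → Disconnected (f x).1 (f x).2) ∧
          (x ∈ L ↔ ¬ Shellable (Delta (f x).1 (f x).2)) := by
  refine ⟨code_injective, fun L hL => ?_⟩
  obtain ⟨g, hg, hgL⟩ := cookLevin_nat hL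
  have hlen : ∀ x, 2 ≤ (pa (g x)).n ∧ 2 ≤ (te (g x)).n ∧ (pa (g x)).n ≤ 2 * (te (g x)).n :=
    fun x => ⟨(card_patt (g x)).1, card_text (g x), (card_patt (g x)).2⟩
  refine ⟨fun x => pair (pa (g x)) (te (g x)), ?_, fun x => ?_⟩
  · have h1 : PF fun x : List Bool => (ol (fS (ol (patt (g x))) (ol (text (g x)))),
        ol (fP (ol (patt (g x))) (ol (text (g x))))) :=
      PF.pair (pf_ol (pf_fS (pf_ol (pf_patt hg)) (pf_ol (pf_text hg))))
        (pf_ol (pf_fP (pf_ol (pf_patt hg)) (pf_ol (pf_text hg))))
    obtain ⟨h⟩ := PF.toTM2_raw h1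
    have h2 : ∀ x, (oneLine (pair (pa (g x)) (te (g x))).1,
        oneLine (pair (pa (g x)) (te (g x))).2) =
        (ol (fS (ol (patt (g x))) (ol (text (g x)))),
          ol (fP (ol (patt (g x))) (ol (text (g x))))) := by
      intro x
      have h3 := length_oneLine (te (g x))
      have h4 := (hlen x).2.1
      rw [← oneLine_pa, ← oneLine_te]
      rw [Prod.mk.injEq]
      exact ⟨(ol_fS (injB_oneLine _) (injB_oneLine _) (by omega)).symm,
        (ol_fP (injB_oneLine _) (injB_oneLine _)).symm⟩
    exact ⟨⟨h.toTM2ComputableAux, h.time, fun x => by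
      rw [code_eq, h2]
      exact h.outputsFun x⟩⟩
  · obtain ⟨h1, h2, h3, h4⟩ := pair_spec (pa (g x)) (te (g x)) (hlen x).1 (hlen x).2.1 (hlen x).2.2
    have h5 := (hlen x).2.1
    have h6 : (pair (pa (g x)) (te (g x))).1.n + 3 ≤ (pair (pa (g x)) (te (g x))).2.n := by omega
    have h7 : (pair (pa (g x)) (te (g x))).2.n - (pair (pa (g x)) (te (g x))).1.n =
      (te (g x)).n + 1 := by omega
    rw [hgL, sat_iff_le]
    refine ⟨h1, h6, ?_, h4, ?_⟩
    · rw [h7]
      exact h3
    · constructor
      · exact fun h => not_shellable_of_disconnected h6 (h4 h)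
      · intro h
        by_contra h8
        exact h (shellable_of_isBoolean (h3 h8))

end Pool.Agent.W_58hard_h42
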