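import Pool.Agent.W_58hard_h42.Std

/-!
# MP_58cc3c_co, hardness: points with coordinates in `ℕ⁴` (lexicographic order)
-/

namespace Pool.Agent.W_58hard_h42

open Pool.Agent.W_58cc_h2

/-- Coordinates. -/
abbrev C4 : Type := ℕ × ℕ × ℕ × ℕ

/-- Points. -/
abbrev P4 : Type := C4 × C4

/-- Lexicographic order of the coordinates. -/
def lt4 (a b : C4) : Bool :=
  decide (a.1 < b.1) || (decide (a.1 = b.1) && (decide (a.2.1 < b.2.1) ||
    (decide (a.2.1 = b.2.1) && (decide (a.2.2.1 < b.2.2.1) ||
      (decide (a.2.2.1 = b.2.2.1) && decide (a.2.2.2 < b.2.2.2))))))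

theorem lt4_iff (a b : C4) : lt4 a b = true ↔ a.1 < b.1 ∨ (a.1 = b.1 ∧ (a.2.1 < b.2.1 ∨
    (a.2.1 = b.2.1 ∧ (a.2.2.1 < b.2.2.1 ∨ (a.2.2.1 = b.2.2.1 ∧ a.2.2.2 < b.2.2.2))))) := by
  simp [lt4]

/-- From left to right. -/
def lx (u v : P4) : Prop := lt4 u.1 v.1 = true

/-- From below to above. -/
def ly (u v : P4) : Prop := lt4 u.2 v.2 = true

theorem Pts_irr (a : C4) : ¬ lt4 a a = true := by
  rw [lt4_iff]
  omega

theorem Pts_tr {a b c : C4} (h1 : lt4 a b = true) (h2 : lt4 b c = true) : lt4 a c = true := by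
  rw [lt4_iff] at *
  omega

theorem Pts_tot {a b : C4} (h : a ≠ b) : lt4 a b = true ∨ lt4 b a = true := by
  rw [lt4_iff, lt4_iff]
  by_contra hc
  refine h ?_
  obtain ⟨a1, a2, a3, a4⟩ := a
  obtain ⟨b1, b2, b3, b4⟩ := b
  simp only at hc
  have h1 : a1 = b1 := by omega
  have h2 : a2 = b2 := by omega
  have h3 : a3 = b3 := by omega
  have h4 : a4 = b4 := by omega
  rw [h1, h2, h3, h4]

theorem sto_lx {S : Finset P4} (h : ∀ u ∈ S, ∀ v ∈ S, u.1 = v.1 → u = v) : STO S lx :=
  ⟨fun u _ => Pts_irr u.1, fun _ _ _ _ _ _ h1 h2 => Pts_tr h1 h2,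
    fun u hu v hv huv => Pts_tot fun he => huv (h u hu v hv he)⟩

theorem sto_ly {S : Finset P4} (h : ∀ u ∈ S, ∀ v ∈ S, u.2 = v.2 → u = v) : STO S ly :=
  ⟨fun u _ => Pts_irr u.2, fun _ _ _ _ _ _ h1 h2 => Pts_tr h1 h2,
    fun u hu v hv huv => Pts_tot fun he => huv (h u hu v hv he)⟩

/-! ### One-line notation of a list of points -/

/-- Number of points of `L` before `v`. -/
def rkL (o : C4 → C4 → Bool) (π : P4 → C4) (L : List P4) (v : P4) : ℕ :=
  (L.filter fun u => o (π u) (π v)).length

/-- The one-line notation of the permutation of the points of the list. -/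
def ol (L : List P4) : List ℕ :=
  (List.range L.dedup.length).map fun p =>
    rkL lt4 Prod.snd L.dedup (((L.dedup.filter fun u => decide
      (rkL lt4 Prod.fst L.dedup u = p)).head?).getD ((0, 0, 0, 0), (0, 0, 0, 0)))

theorem Pts_rk (L : List P4) (π : P4 → C4) (v : P4) :
    rkL lt4 π L.dedup v = rk (fun u v => lt4 (π u) (π v) = true) L.toFinset v := by
  classical
  unfold rkL rk
  rw [← List.toFinset_card_of_nodup ((List.nodup_dedup L).filter _)]
  congr 1
  ext u
  simp

theorem ol_eq (L : List P4) (hx : STO L.toFinset lx) (hy : STO L.toFinset ly) :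
    ol L = oneLine (std hx hy) := by
  classical
  have hx1 : ∀ v, rkL lt4 Prod.fst L.dedup v = rk lx L.toFinset v := Pts_rk L Prod.fst
  have hy1 : ∀ v, rkL lt4 Prod.snd L.dedup v = rk ly L.toFinset v := Pts_rk L Prod.snd
  have hn : L.dedup.length = L.toFinset.card := (List.card_toFinset L).symm
  refine List.ext_getElem ?_ ?_
  · unfold ol oneLine
    rw [List.length_map, List.length_range, List.length_ofFn, hn]
    rfl
  · intro p hp1 hp2
    have hp : p < L.toFinset.card := by
      unfold oneLine at hp2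
      rw [List.length_ofFn] at hp2
      exact hp2
    unfold ol oneLine
    rw [List.getElem_map, List.getElem_range, List.getElem_ofFn]
    obtain ⟨v, hv⟩ : ∃ v, v = (num hx).symm ⟨p, hp⟩ := ⟨_, rfl⟩
    have hvp : rk lx L.toFinset v.1 = p := by
      have h1 : num hx v = ⟨p, hp⟩ := by rw [hv, Equiv.apply_symm_apply]
      exact congrArg Fin.val h1
    have e1 : ((std hx hy).p ⟨p, hp⟩ : ℕ) = rk ly L.toFinset v.1 := by
      have h2 := Std_p hx hy ⟨p, hp⟩
      rw [← hv] at h2
      exact congrArg Fin.val h2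
    have e2 : (L.dedup.filter fun u => decide (rkL lt4 Prod.fst L.dedup u = p)).head? =
        some v.1 := by
      have hvm : v.1 ∈ L.dedup.filter fun u => decide (rkL lt4 Prod.fst L.dedup u = p) := by
        rw [List.mem_filter]
        refine ⟨List.mem_dedup.2 (List.mem_toFinset.1 v.2), ?_⟩
        rw [decide_eq_true_iff, hx1]
        exact hvp
      cases hl : L.dedup.filter fun u => decide (rkL lt4 Prod.fst L.dedup u = p) with
      | nil =>
        rw [hl] at hvm
        exact absurd hvm List.not_mem_nil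
      | cons u M =>
        have hu : u ∈ L.dedup.filter fun u => decide (rkL lt4 Prod.fst L.dedup u = p) := by
          rw [hl]
          exact List.mem_cons_self
        rw [List.mem_filter, decide_eq_true_iff, hx1] at hu
        have hu1 : u ∈ L.toFinset := List.mem_toFinset.2 (List.mem_dedup.1 hu.1)
        rw [List.head?_cons, rk_inj hx hu1 v.2 (hu.2.trans hvp.symm)]
    rw [e2, Option.getD_some, hy1]
    exact e1.symm

theorem oneLine_injective : Function.Injective oneLine := by
  intro s t h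
  have h1 : s.n = t.n := by
    have h2 := congrArg List.length h
    simpa [oneLine] using h2
  obtain ⟨n, p⟩ := s
  obtain ⟨m, q⟩ := t
  obtain rfl : n = m := h1
  have h3 := List.ofFn_injective h
  have h4 : p = q := by
    ext i
    exact congrFun h3 i
  rw [h4]

theorem length_oneLine (t : FPerm) : (oneLine t).length = t.n := by
  simp [oneLine]

end Pool.Agent.W_58hard_h42
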