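import Pool.Agent.W_58hard_h42.Pts
import Pool.Agent.PolyTimeCL.NP

/-!
# MP_58cc3c_co, hardness: from satisfiability to pattern containment

Clauses `c < m`, literal number `k` of the clause `c`. Column `c` and row `c` have the first
coordinate `2 c + 1`; the second coordinate is the slot of a literal (in the rows in decreasing
order), then the offset. The boundaries of the columns and rows carry increasing runs of `M`
points (first coordinate `2 j`); the runs of the column boundaries are above all rows, those of the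
row boundaries are to the right of all columns; every run is to the left of and above the next one.
-/

namespace Pool.Agent.W_58hard_h42

open Pool.Agent.W_58cc_h2 Pool.Agent.PolyTime

/-- The clause number `c`. -/
def cl (φ : CNF ℕ) (c : ℕ) : List (ℕ × Bool) := (φ[c]?).getD []

/-- The number of literals of the clause number `c`. -/
def len (φ : CNF ℕ) (c : ℕ) : ℕ := (cl φ c).length

/-- The literal number `k` of the clause number `c`. -/
def lit (φ : CNF ℕ) (c k : ℕ) : ℕ × Bool := ((cl φ c)[k]?).getD (0, false)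

/-- The literals do not contradict each other. -/
def cmp (φ : CNF ℕ) (c k d l : ℕ) : Bool :=
  !decide ((lit φ c k).1 = (lit φ d l).1) || decide ((lit φ c k).2 = (lit φ d l).2)

/-- A bound for the lengths of the clauses. -/
def KK (φ : CNF ℕ) : ℕ := φ.flatten.length

/-- Corner points. -/
def gd (m K c k i : ℕ) : P4 :=
  ((2 * c + 1, k, i * (m + 1), 0), (2 * c + 1, K - k, i * (m + 1), 0))

/-- Points of pairs of literals. -/
def ed (K c k d l : ℕ) : P4 := ((2 * d + 1, l, 1 + c, k), (2 * c + 1, K - k, 1 + d, l))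

/-- Main points of the text. -/
def mainT (φ : CNF ℕ) : List P4 :=
  ((List.range φ.length).flatMap fun c => (List.range (len φ c)).flatMap fun k =>
    [gd φ.length (KK φ) c k 0, gd φ.length (KK φ) c k 1]) ++
  ((List.range φ.length).flatMap fun c => (List.range φ.length).flatMap fun d =>
    (List.range (len φ c)).flatMap fun k => (List.range (len φ d)).flatMap fun l =>
      if decide (c < d) && cmp φ c k d l then [ed (KK φ) c k d l] else [])

/-- Main points of the pattern. -/
def mainP (m : ℕ) : List P4 :=
  ((List.range m).flatMap fun c => [gd m 0 c 0 0, gd m 0 c 0 1]) ++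
  ((List.range m).flatMap fun c => (List.range m).flatMap fun d =>
    if decide (c < d) then [ed 0 c 0 d 0] else [])

/-- The point number `i` of the run of the column boundary `j`. -/
def rs (m j i : ℕ) : P4 := ((2 * j, i, 0, 0), (3 * m + 1 - j, i, 0, 0))

/-- The point number `i` of the run of the row boundary `j`. -/
def rt (m j i : ℕ) : P4 := ((3 * m + 1 - j, i, 0, 0), (2 * j, i, 0, 0))

/-- The runs. -/
def runs (m M : ℕ) : List P4 :=
  (List.range (m + 1)).flatMap fun j => (List.range M).flatMap fun i => [rs m j i, rt m j i]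

/-- The length of the runs. -/
def MM (φ : CNF ℕ) : ℕ := (mainT φ).length + (mainP φ.length).length + 1

/-- The points of the text. -/
def text (φ : CNF ℕ) : List P4 := mainT φ ++ runs φ.length (MM φ)

/-- The points of the pattern. -/
def patt (φ : CNF ℕ) : List P4 := mainP φ.length ++ runs φ.length (MM φ)

theorem len_le_KK (φ : CNF ℕ) {c : ℕ} (hc : c < φ.length) : len φ c ≤ KK φ := by
  have h1 : cl φ c = φ[c] := by
    simp [cl, List.getElem?_eq_getElem hc]
  have h2 : φ[c] ∈ φ := List.getElem_mem hc
  have h3 : (φ[c]).length ≤ (φ.map List.length).sum :=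
    List.single_le_sum (by simp) _ (List.mem_map_of_mem h2)
  rw [len, h1, KK, List.length_flatten]
  exact h3

theorem mem_mainT {φ : CNF ℕ} {u : P4} : u ∈ mainT φ ↔
    (∃ c k i, c < φ.length ∧ k < len φ c ∧ i < 2 ∧ u = gd φ.length (KK φ) c k i) ∨
    (∃ c k d l, c < d ∧ d < φ.length ∧ k < len φ c ∧ l < len φ d ∧ cmp φ c k d l = true ∧
      u = ed (KK φ) c k d l) := by
  unfold mainT
  rw [List.mem_append]
  refine or_congr ?_ ?_
  · simp only [List.mem_flatMap, List.mem_range, List.mem_cons, List.not_mem_nil, or_false]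
    constructor
    · rintro ⟨c, hc, k, hk, h | h⟩
      · exact ⟨c, k, 0, hc, hk, by norm_num, h⟩
      · exact ⟨c, k, 1, hc, hk, by norm_num, h⟩
    · rintro ⟨c, k, i, hc, hk, hi, h⟩
      refine ⟨c, hc, k, hk, ?_⟩
      interval_cases i
      · exact Or.inl h
      · exact Or.inr h
  · simp only [List.mem_flatMap, List.mem_range]
    constructor
    · rintro ⟨c, hc, d, hd, k, hk, l, hl, h⟩
      by_cases hb : (decide (c < d) && cmp φ c k d l) = true
      · rw [if_pos hb] at h
        rw [Bool.and_eq_true, decide_eq_true_eq] at hb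
        exact ⟨c, k, d, l, hb.1, hd, hk, hl, hb.2, List.mem_singleton.1 h⟩
      · rw [if_neg hb] at h
        exact absurd h List.not_mem_nil
    · rintro ⟨c, k, d, l, hcd, hd, hk, hl, hc, h⟩
      refine ⟨c, hcd.trans hd, d, hd, k, hk, l, hl, ?_⟩
      rw [if_pos (by rw [Bool.and_eq_true, decide_eq_true_eq]; exact ⟨hcd, hc⟩)]
      exact List.mem_singleton.2 h

theorem mem_mainP {m : ℕ} {u : P4} : u ∈ mainP m ↔
    (∃ c i, c < m ∧ i < 2 ∧ u = gd m 0 c 0 i) ∨
    (∃ c d, c < d ∧ d < m ∧ u = ed 0 c 0 d 0) := by
  unfold mainP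
  rw [List.mem_append]
  refine or_congr ?_ ?_
  · simp only [List.mem_flatMap, List.mem_range, List.mem_cons, List.not_mem_nil, or_false]
    constructor
    · rintro ⟨c, hc, h | h⟩
      · exact ⟨c, 0, hc, by norm_num, h⟩
      · exact ⟨c, 1, hc, by norm_num, h⟩
    · rintro ⟨c, i, hc, hi, h⟩
      refine ⟨c, hc, ?_⟩
      interval_cases i
      · exact Or.inl h
      · exact Or.inr h
  · simp only [List.mem_flatMap, List.mem_range]
    constructor
    · rintro ⟨c, hc, d, hd, h⟩
      by_cases hb : decide (c < d) = true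
      · rw [if_pos hb] at h
        exact ⟨c, d, of_decide_eq_true hb, hd, List.mem_singleton.1 h⟩
      · rw [if_neg hb] at h
        exact absurd h List.not_mem_nil
    · rintro ⟨c, d, hcd, hd, h⟩
      refine ⟨c, hcd.trans hd, d, hd, ?_⟩
      rw [if_pos (decide_eq_true hcd)]
      exact List.mem_singleton.2 h

theorem mem_runs {m M : ℕ} {u : P4} : u ∈ runs m M ↔
    ∃ j i, j ≤ m ∧ i < M ∧ (u = rs m j i ∨ u = rt m j i) := by
  unfold runs
  simp only [List.mem_flatMap, List.mem_range, List.mem_cons, List.not_mem_nil, or_false]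
  constructor
  · rintro ⟨j, hj, i, hi, h⟩
    exact ⟨j, i, Nat.lt_succ_iff.1 hj, hi, h⟩
  · rintro ⟨j, i, hj, hi, h⟩
    exact ⟨j, Nat.lt_succ_iff.2 hj, i, hi, h⟩

/-- The pattern embeds in the text. -/
def EmbPT (φ : CNF ℕ) (g : P4 → P4) : Prop :=
  (∀ v ∈ (patt φ).toFinset, g v ∈ (text φ).toFinset) ∧
    ∀ u ∈ (patt φ).toFinset, ∀ v ∈ (patt φ).toFinset,
      (lx u v ↔ lx (g u) (g v)) ∧ (ly u v ↔ ly (g u) (g v))

end Pool.Agent.W_58hard_h42
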