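import Pool.Agent.W_58hard_h42.Sat

/-!
# MP_58cc3c_co, hardness: the runs are mapped to the runs
-/

namespace Pool.Agent.W_58hard_h42

open Pool.Agent.W_58cc_h2 Pool.Agent.PolyTime

/-- The point number `i` of the run number `t`, `t = 0, …, 2 m + 1`: first the column boundaries
`0, …, m`, then the row boundaries `m, …, 0`. -/
def run (m t i : ℕ) : P4 := if t ≤ m then rs m t i else rt m (2 * m + 1 - t) i

theorem SatA_left {m t t' i i' : ℕ} (h : t < t') (ht' : t' ≤ 2 * m + 1) :
    lx (run m t i) (run m t' i') := by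
  unfold lx
  rw [lt4_iff]
  left
  unfold run
  split_ifs with h1 h2 h2
  · simp only [rs]; omega
  · simp only [rs, rt]; omega
  · omega
  · simp only [rt]; omega

theorem SatA_above {m t t' i i' : ℕ} (h : t < t') (ht' : t' ≤ 2 * m + 1) :
    ly (run m t' i') (run m t i) := by
  unfold ly
  rw [lt4_iff]
  left
  unfold run
  split_ifs with h1 h2 h2
  · simp only [rs]; omega
  · omega
  · simp only [rs, rt]; omega
  · simp only [rt]; omega

theorem SatA_lx_same {m t i i' : ℕ} : lx (run m t i) (run m t i') ↔ i < i' := by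
  unfold lx
  rw [lt4_iff]
  unfold run
  split_ifs with h1
  · simp [rs]
  · simp [rt]

theorem SatA_ly_same {m t i i' : ℕ} : ly (run m t i) (run m t i') ↔ i < i' := by
  unfold ly
  rw [lt4_iff]
  unfold run
  split_ifs with h1
  · simp [rs]
  · simp [rt]

theorem SatA_asymm {a b : P4} (h1 : lx a b) (h2 : lx b a) : False := by
  unfold lx at h1 h2
  rw [lt4_iff] at h1 h2
  omega

theorem SatA_mem {φ : CNF ℕ} {t i : ℕ} (ht : t ≤ 2 * φ.length + 1) (hi : i < MM φ) :
    run φ.length t i ∈ (patt φ).toFinset := by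
  rw [List.mem_toFinset]
  unfold patt
  rw [List.mem_append]
  right
  rw [mem_runs]
  unfold run
  split_ifs with h1
  · exact ⟨t, i, h1, hi, Or.inl rfl⟩
  · exact ⟨2 * φ.length + 1 - t, i, by omega, hi, Or.inr rfl⟩

theorem SatA_run {m M : ℕ} {u : P4} (h : u ∈ runs m M) :
    ∃ t i, t ≤ 2 * m + 1 ∧ i < M ∧ u = run m t i := by
  rw [mem_runs] at h
  obtain ⟨j, i, hj, hi, rfl | rfl⟩ := h
  · exact ⟨j, i, by omega, hi, by rw [run, if_pos hj]⟩
  · refine ⟨2 * m + 1 - j, i, by omega, hi, ?_⟩
    rw [run, if_neg (by omega), show 2 * m + 1 - (2 * m + 1 - j) = j by omega]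

/-- One of the points of the run is mapped to a run. -/
theorem SatA_hit {φ : CNF ℕ} {g : P4 → P4} (hg : EmbPT φ g) {t : ℕ}
    (ht : t ≤ 2 * φ.length + 1) :
    ∃ i < MM φ, g (run φ.length t i) ∈ runs φ.length (MM φ) := by
  by_contra hcon
  push Not at hcon
  have h1 : ∀ i ∈ Finset.range (MM φ), g (run φ.length t i) ∈ (mainT φ).toFinset := by
    intro i hi
    rw [Finset.mem_range] at hi
    have h2 := hg.1 _ (SatA_mem ht hi)
    rw [List.mem_toFinset] at h2 ⊢
    unfold text at h2
    rw [List.mem_append] at h2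
    exact h2.resolve_right (hcon i hi)
  have hlt : ∀ i j : ℕ, i < MM φ → j < MM φ → i < j →
      g (run φ.length t i) ≠ g (run φ.length t j) := by
    intro i j hi hj hij he
    have h3 := (hg.2 _ (SatA_mem ht hi) _ (SatA_mem ht hj)).1.1 (SatA_lx_same.2 hij)
    rw [he] at h3
    exact SatA_asymm h3 h3
  have hinj : Set.InjOn (fun i => g (run φ.length t i)) (Finset.range (MM φ) : Set ℕ) := by
    intro i hi j hj hij
    simp only [Finset.coe_range, Set.mem_Iio] at hi hj
    rcases lt_trichotomy i j with h | h | h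
    · exact absurd hij (hlt i j hi hj h)
    · exact h
    · exact absurd hij.symm (hlt j i hj hi h)
  have h4 := Finset.card_le_card_of_injOn (fun i => g (run φ.length t i)) h1 hinj
  have h5 := List.toFinset_card_le (mainT φ)
  rw [Finset.card_range] at h4
  unfold MM at h4
  omega

/-- A strictly increasing map of `{0, …, n}` to itself is the identity. -/
theorem SatA_id {n : ℕ} (f : ℕ → ℕ) (h1 : ∀ t t', t < t' → t' ≤ n → f t < f t')
    (h2 : ∀ t ≤ n, f t ≤ n) : ∀ t ≤ n, f t = t := by
  have h3 : ∀ t ≤ n, t ≤ f t := by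
    intro t
    induction t with
    | zero => intro _; omega
    | succ t ih =>
      intro ht
      have h4 := ih (by omega)
      have h5 := h1 t (t + 1) (by omega) ht
      omega
  have h6 : ∀ k, ∀ t, t + k = n → f t + k ≤ n := by
    intro k
    induction k with
    | zero => intro t ht; simpa using h2 t (by omega)
    | succ k ih =>
      intro t ht
      have h7 := ih (t + 1) (by omega)
      have h8 := h1 t (t + 1) (by omega) (by omega)
      omega
  intro t ht
  have h9 := h3 t ht
  have h10 := h6 (n - t) t (by omega)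
  omega

/-- Every run of the pattern has a point which is mapped to the same run of the text.

Proof. Points of the run `t` are increasing, `lx` and `ly`; a point of the run `t` is left of and
above every point of the run `t' > t`. The images of the `M` points of the run `t` are different,
and `M > |mainT|`; so at least one of them is in a run `f t`. For `t < t'` the image point in
`f t` is left of and above the one in `f t'`, so `f t < f t'` (in one run the points are
increasing). So `f` is strictly increasing from `{0, …, 2 m + 1}` to itself, `f t = t`. -/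
theorem anchor {φ : CNF ℕ} {g : P4 → P4} (hg : EmbPT φ g) {t : ℕ} (ht : t ≤ 2 * φ.length + 1) :
    ∃ i < MM φ, ∃ i' < MM φ, g (run φ.length t i) = run φ.length t i' := by
  have key : ∀ t, ∃ i s i', t ≤ 2 * φ.length + 1 → (i < MM φ ∧ s ≤ 2 * φ.length + 1 ∧ i' < MM φ ∧
      g (run φ.length t i) = run φ.length s i') := by
    intro t
    by_cases ht : t ≤ 2 * φ.length + 1
    · obtain ⟨i, hi, h1⟩ := SatA_hit hg ht
      obtain ⟨s, i', hs, hi', h2⟩ := SatA_run h1
      exact ⟨i, s, i', fun _ => ⟨hi, hs, hi', h2⟩⟩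
    · exact ⟨0, 0, 0, fun h => absurd h ht⟩
  choose a f b hab using key
  have hmono : ∀ t t', t < t' → t' ≤ 2 * φ.length + 1 → f t < f t' := by
    intro t t' htt ht'
    obtain ⟨h1, h2, h3, h4⟩ := hab t (by omega)
    obtain ⟨h1', h2', h3', h4'⟩ := hab t' ht'
    have e1 := (hg.2 _ (SatA_mem (by omega : t ≤ 2 * φ.length + 1) h1) _
      (SatA_mem ht' h1')).1.1 (SatA_left htt ht')
    have e2 := (hg.2 _ (SatA_mem ht' h1') _
      (SatA_mem (by omega : t ≤ 2 * φ.length + 1) h1)).2.1 (SatA_above htt ht')
    rw [h4, h4'] at e1 e2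
    by_contra hcon
    rcases lt_or_eq_of_le (not_lt.1 hcon) with h | h
    · exact SatA_asymm e1 (SatA_left h h2)
    · rw [h] at e1 e2
      have e3 := SatA_lx_same.1 e1
      have e4 := SatA_ly_same.1 e2
      omega
  have hid := SatA_id f hmono (fun t ht => (hab t ht).2.1) t ht
  obtain ⟨h1, h2, h3, h4⟩ := hab t ht
  rw [hid] at h4
  exact ⟨a t, h1, b t, h3, h4⟩

end Pool.Agent.W_58hard_h42
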