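import Pool.Agent.W_58hard_h42.SatH

/-!
# MP_58cc3c_co, hardness: from assignments to embeddings
-/

namespace Pool.Agent.W_58hard_h42

open Pool.Agent.W_58cc_h2 Pool.Agent.PolyTime

/-- The embedding of the pattern given by a choice of literals. -/
private def gg (K : ℕ) (k : ℕ → ℕ) (u : P4) : P4 :=
  if u.1.1 % 2 = 1 ∧ u.2.1 % 2 = 1 then
    ((u.1.1, k (u.1.1 / 2), u.1.2.2.1, if u.1.1 = u.2.1 then 0 else k (u.2.1 / 2)),
      (u.2.1, K - k (u.2.1 / 2), u.2.2.2.1, if u.1.1 = u.2.1 then 0 else k (u.1.1 / 2)))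
  else u

private theorem gg_gd (K : ℕ) (k : ℕ → ℕ) (m c i : ℕ) :
    gg K k (gd m 0 c 0 i) = gd m K c (k c) i := by
  have h1 : (2 * c + 1) % 2 = 1 := by omega
  have h2 : (2 * c + 1) / 2 = c := by omega
  simp [gg, gd, h1, h2]

private theorem gg_ed (K : ℕ) (k : ℕ → ℕ) {c d : ℕ} (h : c < d) :
    gg K k (ed 0 c 0 d 0) = ed K c (k c) d (k d) := by
  have h1 : ∀ c : ℕ, (2 * c + 1) % 2 = 1 := fun c => by omega
  have h2 : ∀ c : ℕ, (2 * c + 1) / 2 = c := fun c => by omega
  have h3 : d ≠ c := by omega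
  simp [gg, ed, h1, h2, h3]

private theorem gg_rs (K : ℕ) (k : ℕ → ℕ) (m j i : ℕ) : gg K k (rs m j i) = rs m j i := by
  simp [gg, rs]

private theorem gg_rt (K : ℕ) (k : ℕ → ℕ) (m j i : ℕ) : gg K k (rt m j i) = rt m j i := by
  simp [gg, rt]

/-- The four kinds of points of the pattern with their images. -/
private inductive Kd (m K : ℕ) (k : ℕ → ℕ) : P4 → P4 → Prop
  | gd (c i : ℕ) : c < m → i < 2 → Kd m K k (gd m 0 c 0 i) (gd m K c (k c) i)
  | ed (c d : ℕ) : c < d → d < m → Kd m K k (ed 0 c 0 d 0) (ed K c (k c) d (k d))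
  | rs (j i : ℕ) : j ≤ m → Kd m K k (rs m j i) (rs m j i)
  | rt (j i : ℕ) : j ≤ m → Kd m K k (rt m j i) (rt m j i)

private theorem kd_lx {m K : ℕ} {k : ℕ → ℕ} {u u' v v' : P4} (hu : Kd m K k u u')
    (hv : Kd m K k v v') : lx u v ↔ lx u' v' := by
  unfold lx
  rw [lt4_iff, lt4_iff]
  cases hu with
  | gd c i hc hi =>
    cases hv with
    | gd c' i' hc' hi' =>
      simp only [gd, true_and]
      rcases eq_or_ne c c' with rfl | h
      · interval_cases i <;> interval_cases i' <;> omega
      · omega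
    | ed c' d' hc' hd' =>
      simp only [gd, ed, true_and]
      rcases eq_or_ne c d' with rfl | h
      · interval_cases i <;> omega
      · omega
    | rs j' i' hj' => simp only [gd, rs]; omega
    | rt j' i' hj' => simp only [gd, rt]; omega
  | ed c d hc hd =>
    cases hv with
    | gd c' i' hc' hi' =>
      simp only [gd, ed, true_and]
      rcases eq_or_ne d c' with rfl | h
      · interval_cases i' <;> omega
      · omega
    | ed c' d' hc' hd' =>
      simp only [ed, true_and]
      rcases eq_or_ne d d' with rfl | h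
      · rcases eq_or_ne c c' with rfl | h2
        · omega
        · omega
      · omega
    | rs j' i' hj' => simp only [ed, rs]; omega
    | rt j' i' hj' => simp only [ed, rt]; omega
  | rs j i hj =>
    cases hv with
    | gd c' i' hc' hi' => simp only [gd, rs]; omega
    | ed c' d' hc' hd' => simp only [ed, rs]; omega
    | rs j' i' hj' => exact Iff.rfl
    | rt j' i' hj' => exact Iff.rfl
  | rt j i hj =>
    cases hv with
    | gd c' i' hc' hi' => simp only [gd, rt]; omega
    | ed c' d' hc' hd' => simp only [ed, rt]; omega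
    | rs j' i' hj' => exact Iff.rfl
    | rt j' i' hj' => exact Iff.rfl

private theorem kd_ly {m K : ℕ} {k : ℕ → ℕ} {u u' v v' : P4} (hu : Kd m K k u u')
    (hv : Kd m K k v v') : ly u v ↔ ly u' v' := by
  unfold ly
  rw [lt4_iff, lt4_iff]
  cases hu with
  | gd c i hc hi =>
    cases hv with
    | gd c' i' hc' hi' =>
      simp only [gd, true_and]
      rcases eq_or_ne c c' with rfl | h
      · interval_cases i <;> interval_cases i' <;> omega
      · omega
    | ed c' d' hc' hd' =>
      simp only [gd, ed, true_and]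
      rcases eq_or_ne c c' with rfl | h
      · interval_cases i <;> omega
      · omega
    | rs j' i' hj' => simp only [gd, rs]; omega
    | rt j' i' hj' => simp only [gd, rt]; omega
  | ed c d hc hd =>
    cases hv with
    | gd c' i' hc' hi' =>
      simp only [gd, ed, true_and]
      rcases eq_or_ne c c' with rfl | h
      · interval_cases i' <;> omega
      · omega
    | ed c' d' hc' hd' =>
      simp only [ed, true_and]
      rcases eq_or_ne c c' with rfl | h
      · rcases eq_or_ne d d' with rfl | h2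
        · omega
        · omega
      · omega
    | rs j' i' hj' => simp only [ed, rs]; omega
    | rt j' i' hj' => simp only [ed, rt]; omega
  | rs j i hj =>
    cases hv with
    | gd c' i' hc' hi' => simp only [gd, rs]; omega
    | ed c' d' hc' hd' => simp only [ed, rs]; omega
    | rs j' i' hj' => exact Iff.rfl
    | rt j' i' hj' => exact Iff.rfl
  | rt j i hj =>
    cases hv with
    | gd c' i' hc' hi' => simp only [gd, rt]; omega
    | ed c' d' hc' hd' => simp only [ed, rt]; omega
    | rs j' i' hj' => exact Iff.rfl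
    | rt j' i' hj' => exact Iff.rfl

/-- From a satisfying assignment to an embedding: the runs are fixed, `gd m 0 c 0 i` goes to
`gd m K c (k c) i` and `ed 0 c 0 d 0` to `ed K c (k c) d (k d)`. -/
theorem emb_of_sat {φ : CNF ℕ} (h : φ.Sat) : ∃ g, EmbPT φ g := by
  obtain ⟨k, hk, hcmp⟩ := (sat_iff_choice φ).1 h
  have key : ∀ u ∈ (patt φ).toFinset,
      Kd φ.length (KK φ) k u (gg (KK φ) k u) ∧ gg (KK φ) k u ∈ (text φ).toFinset := by
    intro u hu
    rw [List.mem_toFinset, patt, List.mem_append, mem_mainP, mem_runs] at hu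
    rcases hu with (⟨c, i, hc, hi, rfl⟩ | ⟨c, d, hc, hd, rfl⟩) | ⟨j, i, hj, hi, rfl | rfl⟩
    · rw [gg_gd]
      refine ⟨Kd.gd c i hc hi, ?_⟩
      rw [List.mem_toFinset, text, List.mem_append, mem_mainT]
      exact Or.inl (Or.inl ⟨c, k c, i, hc, hk c hc, hi, rfl⟩)
    · rw [gg_ed _ _ hc]
      refine ⟨Kd.ed c d hc hd, ?_⟩
      rw [List.mem_toFinset, text, List.mem_append, mem_mainT]
      exact Or.inl (Or.inr ⟨c, k c, d, k d, hc, hd, hk c (by omega), hk d hd, hcmp c d hc hd, rfl⟩)
    · rw [gg_rs]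
      refine ⟨Kd.rs j i hj, ?_⟩
      rw [List.mem_toFinset, text, List.mem_append, mem_runs]
      exact Or.inr ⟨j, i, hj, hi, Or.inl rfl⟩
    · rw [gg_rt]
      refine ⟨Kd.rt j i hj, ?_⟩
      rw [List.mem_toFinset, text, List.mem_append, mem_runs]
      exact Or.inr ⟨j, i, hj, hi, Or.inr rfl⟩
  exact ⟨gg (KK φ) k, fun v hv => (key v hv).2, fun u hu v hv =>
    ⟨kd_lx (key u hu).1 (key v hv).1, kd_ly (key u hu).1 (key v hv).1⟩⟩

end Pool.Agent.W_58hard_h42
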