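import Pool.Agent.W_58hard_h42.SatA

/-!
# MP_58cc3c_co, hardness: main points are mapped to main points of the same cell
-/

namespace Pool.Agent.W_58hard_h42

open Pool.Agent.W_58cc_h2 Pool.Agent.PolyTime

theorem SatC_run_mem {φ : CNF ℕ} {t i : ℕ} (ht : t ≤ 2 * φ.length + 1) (hi : i < MM φ) :
    run φ.length t i ∈ (patt φ).toFinset := by
  rw [List.mem_toFinset, patt, List.mem_append]
  refine Or.inr (mem_runs.2 ?_)
  unfold run
  split_ifs with h
  · exact ⟨t, i, h, hi, Or.inl rfl⟩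
  · exact ⟨2 * φ.length + 1 - t, i, by omega, hi, Or.inr rfl⟩

theorem SatC_main_mem {φ : CNF ℕ} {u : P4} (hu : u ∈ mainP φ.length) : u ∈ (patt φ).toFinset := by
  rw [List.mem_toFinset, patt, List.mem_append]
  exact Or.inl hu

theorem SatC_lx_lt {u v : P4} (h : u.1.1 < v.1.1) : lx u v := (lt4_iff _ _).2 (Or.inl h)

theorem SatC_ly_lt {u v : P4} (h : u.2.1 < v.2.1) : ly u v := (lt4_iff _ _).2 (Or.inl h)

theorem SatC_lx_le {u v : P4} (h : lx u v) : u.1.1 ≤ v.1.1 := by
  rcases (lt4_iff _ _).1 h with h1 | h1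
  · exact h1.le
  · exact h1.1.le

theorem SatC_ly_le {u v : P4} (h : ly u v) : u.2.1 ≤ v.2.1 := by
  rcases (lt4_iff _ _).1 h with h1 | h1
  · exact h1.le
  · exact h1.1.le

theorem SatC_col {φ : CNF ℕ} {g : P4 → P4} (hg : EmbPT φ g) {u : P4}
    (hu : u ∈ (patt φ).toFinset) {a : ℕ} (ha : a < φ.length) (h : u.1.1 = 2 * a + 1) :
    2 * a ≤ (g u).1.1 ∧ (g u).1.1 ≤ 2 * a + 2 := by
  constructor
  · obtain ⟨i, hi, i', -, he⟩ := anchor hg (t := a) (by omega)
    have h1 : (run φ.length a i).1.1 = 2 * a := by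
      rw [run, if_pos ha.le]
      rfl
    have h1' : (run φ.length a i').1.1 = 2 * a := by
      rw [run, if_pos ha.le]
      rfl
    have h2 : lx (run φ.length a i) u := SatC_lx_lt (by omega)
    have h3 := SatC_lx_le ((hg.2 _ (SatC_run_mem (by omega) hi) _ hu).1.1 h2)
    rw [he, h1'] at h3
    exact h3
  · obtain ⟨i, hi, i', -, he⟩ := anchor hg (t := a + 1) (by omega)
    have h1 : (run φ.length (a + 1) i).1.1 = 2 * (a + 1) := by
      rw [run, if_pos (by omega)]
      rfl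
    have h1' : (run φ.length (a + 1) i').1.1 = 2 * (a + 1) := by
      rw [run, if_pos (by omega)]
      rfl
    have h2 : lx u (run φ.length (a + 1) i) := SatC_lx_lt (by omega)
    have h3 := SatC_lx_le ((hg.2 _ hu _ (SatC_run_mem (by omega) hi)).1.1 h2)
    rw [he, h1'] at h3
    omega

theorem SatC_row {φ : CNF ℕ} {g : P4 → P4} (hg : EmbPT φ g) {u : P4}
    (hu : u ∈ (patt φ).toFinset) {b : ℕ} (hb : b < φ.length) (h : u.2.1 = 2 * b + 1) :
    2 * b ≤ (g u).2.1 ∧ (g u).2.1 ≤ 2 * b + 2 := by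
  have hr : ∀ (b i : ℕ), b ≤ φ.length → (run φ.length (2 * φ.length + 1 - b) i).2.1 = 2 * b := by
    intro b i hb
    rw [run, if_neg (by omega)]
    show 2 * (2 * φ.length + 1 - (2 * φ.length + 1 - b)) = 2 * b
    omega
  constructor
  · obtain ⟨i, hi, i', -, he⟩ := anchor hg (t := 2 * φ.length + 1 - b) (by omega)
    have h1 := hr b i hb.le
    have h1' := hr b i' hb.le
    have h2 : ly (run φ.length (2 * φ.length + 1 - b) i) u := SatC_ly_lt (by omega)
    have h3 := SatC_ly_le ((hg.2 _ (SatC_run_mem (by omega) hi) _ hu).2.1 h2)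
    rw [he, h1'] at h3
    exact h3
  · obtain ⟨i, hi, i', -, he⟩ := anchor hg (t := 2 * φ.length + 1 - (b + 1)) (by omega)
    have h1 := hr (b + 1) i hb
    have h1' := hr (b + 1) i' hb
    have h2 : ly u (run φ.length (2 * φ.length + 1 - (b + 1)) i) := SatC_ly_lt (by omega)
    have h3 := SatC_ly_le ((hg.2 _ hu _ (SatC_run_mem (by omega) hi)).2.1 h2)
    rw [he, h1'] at h3
    omega

/-- A main point of the pattern in the column `c` and the row `r` is mapped to a main point of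
the text in the same column and row. (Compare with the anchors of the column boundaries `c`,
`c + 1` and of the row boundaries `r`, `r + 1`.) -/
theorem main_cell {φ : CNF ℕ} {g : P4 → P4} (hg : EmbPT φ g) {u : P4}
    (hu : u ∈ mainP φ.length) : g u ∈ mainT φ ∧ (g u).1.1 = u.1.1 ∧ (g u).2.1 = u.2.1 := by
  have hup := SatC_main_mem hu
  obtain ⟨a, b, ha, hb, h1, h2⟩ : ∃ a b, a < φ.length ∧ b < φ.length ∧ u.1.1 = 2 * a + 1 ∧
      u.2.1 = 2 * b + 1 := by
    rcases mem_mainP.1 hu with ⟨c, i, hc, -, rfl⟩ | ⟨c, d, hcd, hd, rfl⟩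
    · exact ⟨c, c, hc, hc, rfl, rfl⟩
    · exact ⟨d, c, hd, by omega, rfl, rfl⟩
  have hc := SatC_col hg hup ha h1
  have hr := SatC_row hg hup hb h2
  have ht := hg.1 u hup
  rw [List.mem_toFinset, text, List.mem_append] at ht
  have hT : g u ∈ mainT φ := by
    rcases ht with ht | ht
    · exact ht
    · obtain ⟨j, i, hj, -, he | he⟩ := mem_runs.1 ht
      · have e : (g u).2.1 = 3 * φ.length + 1 - j := by rw [he]; rfl
        omega
      · have e : (g u).1.1 = 3 * φ.length + 1 - j := by rw [he]; rfl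
        omega
  refine ⟨hT, ?_⟩
  rcases mem_mainT.1 hT with ⟨c, k, i, -, -, -, he⟩ | ⟨c, k, d, l, -, -, -, -, -, he⟩
  · have e1 : (g u).1.1 = 2 * c + 1 := by rw [he]; rfl
    have e2 : (g u).2.1 = 2 * c + 1 := by rw [he]; rfl
    omega
  · have e1 : (g u).1.1 = 2 * d + 1 := by rw [he]; rfl
    have e2 : (g u).2.1 = 2 * c + 1 := by rw [he]; rfl
    omega

end Pool.Agent.W_58hard_h42
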