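import Pool.Agent.W_58hard_h42.Sat

/-!
# MP_58cc3c_co, hardness: choices of literals
-/

namespace Pool.Agent.W_58hard_h42

open Pool.Agent.W_58cc_h2 Pool.Agent.PolyTime

private theorem sath_cl {φ : CNF ℕ} {c : ℕ} (hc : c < φ.length) : cl φ c = φ[c] := by
  unfold cl
  rw [List.getElem?_eq_getElem hc, Option.getD_some]

private theorem sath_lit_mem {φ : CNF ℕ} {c k : ℕ} (hk : k < len φ c) :
    lit φ c k ∈ cl φ c := by
  unfold lit
  have h : k < (cl φ c).length := hk
  rw [List.getElem?_eq_getElem h, Option.getD_some]
  exact List.getElem_mem h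

private theorem sath_cmp {φ : CNF ℕ} {c k d l : ℕ} :
    cmp φ c k d l = true ↔ ((lit φ c k).1 = (lit φ d l).1 → (lit φ c k).2 = (lit φ d l).2) := by
  unfold cmp
  by_cases h : (lit φ c k).1 = (lit φ d l).1 <;> simp [h]

/-- A choice of one literal in every clause without contradictions is the same as a satisfying
assignment. -/
theorem sat_iff_choice (φ : CNF ℕ) : φ.Sat ↔ ∃ k : ℕ → ℕ, (∀ c < φ.length, k c < len φ c) ∧
    ∀ c d, c < d → d < φ.length → cmp φ c (k c) d (k d) = true := by
  classical
  constructor
  · rintro ⟨a, ha⟩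
    have key : ∀ c, ∃ k, c < φ.length → k < len φ c ∧ a (lit φ c k).1 = (lit φ c k).2 := by
      intro c
      by_cases hc : c < φ.length
      · obtain ⟨l, hl, hal⟩ := ha (cl φ c) (by rw [sath_cl hc]; exact List.getElem_mem hc)
        obtain ⟨k, hk, hkl⟩ := List.getElem_of_mem hl
        refine ⟨k, fun _ => ⟨hk, ?_⟩⟩
        have e : lit φ c k = l := by
          unfold lit
          rw [List.getElem?_eq_getElem hk, Option.getD_some, hkl]
        rw [e]
        exact hal
      · exact ⟨0, fun h => absurd h hc⟩
    choose k hk using key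
    refine ⟨k, fun c hc => (hk c hc).1, fun c d hcd hd => sath_cmp.2 fun h => ?_⟩
    rw [← (hk c (hcd.trans hd)).2, ← (hk d hd).2, h]
  · rintro ⟨k, hk, hc⟩
    refine ⟨fun v => decide (∃ c < φ.length, lit φ c (k c) = (v, true)), fun cl' hcl' => ?_⟩
    obtain ⟨c, hc1, hc2⟩ := List.getElem_of_mem hcl'
    refine ⟨lit φ c (k c), ?_, ?_⟩
    · rw [← hc2, ← sath_cl hc1]
      exact sath_lit_mem (hk c hc1)
    · by_cases hb : (lit φ c (k c)).2 = true
      · rw [hb]
        exact decide_eq_true ⟨c, hc1, Prod.ext rfl hb⟩
      · have hb' : (lit φ c (k c)).2 = false := by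
          cases h : (lit φ c (k c)).2
          · rfl
          · exact absurd h hb
        rw [hb']
        refine decide_eq_false ?_
        rintro ⟨d, hd, hdl⟩
        have h1 : (lit φ d (k d)).1 = (lit φ c (k c)).1 := by rw [hdl]
        have h2 : (lit φ d (k d)).2 = true := by rw [hdl]
        rcases lt_trichotomy c d with h | h | h
        · have := sath_cmp.1 (hc c d h hd) h1.symm
          rw [hb', h2] at this
          exact absurd this (by decide)
        · subst h
          rw [hb'] at h2
          exact absurd h2 (by decide)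
        · have := sath_cmp.1 (hc d c h hc1) h1
          rw [hb', h2] at this
          exact absurd this (by decide)

end Pool.Agent.W_58hard_h42
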