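import Pool.Agent.W_58hard_h42.SatC
import Pool.Agent.W_58hard_h42.SatH

/-!
# MP_58cc3c_co, hardness: from embeddings to assignments
-/

namespace Pool.Agent.W_58hard_h42

open Pool.Agent.W_58cc_h2 Pool.Agent.PolyTime

private theorem satf_mem {φ : CNF ℕ} {u : P4} (hu : u ∈ mainP φ.length) :
    u ∈ (patt φ).toFinset := by
  rw [List.mem_toFinset]
  exact List.mem_append_left _ hu

private theorem satf_corner {φ : CNF ℕ} {g : P4 → P4} (hg : EmbPT φ g) {c : ℕ}
    (hc : c < φ.length) {i : ℕ} (hi : i < 2) : ∃ k j, k < len φ c ∧ j < 2 ∧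
      g (gd φ.length 0 c 0 i) = gd φ.length (KK φ) c k j := by
  have hm : gd φ.length 0 c 0 i ∈ mainP φ.length := mem_mainP.2 (Or.inl ⟨c, i, hc, hi, rfl⟩)
  obtain ⟨h1, h2, h3⟩ := main_cell hg hm
  rcases mem_mainT.1 h1 with ⟨c', k, j, hc', hk, hj, he⟩ | ⟨c', k, d', l, hcd, hd, hk, hl, -, he⟩
  · rw [he] at h2
    have h4 : 2 * c' + 1 = 2 * c + 1 := h2
    obtain rfl : c' = c := by omega
    exact ⟨k, j, hk, hj, he⟩
  · rw [he] at h2 h3
    have h4 : 2 * d' + 1 = 2 * c + 1 := h2
    have h5 : 2 * c' + 1 = 2 * c + 1 := h3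
    omega

private theorem satf_choice {φ : CNF ℕ} {g : P4 → P4} (hg : EmbPT φ g) {c : ℕ}
    (hc : c < φ.length) : ∃ k, k < len φ c ∧
      g (gd φ.length 0 c 0 0) = gd φ.length (KK φ) c k 0 ∧
      g (gd φ.length 0 c 0 1) = gd φ.length (KK φ) c k 1 := by
  obtain ⟨k, i, hk, hi, h0⟩ := satf_corner hg hc (i := 0) (by norm_num)
  obtain ⟨l, j, hl, hj, h1⟩ := satf_corner hg hc (i := 1) (by norm_num)
  have hK := len_le_KK φ hc
  have hm0 : gd φ.length 0 c 0 0 ∈ mainP φ.length :=
    mem_mainP.2 (Or.inl ⟨c, 0, hc, by norm_num, rfl⟩)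
  have hm1 : gd φ.length 0 c 0 1 ∈ mainP φ.length :=
    mem_mainP.2 (Or.inl ⟨c, 1, hc, by norm_num, rfl⟩)
  have hcmp := hg.2 _ (satf_mem hm0) _ (satf_mem hm1)
  rw [h0, h1] at hcmp
  have hx : lx (gd φ.length 0 c 0 0) (gd φ.length 0 c 0 1) := by
    unfold lx
    rw [lt4_iff]
    simp only [gd, true_and, zero_mul, one_mul]
    omega
  have hy : ly (gd φ.length 0 c 0 0) (gd φ.length 0 c 0 1) := by
    unfold ly
    rw [lt4_iff]
    simp only [gd, true_and, zero_mul, one_mul]
    omega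
  have hx' := hcmp.1.1 hx
  have hy' := hcmp.2.1 hy
  unfold lx at hx'
  unfold ly at hy'
  rw [lt4_iff] at hx' hy'
  simp only [gd, true_and, zero_mul, one_mul] at hx' hy'
  have hi' : i = 0 ∨ i = 1 := by omega
  have hj' : j = 0 ∨ j = 1 := by omega
  refine ⟨k, hk, ?_⟩
  rcases hi' with rfl | rfl <;> rcases hj' with rfl | rfl
  · omega
  · obtain rfl : l = k := by omega
    exact ⟨h0, h1⟩
  · omega
  · omega

/-- From an embedding to a satisfying assignment. For every clause `c` the two corner points of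
the pattern go to the corner points of one literal `k c`: in the cell (column `c`, row `c`) of the
text there are only corner points, and those of different literals are decreasing. The point
`ed 0 c 0 d 0` lies between the corner points of `d` (`lx`) and between those of `c` (`ly`), so it
goes to `ed K c (k c) d (k d)`. -/
theorem sat_of_emb {φ : CNF ℕ} {g : P4 → P4} (hg : EmbPT φ g) : φ.Sat := by
  have key : ∀ c, ∃ k, c < φ.length → k < len φ c ∧
      g (gd φ.length 0 c 0 0) = gd φ.length (KK φ) c k 0 ∧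
      g (gd φ.length 0 c 0 1) = gd φ.length (KK φ) c k 1 := by
    intro c
    by_cases hc : c < φ.length
    · obtain ⟨k, hk⟩ := satf_choice hg hc
      exact ⟨k, fun _ => hk⟩
    · exact ⟨0, fun h => absurd h hc⟩
  choose k hk using key
  refine (sat_iff_choice φ).2 ⟨k, fun c hc => (hk c hc).1, fun c d hcd hd => ?_⟩
  have hc : c < φ.length := hcd.trans hd
  have hv : ed 0 c 0 d 0 ∈ mainP φ.length := mem_mainP.2 (Or.inr ⟨c, d, hcd, hd, rfl⟩)
  obtain ⟨h1, h2, h3⟩ := main_cell hg hv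
  rcases mem_mainT.1 h1 with ⟨c', k', j, hc', hk', hj, he⟩ |
    ⟨c', k', d', l, hcd', hd', hk', hl, hcmp, he⟩
  · rw [he] at h2 h3
    have h4 : 2 * c' + 1 = 2 * d + 1 := h2
    have h5 : 2 * c' + 1 = 2 * c + 1 := h3
    omega
  · rw [he] at h2 h3
    have h4 : 2 * d' + 1 = 2 * d + 1 := h2
    have h5 : 2 * c' + 1 = 2 * c + 1 := h3
    obtain rfl : d' = d := by omega
    obtain rfl : c' = c := by omega
    have hKc := len_le_KK φ hc
    have hkc := (hk c' hc).1
    have mem : ∀ e i, e < φ.length → i < 2 → gd φ.length 0 e 0 i ∈ (patt φ).toFinset :=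
      fun e i h h' => satf_mem (mem_mainP.2 (Or.inl ⟨e, i, h, h', rfl⟩))
    have e1 := (hg.2 _ (mem d' 0 hd (by norm_num)) _ (satf_mem hv)).1.1
      (by unfold lx; rw [lt4_iff]; simp only [gd, ed, true_and, zero_mul, one_mul]; omega)
    have e2 := (hg.2 _ (satf_mem hv) _ (mem d' 1 hd (by norm_num))).1.1
      (by unfold lx; rw [lt4_iff]; simp only [gd, ed, true_and, zero_mul, one_mul]; omega)
    have e3 := (hg.2 _ (mem c' 0 hc (by norm_num)) _ (satf_mem hv)).2.1
      (by unfold ly; rw [lt4_iff]; simp only [gd, ed, true_and, zero_mul, one_mul]; omega)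
    have e4 := (hg.2 _ (satf_mem hv) _ (mem c' 1 hc (by norm_num))).2.1
      (by unfold ly; rw [lt4_iff]; simp only [gd, ed, true_and, zero_mul, one_mul]; omega)
    rw [he, (hk d' hd).2.1] at e1
    rw [he, (hk d' hd).2.2] at e2
    rw [he, (hk c' hc).2.1] at e3
    rw [he, (hk c' hc).2.2] at e4
    unfold lx at e1 e2
    unfold ly at e3 e4
    rw [lt4_iff] at e1 e2 e3 e4
    simp only [gd, ed, true_and, zero_mul, one_mul] at e1 e2 e3 e4
    obtain rfl : l = k d' := by omega
    obtain rfl : k' = k c' := by omega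
    exact hcmp

end Pool.Agent.W_58hard_h42
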