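import Pool.Agent.W_58cc_h2.Bridge
import Pool.Agent.W_58hard_h42.Defs

/-!
# MP_58cc3c_co, hardness: permutations of finite sets of points

A finite set `S` with two strict total orders `r` (from left to right) and `q` (from below to
above) defines a permutation `std r q S`. Containment of such permutations.
-/

namespace Pool.Agent.W_58hard_h42

open Pool.Agent.W_58cc_h2

/-- `r` is a strict total order on `S`. -/
structure STO {V : Type} (S : Finset V) (r : V → V → Prop) : Prop where
  irr : ∀ u ∈ S, ¬ r u u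
  tr : ∀ u ∈ S, ∀ v ∈ S, ∀ w ∈ S, r u v → r v w → r u w
  tot : ∀ u ∈ S, ∀ v ∈ S, u ≠ v → r u v ∨ r v u

theorem STO.mono {V : Type} {S T : Finset V} {r : V → V → Prop} (h : STO S r) (hT : T ⊆ S) :
    STO T r :=
  ⟨fun u hu => h.irr u (hT hu), fun u hu v hv w hw => h.tr u (hT hu) v (hT hv) w (hT hw),
    fun u hu v hv => h.tot u (hT hu) v (hT hv)⟩

open Classical in
/-- The number of elements of `S` before `v`. -/
noncomputable def rk {V : Type} (r : V → V → Prop) (S : Finset V) (v : V) : ℕ :=
  (S.filter fun u => r u v).card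

theorem rk_lt_card {V : Type} {r : V → V → Prop} {S : Finset V} (h : STO S r) {v : V}
    (hv : v ∈ S) : rk r S v < S.card := by
  classical
  unfold rk
  refine Finset.card_lt_card (Finset.filter_ssubset.2 ⟨v, hv, h.irr v hv⟩)

theorem Std_rk_lt {V : Type} {r : V → V → Prop} {S : Finset V} (h : STO S r) {u v : V}
    (hu : u ∈ S) (hv : v ∈ S) (huv : r u v) : rk r S u < rk r S v := by
  classical
  unfold rk
  refine Finset.card_lt_card (Finset.ssubset_iff_of_subset ?_ |>.2 ⟨u, ?_, ?_⟩)
  · intro w hw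
    rw [Finset.mem_filter] at hw ⊢
    exact ⟨hw.1, h.tr w hw.1 u hu v hv hw.2 huv⟩
  · exact Finset.mem_filter.2 ⟨hu, huv⟩
  · intro hw
    exact h.irr u hu (Finset.mem_filter.1 hw).2

theorem rk_lt_iff {V : Type} {r : V → V → Prop} {S : Finset V} (h : STO S r) {u v : V}
    (hu : u ∈ S) (hv : v ∈ S) : rk r S u < rk r S v ↔ r u v := by
  refine ⟨fun hlt => ?_, Std_rk_lt h hu hv⟩
  by_cases he : u = v
  · subst he
    exact absurd hlt (lt_irrefl _)
  · rcases h.tot u hu v hv he with h1 | h1
    · exact h1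
    · exact absurd (Std_rk_lt h hv hu h1) (not_lt.2 hlt.le)

theorem rk_inj {V : Type} {r : V → V → Prop} {S : Finset V} (h : STO S r) {u v : V}
    (hu : u ∈ S) (hv : v ∈ S) (huv : rk r S u = rk r S v) : u = v := by
  by_contra he
  rcases h.tot u hu v hv he with h1 | h1
  · exact absurd (Std_rk_lt h hu hv h1) (by omega)
  · exact absurd (Std_rk_lt h hv hu h1) (by omega)

/-- The numbering of `S` by the order `r`. -/
noncomputable def num {V : Type} {r : V → V → Prop} {S : Finset V} (h : STO S r) :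
    {v // v ∈ S} ≃ Fin S.card :=
  Equiv.ofBijective (fun v => ⟨rk r S v.1, rk_lt_card h v.2⟩)
    ((Fintype.bijective_iff_injective_and_card _).2
      ⟨fun u v huv => Subtype.ext (rk_inj h u.2 v.2 (congrArg Fin.val huv)), by simp⟩)

/-- The permutation of the points `S`: `r` is the order from left to right, `q` the order from
below to above. -/
noncomputable def std {V : Type} {r q : V → V → Prop} {S : Finset V} (hr : STO S r)
    (hq : STO S q) : FPerm :=
  ⟨S.card, (num hr).symm.trans (num hq)⟩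

theorem std_n {V : Type} {r q : V → V → Prop} {S : Finset V} (hr : STO S r) (hq : STO S q) :
    (std hr hq).n = S.card := rfl

theorem Std_num_lt {V : Type} {r : V → V → Prop} {S : Finset V} (h : STO S r)
    (u v : {v // v ∈ S}) : num h u < num h v ↔ r u.1 v.1 := by
  rw [Fin.lt_def]
  exact rk_lt_iff h u.2 v.2

theorem Std_p {V : Type} {r q : V → V → Prop} {S : Finset V} (hr : STO S r) (hq : STO S q)
    (i : Fin S.card) : (std hr hq).p i = num hq ((num hr).symm i) := rfl

theorem Std_symm_lt {V : Type} {r : V → V → Prop} {S : Finset V} (h : STO S r)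
    (i j : Fin S.card) : i < j ↔ r ((num h).symm i).1 ((num h).symm j).1 := by
  rw [← Std_num_lt h, Equiv.apply_symm_apply, Equiv.apply_symm_apply]

/-- A permutation given by points of `S` is a pattern of the permutation of `S`. -/
theorem Std_patLE {V : Type} {r q : V → V → Prop} {S : Finset V} (hr : STO S r) (hq : STO S q)
    (t : FPerm) (x : Fin t.n → V) (hx : ∀ i, x i ∈ S) (h1 : ∀ i j, i < j → r (x i) (x j))
    (h2 : ∀ i j, t.p i < t.p j ↔ q (x i) (x j)) : PatLE t (std hr hq) := by
  refine ⟨fun i => num hr ⟨x i, hx i⟩, fun i j hij => ?_, fun i j => ?_⟩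
  · exact (Std_num_lt hr _ _).2 (h1 i j hij)
  · rw [h2]
    have e : ∀ i, (std hr hq).p (num hr ⟨x i, hx i⟩) = num hq ⟨x i, hx i⟩ := by
      intro i
      have := Std_p hr hq (num hr ⟨x i, hx i⟩)
      rw [Equiv.symm_apply_apply] at this
      exact this
    rw [e, e]
    exact (Std_num_lt hq ⟨x i, hx i⟩ ⟨x j, hx j⟩).symm

/-- Containment of permutations of point sets. -/
theorem std_le_iff {V W : Type} [Nonempty W] {r q : V → V → Prop} {r' q' : W → W → Prop}
    {S : Finset V} {T : Finset W} (hr : STO S r) (hq : STO S q) (hr' : STO T r')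
    (hq' : STO T q') :
    PatLE (std hr hq) (std hr' hq') ↔ ∃ g : V → W, (∀ v ∈ S, g v ∈ T) ∧
      ∀ u ∈ S, ∀ v ∈ S, (r u v ↔ r' (g u) (g v)) ∧ (q u v ↔ q' (g u) (g v)) := by
  classical
  constructor
  · rintro ⟨f, hf, hf2⟩
    change Fin S.card → Fin T.card at f
    let k : {v // v ∈ S} → {w // w ∈ T} := fun v => (num hr').symm (f (num hr v))
    have hg : ∀ (v : V) (hv : v ∈ S),
        (if hv : v ∈ S then (k ⟨v, hv⟩).1 else Classical.arbitrary W) = (k ⟨v, hv⟩).1 :=
      fun v hv => dif_pos hv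
    refine ⟨fun v => if hv : v ∈ S then (k ⟨v, hv⟩).1 else Classical.arbitrary W,
      fun v hv => ?_, fun u hu v hv => ?_⟩
    · show (if hv : v ∈ S then (k ⟨v, hv⟩).1 else Classical.arbitrary W) ∈ T
      rw [hg v hv]
      exact (k ⟨v, hv⟩).2
    · show (r u v ↔ r' (if hv : u ∈ S then (k ⟨u, hv⟩).1 else Classical.arbitrary W)
          (if hv : v ∈ S then (k ⟨v, hv⟩).1 else Classical.arbitrary W)) ∧
        (q u v ↔ q' (if hv : u ∈ S then (k ⟨u, hv⟩).1 else Classical.arbitrary W)
          (if hv : v ∈ S then (k ⟨v, hv⟩).1 else Classical.arbitrary W))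
      rw [hg u hu, hg v hv]
      constructor
      · have h1 := Std_num_lt hr ⟨u, hu⟩ ⟨v, hv⟩
        have h2 : num hr ⟨u, hu⟩ < num hr ⟨v, hv⟩ ↔ f (num hr ⟨u, hu⟩) < f (num hr ⟨v, hv⟩) :=
          (StrictMono.lt_iff_lt hf).symm
        have h3 := Std_symm_lt hr' (f (num hr ⟨u, hu⟩)) (f (num hr ⟨v, hv⟩))
        exact h1.symm.trans (h2.trans h3)
      · have h1 := Std_num_lt hq ⟨u, hu⟩ ⟨v, hv⟩
        have h2 := hf2 (num hr ⟨u, hu⟩) (num hr ⟨v, hv⟩)
        have e : ∀ w, (std hr hq).p (num hr w) = num hq w := by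
          intro w
          have := Std_p hr hq (num hr w)
          rw [Equiv.symm_apply_apply] at this
          exact this
        rw [e, e] at h2
        have h3 := Std_num_lt hq' (k ⟨u, hu⟩) (k ⟨v, hv⟩)
        exact h1.symm.trans (h2.trans h3)
  · rintro ⟨g, hg, h⟩
    refine Std_patLE hr' hq' (std hr hq) (fun i => g ((num hr).symm i).1)
      (fun i => hg _ ((num hr).symm i).2) (fun i j hij => ?_) (fun i j => ?_)
    · exact (h _ ((num hr).symm i).2 _ ((num hr).symm j).2).1.1 ((Std_symm_lt hr i j).1 hij)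
    · rw [← (h _ ((num hr).symm i).2 _ ((num hr).symm j).2).2]
      exact Std_num_lt hq _ _

theorem Std_strictMono_id {n : ℕ} {f : Fin n → Fin n} (hf : StrictMono f) : f = id := by
  refine (hf.range_inj strictMono_id).1 ?_
  rw [Set.range_id]
  exact (Finite.injective_iff_surjective.1 hf.injective).range_eq

theorem Std_eq_of_patLE {s t : FPerm} (h : PatLE s t) (hn : t.n ≤ s.n) : s = t := by
  obtain ⟨f, hf, hf2⟩ := h
  have h1 : s.n ≤ t.n := by
    simpa using Fintype.card_le_of_injective f hf.injective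
  obtain ⟨n, p⟩ := s
  obtain ⟨m, p'⟩ := t
  obtain rfl : n = m := le_antisymm h1 hn
  have h2 : f = id := Std_strictMono_id hf
  subst h2
  have h3 : StrictMono (fun i => p' (p.symm i)) := by
    intro i j hij
    refine (hf2 (p.symm i) (p.symm j)).1 ?_
    show p (p.symm i) < p (p.symm j)
    rw [Equiv.apply_symm_apply, Equiv.apply_symm_apply]
    exact hij
  have h4 := Std_strictMono_id h3
  have h5 : p = p' := by
    ext i
    have h6 := congrFun h4 (p i)
    simp only [Equiv.symm_apply_apply, id] at h6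
    rw [h6]
  rw [h5]

/-- Every pattern of the permutation of `S` is the permutation of a subset. -/
theorem exists_sub {V : Type} {r q : V → V → Prop} {S : Finset V} (hr : STO S r) (hq : STO S q)
    {t : FPerm} (ht : PatLE t (std hr hq)) :
    ∃ (T : Finset V) (hT : T ⊆ S), t = std (hr.mono hT) (hq.mono hT) := by
  classical
  obtain ⟨f, hf, hf2⟩ := ht
  change Fin t.n → Fin S.card at f
  let x : Fin t.n → V := fun i => ((num hr).symm (f i)).1
  have hxS : ∀ i, x i ∈ S := fun i => ((num hr).symm (f i)).2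
  have hT : Finset.univ.image x ⊆ S := by
    intro v hv
    obtain ⟨i, -, rfl⟩ := Finset.mem_image.1 hv
    exact hxS i
  refine ⟨Finset.univ.image x, hT, Std_eq_of_patLE (Std_patLE _ _ t x
    (fun i => Finset.mem_image_of_mem x (Finset.mem_univ i)) (fun i j hij => ?_)
    (fun i j => ?_)) ?_⟩
  · exact (Std_symm_lt hr (f i) (f j)).1 (hf hij)
  · rw [hf2 i j]
    exact Std_num_lt hq _ _
  · show (Finset.univ.image x).card ≤ t.n
    exact Finset.card_image_le.trans (by simp)

theorem patLE_refl' (s : FPerm) : PatLE s s := ⟨id, strictMono_id, fun _ _ => Iff.rfl⟩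

theorem patLE_trans {s t u : FPerm} (h1 : PatLE s t) (h2 : PatLE t u) : PatLE s u := by
  obtain ⟨f, hf, hf2⟩ := h1
  obtain ⟨g, hg, hg2⟩ := h2
  exact ⟨g ∘ f, hg.comp hf, fun i j => (hf2 i j).trans (hg2 _ _)⟩

theorem patLE_n {s t : FPerm} (h : PatLE s t) : s.n ≤ t.n := by
  obtain ⟨f, hf, -⟩ := h
  simpa using Fintype.card_le_of_injective f hf.injective

/-- A pattern of the same length is equal. -/
theorem eq_of_patLE {s t : FPerm} (h : PatLE s t) (hn : t.n ≤ s.n) : s = t :=
  Std_eq_of_patLE h hn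

/-! ### One-line notation -/

/-- Every permutation is the permutation of its points `(i, p i)`. -/
theorem eq_std (t : FPerm) (a : ℕ → ℕ) (ha : ∀ i : Fin t.n, a i = t.p i)
    (h1 : STO (Finset.range t.n) fun i j => i < j)
    (h2 : STO (Finset.range t.n) fun i j => a i < a j) : t = std h1 h2 := by
  refine Std_eq_of_patLE (Std_patLE h1 h2 t (fun i => (i : ℕ))
    (fun i => Finset.mem_range.2 i.2) (fun i j hij => hij) (fun i j => ?_)) ?_
  · rw [ha, ha, Fin.lt_def]
  · show (Finset.range t.n).card ≤ t.n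
    rw [Finset.card_range]

end Pool.Agent.W_58hard_h42
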